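import Pool.Agent.Lib.MP_6b2d39_agHz.Defs

set_option autoImplicit false

namespace Pool.Agent.Lib.MP_6b2d39_agHg

open Pool.Agent.Lib.MP_6b2d39_agHz

/-- HG22. as `phi_attain` (`Hz/Leg.lean`): `b` = number of the `i < n` with `c < r i`, an initial
segment -/
theorem phi_attain_g {n : ℕ} {r : ℕ → ℕ} (hr : Antitone r) (c : ℕ) :
    ∃ b, b * c + Phi n r c ≤ CC r b ∧ (b = 0 ∨ c < r (b - 1)) := by
  induction n with
  | zero => exact ⟨0, by simp [Phi, CC], Or.inl rfl⟩
  | succ n ih =>
    by_cases h : c < r n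
    · refine ⟨n + 1, ?_, Or.inr (by simpa using h)⟩
      have h1 : ∀ i ∈ Finset.range (n + 1), c + (r i - c) = r i := by
        intro i hi
        have := hr (Nat.lt_succ_iff.1 (Finset.mem_range.1 hi))
        omega
      have h2 : (n + 1) * c + Phi (n + 1) r c = CC r (n + 1) := by
        unfold Phi CC
        rw [← Finset.sum_congr rfl h1, Finset.sum_add_distrib, Finset.sum_const,
          Finset.card_range, smul_eq_mul]
      exact h2.le
    · obtain ⟨b, h1, hb⟩ := ih
      refine ⟨b, ?_, hb⟩
      have h2 : Phi (n + 1) r c = Phi n r c := by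
        unfold Phi
        rw [Finset.sum_range_succ, Nat.sub_eq_zero_of_le (not_lt.1 h), add_zero]
      rw [h2]
      exact h1

end Pool.Agent.Lib.MP_6b2d39_agHg
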