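import Pool.Agent.Lib.MP_6b2d39_agHg.MissG

set_option autoImplicit false

namespace Pool.Agent.Lib.MP_6b2d39_agHg

open Pool.Agent.Lib.MP_6b2d39_agHz

/-- HG18. as `miss_card` (`Hz/MissCard.lean`). `D = Dm x Au Al`. `(s - x ^ 2) k ≤ D - 1` gives
`k ≤ 100 D`, so `x (Al + 1) - x ^ 2 - s b ≤ x ^ 2 i ≤ x Au - s b + 100 D x ^ 2` (at most `101 D + 1`
values of `i`), and `r i ≤ a ≤ r i + D - 1` (at most `D` values of `a`). -/
theorem miss_card_g {x Au Al : ℝ} {s n : ℕ} {r : ℕ → ℕ} (hx : 1 ≤ x)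
    (hs : x ^ 2 + 1 / 100 ≤ s) (h : Rw x Au Al n r) (b : ℕ) :
    ∃ E : Finset (ℕ × ℕ), (∀ i a, Miss s b r i a → (i, a) ∈ E) ∧
      (E.card : ℝ) ≤ 102 * (|Dm x Au Al| + 1) ^ 2 := by
  have hx2 : 0 < x ^ 2 := by positivity
  have hx21 : 1 ≤ x ^ 2 := one_le_pow₀ hx
  obtain ⟨D, hD⟩ : ∃ D : ℝ, D = Dm x Au Al := ⟨_, rfl⟩
  have hDe : D = x * (Au - Al) + x ^ 2 - x := by rw [hD]; rfl
  have hk : ∀ i a, Miss s b r i a → ∃ k : ℕ, (1 : ℝ) ≤ k ∧ (k : ℝ) ≤ 100 * (D - 1) ∧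
      (s : ℝ) * b ≤ a + s * k ∧ (a : ℝ) + s * k + 1 ≤ x * Au - x ^ 2 * i + x ^ 2 * k ∧
      (a : ℝ) ≤ r i + D - 1 := by
    intro i a hM
    obtain ⟨k, hk1, -, hk2, hk3, hk4⟩ := miss_bd_g h hM
    obtain ⟨-, hM2, -⟩ := hM
    have hra : (r i : ℝ) ≤ a := by exact_mod_cast hM2
    have hk2' : (s : ℝ) * b ≤ a + s * k := by exact_mod_cast hk2
    have hk0 : (1 : ℝ) ≤ k := by exact_mod_cast hk1
    have hsk : 1 / 100 * (k : ℝ) ≤ (s - x ^ 2) * k :=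
      mul_le_mul_of_nonneg_right (by linarith) (by linarith)
    rw [← hD] at hk4
    exact ⟨k, hk0, by linarith, hk2', hk3, by linarith⟩
  rcases lt_or_ge D 1 with hD1 | hD1
  · refine ⟨∅, fun i a hM => ?_, ?_⟩
    · obtain ⟨k, hk1, hk2, -⟩ := hk i a hM
      exfalso
      linarith
    · rw [Finset.card_empty, Nat.cast_zero]
      positivity
  obtain ⟨L, hL⟩ : ∃ L : ℝ, L = (x * (Al + 1) - x ^ 2 - s * b) / x ^ 2 := ⟨_, rfl⟩
  obtain ⟨U, hU⟩ : ∃ U : ℝ, U = (x * Au - s * b + x ^ 2 * (100 * (D - 1)) - 1) / x ^ 2 :=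
    ⟨_, rfl⟩
  obtain ⟨m, hm⟩ : ∃ m : ℕ, m = ⌊D⌋₊ := ⟨_, rfl⟩
  refine ⟨(Finset.Icc ⌊L⌋₊ ⌊U⌋₊).biUnion
    (fun i => (Finset.Ico (r i) (r i + m)).image (fun a => (i, a))), ?_, ?_⟩
  · intro i a hM
    obtain ⟨k, hk0, hkk, hk2, hk3, hk4⟩ := hk i a hM
    obtain ⟨hM1, hM2, _⟩ := hM
    have hra : (r i : ℝ) ≤ a := by exact_mod_cast hM2
    have hab : (a : ℝ) < s * b := by exact_mod_cast hM1
    have hlo := h.lo i
    rw [Finset.mem_biUnion]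
    refine ⟨i, Finset.mem_Icc.2 ⟨?_, ?_⟩, Finset.mem_image.2 ⟨a, Finset.mem_Ico.2 ⟨hM2, ?_⟩, rfl⟩⟩
    · have h1 : L ≤ i := by
        rw [hL, div_le_iff₀ hx2]
        linarith
      calc ⌊L⌋₊ ≤ ⌊(i : ℝ)⌋₊ := Nat.floor_le_floor h1
        _ = i := Nat.floor_natCast i
    · apply Nat.le_floor
      rw [hU, le_div_iff₀ hx2]
      have h1 := mul_le_mul_of_nonneg_left hkk hx2.le
      linarith
    · have h1 : a - r i + 1 ≤ m := by
        rw [hm]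
        apply Nat.le_floor
        rw [Nat.cast_add, Nat.cast_sub hM2, Nat.cast_one]
        linarith
      omega
  · have hc : ((Finset.Icc ⌊L⌋₊ ⌊U⌋₊).biUnion
        (fun i => (Finset.Ico (r i) (r i + m)).image (fun a => (i, a)))).card ≤
        (⌊U⌋₊ + 1 - ⌊L⌋₊) * m := by
      refine Finset.card_biUnion_le.trans ?_
      refine (Finset.sum_le_card_nsmul _ _ m fun i _ => ?_).trans ?_
      · refine Finset.card_image_le.trans ?_
        rw [Nat.card_Ico]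
        omega
      · rw [smul_eq_mul, Nat.card_Icc]
    have hLx : L * x ^ 2 = x * (Al + 1) - x ^ 2 - s * b := by
      rw [hL, div_mul_cancel₀ _ hx2.ne']
    have hUx : U * x ^ 2 = x * Au - s * b + x ^ 2 * (100 * (D - 1)) - 1 := by
      rw [hU, div_mul_cancel₀ _ hx2.ne']
    have hUL : U ≤ L + 101 * (D - 1) := by
      by_contra hcon
      rw [not_le] at hcon
      have h1 : 0 < (U - L - 101 * (D - 1)) * x ^ 2 :=
        mul_pos (by linarith) hx2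
      have h2 : (U - L - 101 * (D - 1)) * x ^ 2 = (D - 1) * (1 - x ^ 2) := by
        linear_combination hUx - hLx - hDe
      have h3 : (D - 1) * (1 - x ^ 2) ≤ 0 :=
        mul_nonpos_of_nonneg_of_nonpos (by linarith) (by linarith)
      linarith
    have h1 : ((⌊U⌋₊ + 1 - ⌊L⌋₊ : ℕ) : ℝ) ≤ 101 * D := by
      have h2 : L - 1 < ⌊L⌋₊ := Nat.sub_one_lt_floor L
      rcases le_or_gt ⌊L⌋₊ (⌊U⌋₊ + 1) with h3 | h3
      · rw [Nat.cast_sub h3, Nat.cast_add, Nat.cast_one]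
        rcases le_or_gt 0 U with h4 | h4
        · have h5 := Nat.floor_le h4
          linarith
        · rw [Nat.floor_of_nonpos h4.le, Nat.cast_zero]
          have h6 : (0 : ℝ) ≤ (⌊L⌋₊ : ℝ) := Nat.cast_nonneg _
          linarith
      · rw [Nat.sub_eq_zero_of_le h3.le, Nat.cast_zero]
        positivity
    have h2 : (m : ℝ) ≤ D := by
      rw [hm]
      exact Nat.floor_le (by linarith)
    have h3 : (((Finset.Icc ⌊L⌋₊ ⌊U⌋₊).biUnion
        (fun i => (Finset.Ico (r i) (r i + m)).image (fun a => (i, a)))).card : ℝ) ≤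
        ((⌊U⌋₊ + 1 - ⌊L⌋₊ : ℕ) : ℝ) * m := by
      exact_mod_cast hc
    have h4 : ((⌊U⌋₊ + 1 - ⌊L⌋₊ : ℕ) : ℝ) * m ≤ 101 * D * D :=
      mul_le_mul h1 h2 (Nat.cast_nonneg _) (by positivity)
    have h6 : |Dm x Au Al| = D := by rw [← hD]; exact abs_of_nonneg (by linarith)
    rw [h6]
    nlinarith
end Pool.Agent.Lib.MP_6b2d39_agHg
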