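import Pool.Agent.Lib.MP_6b2d39_agHg.Defs

set_option autoImplicit false

namespace Pool.Agent.Lib.MP_6b2d39_agHg

/-- HG26. `(s / x) ^ 2 ≥ (x + 1 / (100 x)) ^ 2 ≥ x ^ 2 + 1 / 50` -/
theorem Rx.mono {y x : ℝ} {k : ℕ} (h : Rx y k x) (hy : 1 ≤ y) : y ≤ x := by
  induction h with
  | start => exact le_rfl
  | step s hx hs ih =>
    have hx0 : (0 : ℝ) < _ := lt_of_lt_of_le (lt_of_lt_of_le one_pos hy) ih
    refine ih.trans ?_
    rw [le_div_iff₀ hx0]
    nlinarith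

theorem Rx.count {y x : ℝ} {k : ℕ} (h : Rx y k x) (hy : 1 ≤ y) : (k : ℝ) ≤ 50 * (x ^ 2 - y ^ 2) := by
  induction h with
  | start => simp
  | @step k x s hx hs ih =>
    have h1 : y ≤ x := hx.mono hy
    have hx0 : 0 < x := by linarith
    have h2 : x ^ 2 + 1 / 50 ≤ ((s : ℝ) / x) ^ 2 := by
      rw [div_pow, le_div_iff₀ (by positivity)]
      have h3 : (x ^ 2 + 1 / 100) ^ 2 ≤ (s : ℝ) ^ 2 :=
        pow_le_pow_left₀ (by positivity) hs 2
      nlinarith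
    push_cast
    linarith

end Pool.Agent.Lib.MP_6b2d39_agHg
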