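import Pool.Agent.Lib.MP_6b2d39_agHg.LbStep
import Pool.Agent.Lib.MP_6b2d39_agHg.RwStep
import Pool.Agent.Lib.MP_6b2d39_agHg.MissCardG
import Pool.Agent.Lib.MP_6b2d39_agHg.RxB
import Pool.Agent.Lib.MP_6b2d39_agHz.SumLo
import Pool.Agent.Lib.MP_6b2d39_agHz.SumUp

set_option autoImplicit false

namespace Pool.Agent.Lib.MP_6b2d39_agHg

open Pool.Agent.Lib.MP_6b2d39_agHl Pool.Agent.Lib.MP_6b2d39_agHz

/-- HG27. THE CHAIN. Induction on `Rx y k x` (`X` bounds all the `x`, `K` all the `k`; the `x` increase,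
`Rx.mono`): one step is `cc_lo`, `cc_up` with `E` from `miss_card_g` (`M = 102 (Dx + 1) ^ 2`,
`|Dm x Au Al| ≤ Dx` for `y ≤ x ≤ X` from `hD`), `rw_step`, `lb_step`; the increment
`2 M + 4 f ^ 2 + 2 c + 3 + √(2 B)` is at most `Λ` as long as `B ≤ B0 + K Λ` (`hΛ`). -/
theorem chain_g {y x β B0 N Au Al X Dx Λ : ℝ} {k n : ℕ} {r0 : ℕ → ℕ} (h : Rx y k x) (hy : 1 ≤ y)
    (hβ : 0 ≤ β) (hβ1 : β ≤ 1) (hB : 0 ≤ B0) (hN : 0 ≤ N + 1 / 2) (hxX : x ≤ X)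
    (hD : ∀ z : ℝ, y ≤ z → z ≤ X → |Dm z Au Al| ≤ Dx)
    (hΛ0 : 0 ≤ Λ) (hΛ : 2 * (102 * (Dx + 1) ^ 2) + 4 * X ^ 2 +
      2 * max (max Au 0 - (N + 1 / 2)) 0 + 3 + √(2 * (B0 + 50 * X ^ 2 * Λ)) ≤ Λ)
    (hr : Rw y Au Al n r0) (hL : LB y β B0 N n r0) :
    ∃ r, Red n r0 r ∧ Rw x Au Al n r ∧ LB x β (B0 + k * Λ) N n r := by
  induction h with
  | start =>
    refine ⟨r0, Relation.ReflTransGen.refl, hr, ?_⟩
    rwa [Nat.cast_zero, zero_mul, add_zero]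
  | @step k x s h hs ih =>
    have hyx : y ≤ x := h.mono hy
    have hx1 : 1 ≤ x := hy.trans hyx
    have hx0 : 0 < x := by linarith
    have hxs : x ^ 2 ≤ (s : ℝ) := by linarith
    have hs1' : (1 : ℝ) ≤ (s : ℝ) := by nlinarith
    have hs1 : 1 ≤ s := by exact_mod_cast hs1'
    have hxf : x ≤ (s : ℝ) / x := by
      rw [le_div_iff₀ hx0]
      nlinarith
    have hxX' : x ≤ X := hxf.trans hxX
    have hX1 : 1 ≤ X := hx1.trans hxX'
    obtain ⟨r, hred, hw, hlb⟩ := ih hxX'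
    have hk : (k : ℝ) ≤ 50 * X ^ 2 := by
      have h1 := h.count hy
      nlinarith
    have hB' : 0 ≤ B0 + k * Λ := by positivity
    have hw' := rw_step hx1 hxs hw
    have hdm : |Dm x Au Al| ≤ Dx := hD x hyx hxX'
    have hM : (0 : ℝ) ≤ 102 * (Dx + 1) ^ 2 := by positivity
    have hup : ∀ b : ℕ, (CC (stp s n r) b : ℝ) + Phi n r (s * b)
        ≤ CC r n + 102 * (Dx + 1) ^ 2 := by
      intro b
      obtain ⟨E, hE, hEc⟩ := miss_card_g hx1 hs hw b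
      have h1 := cc_up hs1 hw.z b E hE
      have h2 : (CC (stp s n r) b : ℝ) + Phi n r (s * b) ≤ CC r n + (E.card : ℝ) := by
        exact_mod_cast h1
      have h3 : (|Dm x Au Al| + 1) ^ 2 ≤ (Dx + 1) ^ 2 := by
        have h4 := abs_nonneg (Dm x Au Al)
        exact pow_le_pow_left₀ (by linarith) (by linarith) 2
      linarith
    have hlo : ∀ b : ℕ, (CC r n : ℝ) ≤ CC (stp s n r) b + Phi n r (s * b) := by
      intro b
      exact_mod_cast cc_lo hs1 r b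
    have h5 := lb_step hx0 hs1 rfl (hx1.trans hxf) hβ hβ1 hB' hM hN hlb hlo hup hw'.up
    refine ⟨stp s n r, hred.trans (Relation.ReflTransGen.single ⟨s, hs1, rfl⟩), hw', ?_⟩
    intro c c'
    refine (h5 c c').trans (add_le_add le_rfl ?_)
    have h6 : √(2 * (B0 + k * Λ)) ≤ √(2 * (B0 + 50 * X ^ 2 * Λ)) := by
      refine Real.sqrt_le_sqrt ?_
      have h7 : (k : ℝ) * Λ ≤ 50 * X ^ 2 * Λ := mul_le_mul_of_nonneg_right hk hΛ0
      linarith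
    have h8 : ((s : ℝ) / x) ^ 2 ≤ X ^ 2 := pow_le_pow_left₀ (by positivity) hxX 2
    have h9 : ((k + 1 : ℕ) : ℝ) * Λ = k * Λ + Λ := by
      push_cast
      ring
    rw [h9]
    linarith

end Pool.Agent.Lib.MP_6b2d39_agHg
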