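import Mathlib

set_option autoImplicit false

namespace Pool.Agent.Lib.MP_6b2d39_agHg

/-- HG34. `nb = ⌈3 z0 / 20⌉₊` (`z1 = z0 + 4 nb` is between `8 z0 / 5` and `8 z0 / 5 + 4`), `q = z1 + 1`,
`s = ⌈q √n / √(z1 + 11 / 20)⌉₊`, `t = s ^ 2 / n`: `t ≥ q ^ 2 / (z1 + 11 / 20)`, and
`t ≤ q ^ 2 / (z1 + 9 / 20)` as `√n ≥ 100 z0 ^ 2`. So `t` is between `z1 + 1` and `z1 + 2`. -/
theorem par_of_z {n z0 : ℕ} (hz : 1000000 ≤ z0) (hn : 10000 * (z0 : ℝ) ^ 4 ≤ n) :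
    ∃ (nb q s : ℕ) (t : ℝ), 16 * z0 ≤ 10 * (z0 + 4 * nb) ∧ 3 * (z0 + 4 * nb) ≤ 5 * z0 ∧
      (z0 : ℝ) + 4 * nb + 45 / 100 ≤ (q : ℝ) ^ 2 / t ∧
      (q : ℝ) ^ 2 / t ≤ (z0 : ℝ) + 4 * nb + 55 / 100 ∧ (q : ℝ) ^ 2 / t + 1 / 100 ≤ q ∧
      t = (s : ℝ) ^ 2 / n ∧ (z0 : ℝ) ≤ t ∧ 6 * t ≤ 10 * z0 := by
  obtain ⟨nb, hnb⟩ : ∃ nb : ℕ, nb = (3 * z0 + 19) / 20 := ⟨_, rfl⟩
  have hnb1 : 3 * z0 ≤ 20 * nb := by omega
  have hnb2 : 20 * nb ≤ 3 * z0 + 19 := by omega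
  obtain ⟨Z, hZ⟩ : ∃ Z : ℝ, Z = (z0 : ℝ) + 4 * nb := ⟨_, rfl⟩
  have hz0 : (1000000 : ℝ) ≤ z0 := by exact_mod_cast hz
  have hr1 : 3 * (z0 : ℝ) ≤ 20 * nb := by exact_mod_cast hnb1
  have hr2 : 20 * (nb : ℝ) ≤ 3 * z0 + 19 := by exact_mod_cast hnb2
  have hZ1 : (8 : ℝ) / 5 * z0 ≤ Z := by rw [hZ]; linarith
  have hZ2 : Z ≤ (8 : ℝ) / 5 * z0 + 4 := by rw [hZ]; linarith
  have hZ0 : (1000000 : ℝ) ≤ Z := by linarith
  have hz4 : (z0 : ℝ) ≤ (z0 : ℝ) ^ 4 := by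
    have h1 : (1 : ℝ) ≤ (z0 : ℝ) ^ 3 := one_le_pow₀ (by linarith)
    calc (z0 : ℝ) = z0 * 1 := (mul_one _).symm
      _ ≤ z0 * (z0 : ℝ) ^ 3 := mul_le_mul_of_nonneg_left h1 (by linarith)
      _ = (z0 : ℝ) ^ 4 := by ring
  have hn1 : 10000 * (z0 : ℝ) ≤ n := by linarith
  have hn0 : (0 : ℝ) < n := by linarith
  obtain ⟨q, hq⟩ : ∃ q : ℕ, q = z0 + 4 * nb + 1 := ⟨_, rfl⟩
  have hqZ : (q : ℝ) = Z + 1 := by
    rw [hq, hZ]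
    push_cast
    ring
  have hq0 : (0 : ℝ) < q := by rw [hqZ]; linarith
  have hB0 : (0 : ℝ) < Z + 11 / 20 := by linarith
  have hA0 : (0 : ℝ) < Z + 9 / 20 := by linarith
  obtain ⟨X, hX⟩ : ∃ X : ℝ, X = (q : ℝ) ^ 2 * n / (Z + 11 / 20) := ⟨_, rfl⟩
  have hX0 : 0 ≤ X := by rw [hX]; positivity
  obtain ⟨x, hx⟩ : ∃ x : ℝ, x = Real.sqrt X := ⟨_, rfl⟩
  have hx0 : 0 ≤ x := by rw [hx]; exact Real.sqrt_nonneg _
  have hxx : x ^ 2 = X := by rw [hx]; exact Real.sq_sqrt hX0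
  have hX1 : X ≤ 4 * z0 * n := by
    rw [hX, div_le_iff₀ hB0, hqZ]
    have h1 : (Z + 1) * (Z + 1) ≤ 2 * z0 * (2 * (Z + 11 / 20)) :=
      mul_le_mul (by linarith) (by linarith) (by linarith) (by linarith)
    have h2 := mul_le_mul_of_nonneg_right h1 hn0.le
    calc (Z + 1) ^ 2 * n = (Z + 1) * (Z + 1) * n := by ring
      _ ≤ 2 * z0 * (2 * (Z + 11 / 20)) * n := h2
      _ = 4 * z0 * n * (Z + 11 / 20) := by ring
  have hxn : x ≤ n / 30 := by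
    have h1 : x ^ 2 ≤ ((n : ℝ) / 30) ^ 2 := by
      rw [hxx]
      have h2 : 3600 * (z0 : ℝ) * n ≤ n * n := mul_le_mul_of_nonneg_right (by linarith) hn0.le
      calc X ≤ 4 * z0 * n := hX1
        _ = 3600 * (z0 : ℝ) * n / 900 := by ring
        _ ≤ n * n / 900 := by linarith
        _ = ((n : ℝ) / 30) ^ 2 := by ring
    exact (sq_le_sq₀ hx0 (by positivity)).1 h1
  obtain ⟨s, hs⟩ : ∃ s : ℕ, s = ⌈x⌉₊ := ⟨_, rfl⟩
  have hs1 : x ≤ s := by rw [hs]; exact Nat.le_ceil x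
  have hs2 : (s : ℝ) ≤ x + 1 := by rw [hs]; exact (Nat.ceil_lt_add_one hx0).le
  have hs3 : X ≤ (s : ℝ) ^ 2 := by
    rw [← hxx]
    exact pow_le_pow_left₀ hx0 hs1 2
  have hs4 : (s : ℝ) ^ 2 ≤ (q : ℝ) ^ 2 * n / (Z + 9 / 20) := by
    have h1 : (s : ℝ) ^ 2 ≤ X + n / 10 := by
      have h2 : (s : ℝ) ^ 2 ≤ (x + 1) ^ 2 := pow_le_pow_left₀ (by positivity) hs2 2
      have h3 : (x + 1) ^ 2 = x ^ 2 + 2 * x + 1 := by ring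
      rw [h3, hxx] at h2
      linarith
    refine h1.trans ?_
    rw [le_div_iff₀ hA0]
    have h3 : X * (Z + 11 / 20) = (q : ℝ) ^ 2 * n := by
      rw [hX]
      field_simp
    have h4 : X * (Z + 9 / 20) = (q : ℝ) ^ 2 * n - X / 10 := by
      rw [← h3]
      ring
    have h5 : (n : ℝ) * (Z + 9 / 20) ≤ X := by
      rw [hX, le_div_iff₀ hB0, hqZ]
      have h6 : (Z + 9 / 20) * (Z + 11 / 20) ≤ (Z + 1) * (Z + 1) :=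
        mul_le_mul (by linarith) (by linarith) hB0.le (by linarith)
      calc (n : ℝ) * (Z + 9 / 20) * (Z + 11 / 20) = (Z + 9 / 20) * (Z + 11 / 20) * n := by ring
        _ ≤ (Z + 1) * (Z + 1) * n := mul_le_mul_of_nonneg_right h6 hn0.le
        _ = (Z + 1) ^ 2 * n := by ring
    have h7 : (X + (n : ℝ) / 10) * (Z + 9 / 20) = X * (Z + 9 / 20) + n * (Z + 9 / 20) / 10 := by
      ring
    rw [h7, h4]
    linarith
  have hqn : 0 < (q : ℝ) ^ 2 * n := by positivity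
  have hs0 : (0 : ℝ) < (s : ℝ) ^ 2 := by
    refine lt_of_lt_of_le ?_ hs3
    rw [hX]
    positivity
  obtain ⟨t, ht⟩ : ∃ t : ℝ, t = (s : ℝ) ^ 2 / n := ⟨_, rfl⟩
  have ht0 : 0 < t := by rw [ht]; positivity
  have ht1 : (q : ℝ) ^ 2 ≤ (Z + 11 / 20) * t := by
    have h1 : (q : ℝ) ^ 2 * n ≤ (s : ℝ) ^ 2 * (Z + 11 / 20) := by
      rw [hX, div_le_iff₀ hB0] at hs3
      exact hs3
    rw [ht, mul_div_assoc', le_div_iff₀ hn0]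
    linarith
  have ht2 : (Z + 9 / 20) * t ≤ (q : ℝ) ^ 2 := by
    rw [le_div_iff₀ hA0] at hs4
    rw [ht, mul_div_assoc', div_le_iff₀ hn0]
    linarith
  have e1 : (q : ℝ) ^ 2 / t ≤ Z + 11 / 20 := by
    rw [div_le_iff₀ ht0]
    exact ht1
  have e2 : Z + 9 / 20 ≤ (q : ℝ) ^ 2 / t := by
    rw [le_div_iff₀ ht0]
    exact ht2
  have e3 : (q : ℝ) ≤ t := by
    have h1 : (q : ℝ) * q ≤ q * t := by
      have h2 : (Z + 11 / 20) * t ≤ q * t :=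
        mul_le_mul_of_nonneg_right (by rw [hqZ]; linarith) ht0.le
      rw [← sq]
      exact ht1.trans h2
    exact le_of_mul_le_mul_left h1 hq0
  have e4 : t ≤ Z + 2 := by
    have h1 : (Z + 9 / 20) * t ≤ (Z + 9 / 20) * (Z + 2) := by
      refine ht2.trans ?_
      have h2 : (Z + 9 / 20) * (Z + 2) = (Z + 1) ^ 2 + (9 / 20 * Z - 1 / 10) := by ring
      rw [hqZ, h2]
      linarith
    exact le_of_mul_le_mul_left h1 hA0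
  refine ⟨nb, q, s, t, by omega, by omega, ?_, ?_, ?_, ht, ?_, ?_⟩
  · rw [← hZ]
    linarith
  · rw [← hZ]
    linarith
  · rw [hqZ] at e1 ⊢
    linarith
  · linarith
  · linarith

end Pool.Agent.Lib.MP_6b2d39_agHg
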