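import Mathlib

set_option autoImplicit false

namespace Pool.Agent.Lib.MP_6b2d39_agHg

/-- HG31. `s = ⌈y ^ 2⌉ + 1 + j`, `0 ≤ j ≤ 2 y`: `g j = s ^ 2 / y ^ 2 - 2 j` increases by
`(2 (s - y ^ 2) + 1) / y ^ 2 ≤ 1 / 10` when `j` increases by one, and `g (⌊2 y⌋) ≥ g 0 + 1`
(`s ^ 2 / y ^ 2 = y ^ 2 + 2 (s - y ^ 2) + (s - y ^ 2) ^ 2 / y ^ 2`); so for some `j` the number `g j`
is within `5 / 100` of an integer plus `1 / 2`. -/
theorem start_y {y : ℝ} (hy : 100 ≤ y) : ∃ s z0 : ℕ, y ^ 2 + 1 / 100 ≤ s ∧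
    (z0 : ℝ) + 45 / 100 ≤ ((s : ℝ) / y) ^ 2 ∧ ((s : ℝ) / y) ^ 2 ≤ (z0 : ℝ) + 55 / 100 ∧
    y ^ 2 ≤ z0 ∧ (z0 : ℝ) ≤ y ^ 2 + 10 * y := by
  have hy0 : (0 : ℝ) < y := by linarith
  have hy2 : (0 : ℝ) < y ^ 2 := by positivity
  obtain ⟨c, hc⟩ : ∃ c : ℕ, c = ⌈y ^ 2⌉₊ + 1 := ⟨_, rfl⟩
  have hc1 : y ^ 2 + 1 ≤ (c : ℝ) := by
    rw [hc]
    push_cast
    have := Nat.le_ceil (y ^ 2)
    linarith
  have hc2 : (c : ℝ) < y ^ 2 + 2 := by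
    rw [hc]
    push_cast
    have := Nat.ceil_lt_add_one hy2.le
    linarith
  obtain ⟨u, hu⟩ : ∃ u : ℝ, u = (c : ℝ) - y ^ 2 := ⟨_, rfl⟩
  have hu1 : 1 ≤ u := by linarith
  have hu2 : u < 2 := by linarith
  obtain ⟨g, hg⟩ : ∃ g : ℕ → ℝ, g = fun j : ℕ => y ^ 2 + 2 * u + (u + j) ^ 2 / y ^ 2 := ⟨_, rfl⟩
  have hgs : ∀ j : ℕ, (((c + j : ℕ) : ℝ) / y) ^ 2 = g j + 2 * j := by
    intro j
    have h1 : (((c + j : ℕ) : ℝ)) = y ^ 2 + (u + j) := by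
      push_cast
      rw [hu]
      ring
    rw [h1, hg, div_pow]
    field_simp
    ring
  have hinc : ∀ i : ℕ, (i : ℝ) ≤ 2 * y → g (i + 1) ≤ g i + 1 / 10 := by
    intro i hi
    have h1 : g (i + 1) - g i = (2 * (u + i) + 1) / y ^ 2 := by
      rw [hg]
      push_cast
      field_simp
      ring
    have h2 : (2 * (u + i) + 1) / y ^ 2 ≤ 1 / 10 := by
      rw [div_le_iff₀ hy2]
      nlinarith
    linarith
  have hJ : g 0 + 1 ≤ g ⌊2 * y⌋₊ := by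
    have h1 : 2 * y - 1 ≤ (⌊2 * y⌋₊ : ℝ) := by
      have := Nat.lt_floor_add_one (2 * y)
      linarith
    obtain ⟨J, hJ⟩ : ∃ J : ℝ, J = (⌊2 * y⌋₊ : ℝ) := ⟨_, rfl⟩
    rw [← hJ] at h1
    have h2 : g ⌊2 * y⌋₊ - g 0 = (J * (J + 2 * u)) / y ^ 2 := by
      rw [hg]
      dsimp only
      rw [← hJ]
      push_cast
      field_simp
      ring
    have h3 : 1 ≤ (J * (J + 2 * u)) / y ^ 2 := by
      rw [le_div_iff₀ hy2]
      have h4 : y ≤ J := by linarith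
      nlinarith
    linarith
  obtain ⟨m, hm⟩ : ∃ m : ℤ, m = ⌈g 0 - 45 / 100⌉ := ⟨_, rfl⟩
  have hm1 : g 0 - 45 / 100 ≤ (m : ℝ) := by
    rw [hm]
    exact Int.le_ceil _
  have hm2 : (m : ℝ) < g 0 - 45 / 100 + 1 := by
    rw [hm]
    exact Int.ceil_lt_add_one _
  have hg0 : y ^ 2 + 2 * u ≤ g 0 := by
    rw [hg]
    dsimp only
    have : 0 ≤ (u + (0 : ℕ)) ^ 2 / y ^ 2 := by positivity
    linarith
  have hg0' : g 0 ≤ y ^ 2 + 2 * u + 1 := by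
    rw [hg]
    dsimp only
    have : (u + (0 : ℕ)) ^ 2 / y ^ 2 ≤ 1 := by
      rw [div_le_one hy2]
      push_cast
      nlinarith
    linarith
  have hex : ∃ j : ℕ, (m : ℝ) + 45 / 100 ≤ g j := ⟨⌊2 * y⌋₊, by linarith⟩
  classical
  obtain ⟨j, hj1, hj2, hj3⟩ : ∃ j : ℕ, (m : ℝ) + 45 / 100 ≤ g j ∧ g j ≤ (m : ℝ) + 55 / 100 ∧
      (j : ℝ) ≤ 2 * y := by
    have h1 := Nat.find_spec hex
    have h2 : Nat.find hex ≤ ⌊2 * y⌋₊ := Nat.find_min' hex (by linarith)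
    have h3 : (Nat.find hex : ℝ) ≤ 2 * y :=
      (Nat.cast_le.2 h2).trans (Nat.floor_le (by linarith))
    refine ⟨Nat.find hex, h1, ?_, h3⟩
    rcases Nat.eq_zero_or_pos (Nat.find hex) with h4 | h4
    · rw [h4]
      linarith
    · obtain ⟨i, hi⟩ : ∃ i, Nat.find hex = i + 1 := ⟨Nat.find hex - 1, by omega⟩
      have h5 : ¬ (m : ℝ) + 45 / 100 ≤ g i := Nat.find_min hex (by omega)
      rw [hi] at h3 ⊢
      push_cast at h3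
      have h6 := hinc i (by linarith)
      rw [not_le] at h5
      linarith
  have hm0 : 0 ≤ m := by
    have h1 : (0 : ℝ) ≤ (m : ℝ) := by nlinarith
    exact_mod_cast h1
  obtain ⟨n, rfl⟩ := Int.eq_ofNat_of_zero_le hm0
  have hn : (((n : ℕ) : ℤ) : ℝ) = (n : ℝ) := by push_cast; rfl
  have hn' : ((Int.ofNat n : ℤ) : ℝ) = (n : ℝ) := hn
  refine ⟨c + j, n + 2 * j, ?_, ?_, ?_, ?_, ?_⟩
  · push_cast
    have : (0 : ℝ) ≤ (j : ℝ) := Nat.cast_nonneg j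
    linarith
  · rw [hgs j]
    push_cast
    linarith [hj1, hn, hn']
  · rw [hgs j]
    push_cast
    linarith [hj2, hn, hn']
  · push_cast
    have : (0 : ℝ) ≤ (j : ℝ) := Nat.cast_nonneg j
    linarith [hm1, hn, hn']
  · push_cast
    linarith [hm2, hn, hn']

end Pool.Agent.Lib.MP_6b2d39_agHg
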