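import Pool.Agent.Lib.MP_6b2d39_agHg.SubY
import Pool.Agent.Lib.MP_6b2d39_agHg.StartY
import Pool.Agent.Lib.MP_6b2d39_agHg.ParY
import Pool.Agent.Lib.MP_6b2d39_agHl.EndR
import Pool.Agent.Lib.MP_ed661f_ag.X.DensGz

set_option autoImplicit false

namespace Pool.Agent.Lib.MP_6b2d39_agHg

open Pool.Agent.Lib.MP_ed661f_ag.G Pool.Agent.Lib.MP_ed661f_ag.H Pool.Agent.Lib.MP_ed661f_ag.X
  Pool.Agent.Lib.MP_6b2d39_agHl

/-- HG35. as `chainR` (`Hl/ChainR.lean`): `start_y` (`Rx y 1 x0`), `par_of_z`, `chain_of_subsetY`,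
`density` at `τ - ε`, `end_R` at `t`, `η = 2 ε`, `exp (2 ε) ≤ 1 + 4 ε`. With `t = s ^ 2 / n`:
`f = s / x` is between `√n / (1 + e)` and `√n`, `e = exp (-(16 t) ^ (1 / 20)) ≤ exp (-y ^ (1 / 10))` as
`t ≥ z0 ≥ y ^ 2`. `x ^ 2 ≤ t (1 + e) ^ 2 ≤ 2 y ^ 2`, `s = √(n t) ≥ y √n`. -/
theorem chain_y : ∃ Y0 : ℝ, ∀ (y : ℝ) (n : ℕ), Y0 ≤ y → 1000000 * y ^ 8 ≤ n →
    ∃ (k s : ℕ) (x f : ℝ), Rx y k x ∧ x ^ 2 ≤ 2 * y ^ 2 ∧ y * √n ≤ s ∧ f = s / x ∧ f ^ 2 ≤ n ∧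
      √n * (1 - Real.exp (-(y ^ (1 / 10 : ℝ)))) ≤ f := by
  obtain ⟨Z0, hZ0⟩ := density
  obtain ⟨T1, hT1⟩ := end_R
  refine ⟨max (max T1 (Z0 : ℝ)) 1000, fun y n hy hn => ?_⟩
  have hyT : T1 ≤ y := le_trans (le_trans (le_max_left _ _) (le_max_left _ _)) hy
  have hyZ : (Z0 : ℝ) ≤ y := le_trans (le_trans (le_max_right _ _) (le_max_left _ _)) hy
  have hy3 : (1000 : ℝ) ≤ y := le_trans (le_max_right _ _) hy
  have hy0 : 0 < y := by linarith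
  have hyy : 1000 * y ≤ y ^ 2 := by nlinarith
  obtain ⟨s0, z0, a1, a2, a3, a4, a5⟩ := start_y (show (100 : ℝ) ≤ y by linarith)
  have hz0R : (1000000 : ℝ) ≤ z0 := by nlinarith
  have hz0 : 1000000 ≤ z0 := by exact_mod_cast hz0R
  have hzy : (z0 : ℝ) ≤ 101 / 100 * y ^ 2 := by linarith
  have hn1 : 10000 * (z0 : ℝ) ^ 4 ≤ n := by
    have h1 : (z0 : ℝ) ^ 4 ≤ (101 / 100 * y ^ 2) ^ 4 :=
      pow_le_pow_left₀ (by linarith) hzy 4
    have h2 : (101 / 100 * y ^ 2) ^ 4 = (101 / 100) ^ 4 * y ^ 8 := by ring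
    have h3 : 0 < y ^ 8 := by positivity
    rw [h2] at h1
    nlinarith
  obtain ⟨nb, q, s, t, h7, h8, b1, b2, b3, b4, b5, b6⟩ := par_of_z hz0 hn1
  have ht0 : 0 < t := by linarith
  have hs0 : 0 < (s0 : ℝ) := by nlinarith
  have hx0 : 0 < (s0 : ℝ) / y := by positivity
  have hR1 : Rx y 1 ((s0 : ℝ) / y) := Rx.step s0 Rx.start a1
  obtain ⟨τ, t1, t2, hU⟩ := chain_of_subsetY hR1 hx0 ht0 hz0 a2 a3 b1 b2 h7 h8 b3
  have htT : T1 ≤ t := by nlinarith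
  obtain ⟨e1, e2, e3⟩ := hT1 t z0 htT b6
  obtain ⟨ε, hε⟩ : ∃ ε : ℝ, ε = Real.exp (-((z0 : ℝ) ^ (1 / 19 : ℝ) / 3)) := ⟨_, rfl⟩
  rw [← hε] at e1 e2 e3
  have hε0 : 0 < ε := by rw [hε]; exact Real.exp_pos _
  have hz0Z : Z0 ≤ z0 := by
    have h1 : (Z0 : ℝ) ≤ z0 := by nlinarith
    exact_mod_cast h1
  have hzp : (0 : ℝ) < z0 := by linarith
  have f1 : 1 / 50 / (z0 : ℝ) + 1 / 200 / (z0 : ℝ) = 1 / 40 / (z0 : ℝ) := by
    rw [← add_div]; norm_num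
  have f2 : 0 < 1 / 200 / (z0 : ℝ) := by positivity
  have f3 : 1 / 200 / (z0 : ℝ) ≤ 1 / 1000 := by
    rw [div_div, div_le_div_iff₀ (by positivity) (by norm_num)]
    nlinarith
  obtain ⟨U, hUs, hU1⟩ := hZ0 z0 hz0Z nb h7 h8 (τ - ε) (by linarith) (by linarith)
  rw [← hε, abs_lt] at hU1
  obtain ⟨k, x, hr, hx1, hx2⟩ := hU U hUs (2 * ε) (by linarith) (by linarith) (by linarith)
  have hst : 0 < √t := Real.sqrt_pos.2 ht0
  have hxp : 0 < x := by linarith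
  have g1 : Real.exp (2 * ε) ≤ 1 + 4 * ε := by
    have g2 : Real.exp (-(2 * ε)) ≥ 1 - 2 * ε := by linarith [Real.add_one_le_exp (-(2 * ε))]
    have g3 : Real.exp (2 * ε) * Real.exp (-(2 * ε)) = 1 := by
      rw [← Real.exp_add, add_neg_cancel, Real.exp_zero]
    have g4 : Real.exp (2 * ε) * (1 - 2 * ε) ≤ 1 :=
      (mul_le_mul_of_nonneg_left g2 (Real.exp_pos _).le).trans g3.le
    have g5 : 1 ≤ (1 + 4 * ε) * (1 - 2 * ε) := by nlinarith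
    have g6 : 0 < 1 - 2 * ε := by linarith
    exact le_of_mul_le_mul_right (g4.trans g5) g6
  have hx3 : x ≤ √t * (1 + 4 * ε) := hx2.trans (mul_le_mul_of_nonneg_left g1 hst.le)
  have hsq : √t ^ 2 = t := Real.sq_sqrt ht0.le
  have hxt : t ≤ x ^ 2 := by
    rw [← hsq]
    exact pow_le_pow_left₀ hst.le hx1 2
  have hn0 : (0 : ℝ) < n := by
    have : 0 < 1000000 * y ^ 8 := by positivity
    linarith
  have hsn : 0 < √(n : ℝ) := Real.sqrt_pos.2 hn0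
  have hnn : √(n : ℝ) ^ 2 = n := Real.sq_sqrt hn0.le
  have hst2 : (s : ℝ) ^ 2 = t * n := by
    rw [b4]
    field_simp
  have hss : (s : ℝ) = √t * √(n : ℝ) := by
    rw [← Real.sqrt_mul ht0.le, ← hst2, Real.sqrt_sq (Nat.cast_nonneg s)]
  refine ⟨k, s, x, s / x, hr, ?_, ?_, rfl, ?_, ?_⟩
  · have h1 : x ^ 2 ≤ (√t * (1 + 4 * ε)) ^ 2 := pow_le_pow_left₀ hxp.le hx3 2
    have h2 : (√t * (1 + 4 * ε)) ^ 2 = t * (1 + 4 * ε) ^ 2 := by rw [mul_pow, hsq]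
    have h3 : (1 + 4 * ε) ^ 2 ≤ 101 / 100 := by nlinarith
    have h4 : t * (1 + 4 * ε) ^ 2 ≤ t * (101 / 100) := mul_le_mul_of_nonneg_left h3 ht0.le
    rw [h2] at h1
    nlinarith
  · rw [hss]
    refine mul_le_mul_of_nonneg_right ?_ hsn.le
    refine Real.le_sqrt_of_sq_le ?_
    linarith
  · rw [div_pow, div_le_iff₀ (by positivity), hst2]
    nlinarith
  · rw [le_div_iff₀ hxp, hss]
    have h5 : Real.exp (-((16 * t) ^ (1 / 20 : ℝ))) ≤ Real.exp (-(y ^ (1 / 10 : ℝ))) := by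
      refine Real.exp_le_exp.2 (neg_le_neg ?_)
      have h6 : y ^ (1 / 10 : ℝ) = (y ^ 2) ^ (1 / 20 : ℝ) := by
        rw [← Real.rpow_natCast y 2, ← Real.rpow_mul hy0.le]
        norm_num
      rw [h6]
      refine Real.rpow_le_rpow (by positivity) ?_ (by norm_num)
      linarith
    obtain ⟨E, hE⟩ : ∃ E : ℝ, E = Real.exp (-(y ^ (1 / 10 : ℝ))) := ⟨_, rfl⟩
    rw [← hE] at h5 ⊢
    have h7 : 4 * ε < E := by linarith
    have hE1 : 0 < E := by linarith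
    have h8 : (1 - E) * (1 + 4 * ε) ≤ 1 := by nlinarith
    have h9 : (1 - E) * x ≤ √t := by
      rcases le_or_gt (1 - E) 0 with h10 | h10
      · have : (1 - E) * x ≤ 0 := mul_nonpos_of_nonpos_of_nonneg h10 hxp.le
        linarith
      · calc (1 - E) * x ≤ (1 - E) * (√t * (1 + 4 * ε)) := mul_le_mul_of_nonneg_left hx3 h10.le
          _ = √t * ((1 - E) * (1 + 4 * ε)) := by ring
          _ ≤ √t * 1 := mul_le_mul_of_nonneg_left h8 hst.le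
          _ = √t := mul_one _
    calc √(n : ℝ) * (1 - E) * x = ((1 - E) * x) * √(n : ℝ) := by ring
      _ ≤ √t * √(n : ℝ) := mul_le_mul_of_nonneg_right h9 hsn.le

end Pool.Agent.Lib.MP_6b2d39_agHg
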