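import Pool.Agent.Lib.MP_6b2d39_agHz.Defs

/-!
THEOREM HG, blocks of multiplicities: definitions.

The diagram after the first step is cut into pieces by lines through its apex; a step from a piece
`P` (an arbitrary finite set of cells) gives the rows `stP s P`.  The rows `r` of a diagram of slope
`x ^ 2` and side `N` (real) are compared with the ideal rows `x (N + 1 / 2) - x ^ 2 (b + 1 / 2)` by
the numbers `Phi` of the cells to the right of a column: the error is Lipschitz with a small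
constant, up to a bounded number of cells (`LB`).
-/

set_option autoImplicit false

namespace Pool.Agent.Lib.MP_6b2d39_agHg

open Pool.Agent.Lib.MP_6b2d39_agHl Pool.Agent.Lib.MP_6b2d39_agHz

/-- number of the cells of `P` of weight `c` (`x` has weight `1`, `y` has weight `s`) -/
def kP (s : ℕ) (P : Finset (ℕ × ℕ)) (c : ℕ) : ℕ := (P.filter fun p => p.1 + s * p.2 = c).card

/-- the rows after a step of length `s` from the set of cells `P` -/
def stP (s : ℕ) (P : Finset (ℕ × ℕ)) (b : ℕ) : ℕ :=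
  ((P.image fun p => p.1 + s * p.2).filter fun c => b < kP s P c).card

/-- the error `Phi - gg` is Lipschitz with the constant `β / x`, up to `B` -/
def LB (x β B N : ℝ) (n : ℕ) (r : ℕ → ℕ) : Prop :=
  ∀ c c' : ℕ, ((Phi n r c : ℝ) - gg x N c) - ((Phi n r c' : ℝ) - gg x N c') ≤
    β * |(c : ℝ) - c'| / x + B

/-- rows bounded above and below by lines of slope `x ^ 2` -/
structure Rw (x Au Al : ℝ) (n : ℕ) (r : ℕ → ℕ) : Prop where
  z : ∀ b, n ≤ b → r b = 0
  up : ∀ b, (r b : ℝ) ≤ max (x * Au - x ^ 2 * b) 0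
  lo : ∀ b, x * (Al + 1) - x ^ 2 - x ^ 2 * b ≤ (r b : ℝ)

/-- the distance of the two lines -/
noncomputable def Dm (x Au Al : ℝ) : ℝ := x * (Au - Al) + x ^ 2 - x

/-- chains of `k` steps from `y` -/
inductive Rx (y : ℝ) : ℕ → ℝ → Prop
  | start : Rx y 0 y
  | step {k : ℕ} {x : ℝ} (s : ℕ) : Rx y k x → x ^ 2 + 1 / 100 ≤ s → Rx y (k + 1) (s / x)

/-- the last rows: slope `f ^ 2`, `D = N + 1 / 2`, all rows vanish above `Au` -/
structure Fr (n : ℕ) (r : ℕ → ℕ) (f D Au Δ : ℝ) : Prop where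
  z : ∀ b, n ≤ b → r b = 0
  zero : ∀ b : ℕ, Au ≤ f * b → r b = 0
  lo : ∀ b : ℕ, f * D - f ^ 2 / 2 - Δ - f ^ 2 * b ≤ (r b : ℝ)
  hi : ∀ b : ℕ, f * (b + 1) ≤ Au → (r b : ℝ) ≤ f * D - f ^ 2 / 2 + Δ - f ^ 2 * b
  top : ∀ b : ℕ, (r b : ℝ) ≤ (max (D - f * b) 0) ^ 2 / 2 + Δ

/-- the line through the apex `(0, L / Q)`, at the height `b` -/
noncomputable def ln (L Q b : ℕ) : ℝ := (L : ℝ) - Q * b

/-- the cells of the rows `b < N` between two lines through the apex -/
def IsReg (P : Finset (ℕ × ℕ)) (N L Q : ℕ) (t0 t1 : ℝ) : Prop :=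
  ∀ a b : ℕ, (a, b) ∈ P ↔ b < N ∧ t0 * ln L Q b ≤ a ∧ (a : ℝ) < t1 * ln L Q b

open Classical in
/-- the cells of `D` to the left of the line of the parameter `t` -/
noncomputable def lft (D : Finset (ℕ × ℕ)) (L Q : ℕ) (t : ℝ) : Finset (ℕ × ℕ) :=
  D.filter fun p => (p.1 : ℝ) < t * ln L Q p.2

/-- the row `0` of the diagram after the first step, `q N - q (q - 1) / 2` -/
def LL (q N : ℕ) : ℕ := q * N - q * (q - 1) / 2

end Pool.Agent.Lib.MP_6b2d39_agHg
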