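import Pool.Agent.Lib.MP_6b2d39_agHy.Dem
import Pool.Agent.Lib.MP_6b2d39_agHz.Defs

set_option autoImplicit false

namespace Pool.Agent.Lib.MP_6b2d39_agHg

open Pool.Agent.Lib.MP_6b2d39_agHl Pool.Agent.Lib.MP_6b2d39_agHz

/-- HG39. as `vd_rows` (`Hy/Dem.lean`): `r b = 0` for `b > T` and for `b ≥ N`; the demand vanishes for
`b > m` (`demand_high`, `demand_sum`) -/
theorem v_rows {n m N T : ℕ} {μ : Fin n → ℕ} {r : ℕ → ℕ} (hμ : ∀ i, μ i = m ∨ μ i = m + 1)
    (hT : T = m ∨ T = m + 1) (hN : ∀ b, N ≤ b → r b = 0) (h0 : ∀ b, T < b → r b = 0) :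
    (CC r N : ℝ) - ((∑ i, (μ i + 1).choose 2 : ℕ) : ℝ) = ∑ b ∈ Finset.range (T + 1), (r b : ℝ) -
      ∑ b ∈ Finset.range (T + 1), ((∑ i, (μ i - b) : ℕ) : ℝ) := by
  have hsub : Finset.range (T + 1) ⊆ Finset.range (N + T + 2) :=
    Finset.range_subset_range.2 (by omega)
  have hsub' : Finset.range N ⊆ Finset.range (N + T + 2) :=
    Finset.range_subset_range.2 (by omega)
  have h1 : ∑ b ∈ Finset.range (T + 1), r b = ∑ b ∈ Finset.range (N + T + 2), r b :=
    Finset.sum_subset hsub fun b _ hb => h0 b (by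
      rw [Finset.mem_range] at hb
      omega)
  have h1' : CC r N = ∑ b ∈ Finset.range (N + T + 2), r b :=
    Finset.sum_subset hsub' fun b _ hb => hN b (by
      rw [Finset.mem_range] at hb
      omega)
  have h2 : ∑ b ∈ Finset.range (T + 1), ∑ i, (μ i - b) =
      ∑ b ∈ Finset.range (N + T + 2), ∑ i, (μ i - b) :=
    Finset.sum_subset hsub fun b _ hb => demand_high hμ (by
      rw [Finset.mem_range] at hb
      omega)
  rw [← Nat.cast_sum, ← Nat.cast_sum, h1, h2, demand_sum (N := N + T + 2) hμ (by omega), h1']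

end Pool.Agent.Lib.MP_6b2d39_agHg
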