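import Pool.Agent.Lib.MP_6b2d39_agHg.RowsNear
import Pool.Agent.Lib.MP_6b2d39_agHg.Defs

set_option autoImplicit false

namespace Pool.Agent.Lib.MP_6b2d39_agHg

open Pool.Agent.Lib.MP_6b2d39_agHz

/-- HG14. The rows after the cut. `Phi n r c = ∑ (r b - c)` (natural subtraction) is the sum of
`max (r b - c) 0`; `rows_near` with `P = y ^ 2`, `I = y (N + 1 / 2) - y ^ 2 / 2`; `ideal_sum` with
`T = y (N + 1 / 2) - c` (`gg y N c = (max T 0) ^ 2 / (2 y ^ 2)`; `T - P (n + 1 / 2) ≤ 3` from `hlo` at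
`b = n`, `r n = 0`). Total error `3 |c - c'| / y ^ 2 + 18 / y ^ 2 + 3 + X + y ^ 2 / 8 + 3`
(`3 / y ^ 2 ≤ (4 / y) / y`). -/
theorem lp_start {n : ℕ} {r : ℕ → ℕ} {y N X : ℝ} (hy : 5 ≤ y) (hX : 0 ≤ X)
    (hn : ∀ b, n ≤ b → r b = 0)
    (hlo : ∀ b : ℕ, y * (N + 1 / 2) - y ^ 2 * (b + 1 / 2) - 3 ≤ (r b : ℝ))
    (hup : ∀ b : ℕ, 1 ≤ b → (r b : ℝ) ≤ max (y * (N + 1 / 2) - y ^ 2 * (b + 1 / 2) + 3) 0)
    (hup0 : (r 0 : ℝ) ≤ max (y * (N + 1 / 2) - y ^ 2 / 2 + 3) 0 + X) :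
    LB y (4 / y) (y ^ 2 / 4 + X + 20) N n r := by
  have hy2 : 25 ≤ y ^ 2 := by nlinarith
  have hP : 6 ≤ y ^ 2 := by linarith
  have hP0 : 0 < y ^ 2 := by linarith
  have hnn : ∀ c : ℕ, y * (N + 1 / 2) - c - y ^ 2 * ((n : ℝ) + 1 / 2) ≤ 3 := by
    intro c
    have h1 := hlo n
    rw [hn n le_rfl, Nat.cast_zero] at h1
    have h2 : (0 : ℝ) ≤ c := Nat.cast_nonneg c
    linarith
  have hphi : ∀ c : ℕ, (Phi n r c : ℝ) = ∑ b ∈ Finset.range n, max ((r b : ℝ) - c) 0 := by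
    intro c
    rw [Phi, Nat.cast_sum]
    refine Finset.sum_congr rfl fun b _ => ?_
    rcases le_total c (r b) with h | h
    · have h' : (c : ℝ) ≤ r b := by exact_mod_cast h
      rw [Nat.cast_sub h, max_eq_left (by linarith)]
    · have h' : (r b : ℝ) ≤ c := by exact_mod_cast h
      rw [Nat.sub_eq_zero_of_le h, Nat.cast_zero, max_eq_right (by linarith)]
  have hid : ∀ c : ℕ, gg y N c - y ^ 2 / 8 - 3 ≤ ∑ b ∈ Finset.range n,
      max (y * (N + 1 / 2) - y ^ 2 / 2 - y ^ 2 * b - c) 0 ∧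
      ∑ b ∈ Finset.range n, max (y * (N + 1 / 2) - y ^ 2 / 2 - y ^ 2 * b - c) 0 ≤ gg y N c := by
    intro c
    have h1 := ideal_sum (T := y * (N + 1 / 2) - c) hP (hnn c)
    have h2 : ∑ b ∈ Finset.range n, max (y * (N + 1 / 2) - c - y ^ 2 * ((b : ℝ) + 1 / 2)) 0 =
        ∑ b ∈ Finset.range n, max (y * (N + 1 / 2) - y ^ 2 / 2 - y ^ 2 * b - c) 0 := by
      refine Finset.sum_congr rfl fun b _ => ?_
      congr 1
      ring
    rw [h2] at h1
    exact h1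
  have hrn : ∀ c c' : ℕ, c ≤ c' →
      |((Phi n r c : ℝ) - Phi n r c') - ((∑ b ∈ Finset.range n,
        max (y * (N + 1 / 2) - y ^ 2 / 2 - y ^ 2 * b - c) 0) - ∑ b ∈ Finset.range n,
        max (y * (N + 1 / 2) - y ^ 2 / 2 - y ^ 2 * b - c') 0)| ≤
      3 * (((c' : ℝ) - c + 6) / y ^ 2 + 1) + X := by
    intro c c' hcc
    have h1 := rows_near (n := n) (r := r) (P := y ^ 2) (I := y * (N + 1 / 2) - y ^ 2 / 2)
      (X := X) (c1 := c) (c2 := c') hP hX (Nat.cast_nonneg c) (by exact_mod_cast hcc)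
      (fun b => by
        have h := hlo b
        linarith)
      (fun b hb => by
        have h := hup b hb
        have e : y * (N + 1 / 2) - y ^ 2 * ((b : ℝ) + 1 / 2) + 3 =
            y * (N + 1 / 2) - y ^ 2 / 2 - y ^ 2 * b + 3 := by ring
        rw [e] at h
        exact h) hup0
    rw [Finset.sum_sub_distrib, Finset.sum_sub_distrib, ← hphi, ← hphi] at h1
    exact h1
  have hconst : ∀ δ : ℝ, 0 ≤ δ → 3 * ((δ + 6) / y ^ 2 + 1) + X + y ^ 2 / 8 + 3 ≤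
      4 / y * δ / y + (y ^ 2 / 4 + X + 20) := by
    intro δ hδ
    have hy0 : y ≠ 0 := by linarith
    have e1 : 4 / y * δ / y = 4 * (δ / y ^ 2) := by
      field_simp
    have e2 : (δ + 6) / y ^ 2 = δ / y ^ 2 + 6 / y ^ 2 := add_div _ _ _
    have h1 : 0 ≤ δ / y ^ 2 := div_nonneg hδ hP0.le
    have h2 : 6 / y ^ 2 ≤ 1 := by
      rw [div_le_one hP0]
      linarith
    rw [e1, e2]
    linarith
  intro c c'
  rcases le_total c c' with h | h
  · have hle : (c : ℝ) ≤ c' := by exact_mod_cast h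
    have h1 := (abs_le.1 (hrn c c' h)).2
    have h2 := hconst (c' - c) (by linarith)
    have h3 : |(c : ℝ) - c'| = c' - c := by
      rw [abs_sub_comm]
      exact abs_of_nonneg (by linarith)
    rw [h3]
    linarith [(hid c).2, (hid c').1]
  · have hle : (c' : ℝ) ≤ c := by exact_mod_cast h
    have h1 := (abs_le.1 (hrn c' c h)).1
    have h2 := hconst (c - c') (by linarith)
    have h3 : |(c : ℝ) - c'| = c - c' := abs_of_nonneg (by linarith)
    rw [h3]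
    linarith [(hid c).2, (hid c').1]

end Pool.Agent.Lib.MP_6b2d39_agHg
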