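import Pool.Agent.Lib.MP_6b2d39_agHg.Defs

set_option autoImplicit false

namespace Pool.Agent.Lib.MP_6b2d39_agHg

private theorem regb_cell {P : Finset (ℕ × ℕ)} {N L Q s : ℕ} {t0 t1 : ℝ}
    (hP : IsReg P N L Q t0 t1) (h0 : 0 ≤ t0) (ht : t0 < t1) (hL : L ≤ Q * N) {c j : ℕ}
    (h1 : t0 * L + (s - Q * t0) * j ≤ (c : ℝ)) (h2 : (c : ℝ) < t1 * L + (s - Q * t1) * j) :
    s * j ≤ c ∧ (c - s * j, j) ∈ P := by
  have hd : 0 < (L : ℝ) - Q * j := by
    by_contra h
    push Not at h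
    have h3 : (t1 - t0) * ((L : ℝ) - Q * j) ≤ 0 :=
      mul_nonpos_of_nonneg_of_nonpos (by linarith) h
    nlinarith
  have h4 : 0 ≤ t0 * ((L : ℝ) - Q * j) := mul_nonneg h0 hd.le
  have h5 : (s : ℝ) * j ≤ c := by nlinarith
  have hsj : s * j ≤ c := by exact_mod_cast h5
  have hj : j < N := by
    have h6 : (Q : ℝ) * j < L := by linarith
    have h7 : Q * j < L := by exact_mod_cast h6
    exact Nat.lt_of_mul_lt_mul_left (lt_of_lt_of_le h7 hL)
  refine ⟨hsj, (hP _ _).2 ⟨hj, ?_, ?_⟩⟩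
  · rw [Nat.cast_sub hsj, ln, Nat.cast_mul]
    nlinarith
  · rw [Nat.cast_sub hsj, ln, Nat.cast_mul]
    nlinarith

private theorem regb_count {P : Finset (ℕ × ℕ)} {N L Q s : ℕ} {t0 t1 : ℝ}
    (hP : IsReg P N L Q t0 t1) (h0 : 0 ≤ t0) (ht : t0 < t1) (hL : L ≤ Q * N)
    (hσ : 0 ≤ (s : ℝ) - Q * t0) (hw : 0 ≤ (s : ℝ) - Q * t1) {c b i : ℕ}
    (h1 : t0 * L + (s - Q * t0) * (i + b) ≤ (c : ℝ))
    (h2 : (c : ℝ) < t1 * L + (s - Q * t1) * i) :
    c ∈ ((P.image fun p => p.1 + s * p.2).filter fun c => b < kP s P c) := by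
  have key : ∀ j ∈ Finset.range (b + 1), s * (i + j) ≤ c ∧ (c - s * (i + j), i + j) ∈ P := by
    intro j hj
    rw [Finset.mem_range] at hj
    have hjb : (j : ℝ) ≤ b := by exact_mod_cast (by omega : j ≤ b)
    refine regb_cell hP h0 ht hL ?_ ?_
    · push_cast
      have h3 := mul_le_mul_of_nonneg_left hjb hσ
      nlinarith
    · push_cast
      have h3 : 0 ≤ ((s : ℝ) - Q * t1) * j := mul_nonneg hw (Nat.cast_nonneg j)
      nlinarith
  rw [Finset.mem_filter]
  constructor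
  · obtain ⟨h3, h4⟩ := key 0 (Finset.mem_range.2 (by omega))
    exact Finset.mem_image.2 ⟨_, h4, Nat.sub_add_cancel h3⟩
  · have h3 : ((Finset.range (b + 1)).image fun j => (c - s * (i + j), i + j)) ⊆
        P.filter fun p => p.1 + s * p.2 = c := by
      intro p hp
      obtain ⟨j, hj, rfl⟩ := Finset.mem_image.1 hp
      obtain ⟨h4, h5⟩ := key j hj
      exact Finset.mem_filter.2 ⟨h5, Nat.sub_add_cancel h4⟩
    have h4 := Finset.card_le_card h3
    rw [Finset.card_image_of_injective, Finset.card_range] at h4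
    · exact h4
    · intro j j' h5
      have h6 := congrArg Prod.snd h5
      have h7 : i + j = i + j' := h6
      omega

/-- HG10. Lower bound for the rows of a piece between two lines (notation of `reg_up`). The cells of
the row `i` have the weights `c` with `t0 L + σ i ≤ c < t1 L + w i` (and `0 < L - Q i`; rows with
`L - Q i ≤ 0` have `i ≥ L / Q` and these conditions are contradictory). Let `i0` be the largest `i` with
`t0 L + σ (i + b) + 1 ≤ t1 L + w i`, so `i0 > (κ L / Q - σ b - 1) / κ - 1` (if `κ L / Q - σ b < 1` the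
claim is trivial). Every integer `c` with `t0 L + σ b ≤ c < t1 L + w i0` has cells in `b + 1` rows: let
`i ≤ i0` be the least index with `c < t1 L + w i`; if `i = 0` take the rows `0, …, b`; otherwise
`c ≥ t1 L + w (i - 1) > t1 L + w i - 1 ≥ t0 L + σ (i + b)`, take the rows `i, …, i + b`. The number of
integers in the interval is at least its length minus `1`. `Q N ≥ L` gives `i + b < N`. -/
theorem reg_lo {P : Finset (ℕ × ℕ)} {N L Q s : ℕ} {t0 t1 : ℝ} (hP : IsReg P N L Q t0 t1)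
    (h0 : 0 ≤ t0) (hκ : 1 ≤ Q * (t1 - t0)) (hs : Q * t1 ≤ s) (hs' : (s : ℝ) < Q * t1 + 1)
    (hL : L ≤ Q * N) (b : ℕ) :
    (s - Q * t0) * (L / Q) - 3 - (s - Q * t0) ^ 2 / (Q * (t1 - t0)) * b ≤ (stP s P b : ℝ) := by
  have hQ : 0 < Q := by
    rcases Nat.eq_zero_or_pos Q with h | h
    · rw [h] at hκ
      norm_num at hκ
    · exact h
  have hQ' : (0 : ℝ) < Q := by exact_mod_cast hQ
  have ht : t0 < t1 := by
    by_contra h
    push Not at h
    have h1 : (Q : ℝ) * (t1 - t0) ≤ 0 := mul_nonpos_of_nonneg_of_nonpos hQ'.le (by linarith)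
    linarith
  obtain ⟨κ, hκ'⟩ : ∃ κ : ℝ, κ = Q * (t1 - t0) := ⟨_, rfl⟩
  obtain ⟨σ, hσ⟩ : ∃ σ : ℝ, σ = s - Q * t0 := ⟨_, rfl⟩
  obtain ⟨w, hw⟩ : ∃ w : ℝ, w = s - Q * t1 := ⟨_, rfl⟩
  have hw0 : 0 ≤ w := by rw [hw]; linarith
  have hw1 : w < 1 := by rw [hw]; linarith
  have hσw : σ = κ + w := by rw [hσ, hw, hκ']; ring
  have hσ0 : 0 ≤ σ := by
    rw [← hκ'] at hκ
    linarith
  rw [← hκ'] at hκ ⊢
  rw [← hσ]
  have hκ0 : 0 < κ := by linarith
  obtain ⟨X, hX⟩ : ∃ X : ℝ, X = κ * (L / Q) - σ * b := ⟨_, rfl⟩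
  have e1 : (t1 - t0) * L = κ * (L / Q) := by
    rw [hκ']
    field_simp
  have e2 : σ * (L / Q) - σ ^ 2 / κ * b = X + w / κ * X := by
    rw [hX, hσw]
    field_simp
  have hwκ : w / κ ≤ 1 := by
    rw [div_le_one hκ0]
    linarith
  have hwκ0 : 0 ≤ w / κ := div_nonneg hw0 hκ0.le
  rcases lt_or_ge X 1 with hX1 | hX1
  · have h1 : X + w / κ * X ≤ 2 := by
      have h2 : (1 + w / κ) * X ≤ (1 + w / κ) * 1 :=
        mul_le_mul_of_nonneg_left hX1.le (by linarith)
      linarith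
    have h3 : (0 : ℝ) ≤ (stP s P b : ℝ) := Nat.cast_nonneg _
    linarith
  · obtain ⟨i0, hi0⟩ : ∃ i0 : ℕ, i0 = ⌊(X - 1) / κ⌋₊ := ⟨_, rfl⟩
    have hi1 : (i0 : ℝ) ≤ (X - 1) / κ := by
      rw [hi0]
      exact Nat.floor_le (div_nonneg (by linarith) hκ0.le)
    have hi2 : (X - 1) / κ < i0 + 1 := by
      rw [hi0]
      exact Nat.lt_floor_add_one _
    obtain ⟨A, hA⟩ : ∃ A : ℝ, A = t0 * L + σ * b := ⟨_, rfl⟩
    obtain ⟨B, hB⟩ : ∃ B : ℝ, B = t1 * L + w * i0 := ⟨_, rfl⟩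
    have hA0 : 0 ≤ A := by
      rw [hA]
      exact add_nonneg (mul_nonneg h0 (Nat.cast_nonneg _)) (mul_nonneg hσ0 (Nat.cast_nonneg _))
    have hsub : Finset.Ico ⌈A⌉₊ ⌈B⌉₊ ⊆
        ((P.image fun p => p.1 + s * p.2).filter fun c => b < kP s P c) := by
      intro c hc
      rw [Finset.mem_Ico] at hc
      have hc1 : A ≤ (c : ℝ) := Nat.ceil_le.1 hc.1
      have hc2 : (c : ℝ) < B := Nat.lt_ceil.1 hc.2
      have hex : ∃ i : ℕ, (c : ℝ) < t1 * L + w * i := ⟨i0, by rw [← hB]; exact hc2⟩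
      classical
      obtain ⟨i, hi⟩ : ∃ i, i = Nat.find hex := ⟨_, rfl⟩
      have hi3 : (c : ℝ) < t1 * L + w * i := by
        rw [hi]
        exact Nat.find_spec hex
      have hi4 : i ≤ i0 := by
        rw [hi]
        exact Nat.find_min' hex (by rw [← hB]; exact hc2)
      refine regb_count hP h0 ht hL (by rw [← hσ]; exact hσ0) (by rw [← hw]; exact hw0)
        (i := i) ?_ (by rw [← hw]; exact hi3)
      rw [← hσ]
      rcases Nat.eq_zero_or_pos i with h | h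
      · rw [h]
        rw [hA] at hc1
        push_cast
        linarith
      · have h5 : ¬ (c : ℝ) < t1 * L + w * ((i - 1 : ℕ) : ℝ) := by
          refine Nat.find_min hex ?_
          omega
        push Not at h5
        have h6 : ((i - 1 : ℕ) : ℝ) = (i : ℝ) - 1 := by
          rw [Nat.cast_sub h, Nat.cast_one]
        rw [h6] at h5
        have h7 : (i : ℝ) ≤ (X - 1) / κ := le_trans (by exact_mod_cast hi4) hi1
        rw [le_div_iff₀ hκ0] at h7
        have h8 : κ * (i : ℝ) + σ * b ≤ (t1 - t0) * L - 1 := by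
          rw [e1]
          linarith
        have h9 : σ * (i : ℝ) = κ * i + w * i := by
          rw [hσw]
          ring
        nlinarith
    have hcard := Finset.card_le_card hsub
    rw [Nat.card_Ico] at hcard
    have h10 : ⌈B⌉₊ ≤ stP s P b + ⌈A⌉₊ := by
      have h11 : stP s P b =
        ((P.image fun p => p.1 + s * p.2).filter fun c => b < kP s P c).card := rfl
      omega
    have h12 : (⌈B⌉₊ : ℝ) ≤ (stP s P b : ℝ) + (⌈A⌉₊ : ℝ) := by exact_mod_cast h10
    have h13 : B ≤ (⌈B⌉₊ : ℝ) := Nat.le_ceil B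
    have h14 : (⌈A⌉₊ : ℝ) < A + 1 := Nat.ceil_lt_add_one hA0
    have h15 : B - A = X + w * i0 := by
      rw [hB, hA, hX, ← e1]
      ring
    have h16 : w / κ * X - 2 ≤ w * i0 := by
      have h17 : w * ((X - 1) / κ - 1) ≤ w * i0 := mul_le_mul_of_nonneg_left (by linarith) hw0
      have h18 : w * ((X - 1) / κ - 1) = w / κ * X - w / κ - w := by
        field_simp
      linarith
    linarith

end Pool.Agent.Lib.MP_6b2d39_agHg
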