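import Pool.Agent.Lib.MP_6b2d39_agHg.Defs
import Pool.Agent.Lib.MP_6b2d39_agHl.Count

set_option autoImplicit false

namespace Pool.Agent.Lib.MP_6b2d39_agHg

open Pool.Agent.Lib.MP_6b2d39_agHl

/-- HG2. (the cells of weight `c` have different second coordinates) -/
theorem kP_le {s n : ℕ} {P : Finset (ℕ × ℕ)} (hP : ∀ p ∈ P, p.2 < n) (c : ℕ) : kP s P c ≤ n := by
  unfold kP
  have h1 : (P.filter fun p => p.1 + s * p.2 = c).card ≤ (Finset.range n).card := by
    refine Finset.card_le_card_of_injOn (fun p => p.2) ?_ ?_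
    · intro p hp
      rw [Finset.mem_coe, Finset.mem_filter] at hp
      exact Finset.mem_coe.2 (Finset.mem_range.2 (hP p hp.1))
    · intro p hp q hq hpq
      rw [Finset.mem_coe, Finset.mem_filter] at hp hq
      have h2 : p.2 = q.2 := hpq
      have h3 := hp.2
      have h4 := hq.2
      rw [h2] at h3
      exact Prod.ext (by omega) h2
  rwa [Finset.card_range] at h1

theorem stP_zero {s n : ℕ} {P : Finset (ℕ × ℕ)} (hP : ∀ p ∈ P, p.2 < n) {b : ℕ} (hb : n ≤ b) :
    stP s P b = 0 := by
  unfold stP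
  rw [Finset.card_eq_zero, Finset.filter_eq_empty_iff]
  intro c _ h
  have := kP_le (s := s) hP c
  omega

/-- double counting: both sides are `∑ c, kP s P c` over the weights of the cells -/
theorem stP_sum {s n : ℕ} {P : Finset (ℕ × ℕ)} (hP : ∀ p ∈ P, p.2 < n) :
    ∑ b ∈ Finset.range n, stP s P b = P.card := by
  have h1 : ∀ b, stP s P b =
      ∑ c ∈ P.image (fun p => p.1 + s * p.2), if b < kP s P c then 1 else 0 := by
    intro b
    unfold stP
    rw [Finset.card_filter]
  have h3 : ∀ c, (∑ b ∈ Finset.range n, if b < kP s P c then 1 else 0) = kP s P c := by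
    intro c
    rw [← Finset.card_filter]
    have h4 : (Finset.range n).filter (fun b => b < kP s P c) = Finset.range (kP s P c) := by
      ext b
      rw [Finset.mem_filter, Finset.mem_range, Finset.mem_range]
      have := kP_le (s := s) hP c
      omega
    rw [h4, Finset.card_range]
  rw [Finset.sum_congr rfl fun b _ => h1 b, Finset.sum_comm, Finset.sum_congr rfl fun c _ => h3 c]
  unfold kP
  exact (Finset.card_eq_sum_card_image (fun p : ℕ × ℕ => p.1 + s * p.2) P).symm

/-- adding a set `Z` of cells of one row, of weights different from all the weights of `P`, changes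
the row `0` only -/
theorem stP_union {s B : ℕ} {P Z : Finset (ℕ × ℕ)} (hZ : ∀ z ∈ Z, z.2 = B)
    (hd : ∀ p ∈ P, ∀ z ∈ Z, p.1 + s * p.2 ≠ z.1 + s * z.2) (b : ℕ) :
    stP s (P ∪ Z) b = stP s P b + if b = 0 then Z.card else 0 := by
  have hk : ∀ c, kP s (P ∪ Z) c = kP s P c + kP s Z c := by
    intro c
    unfold kP
    rw [Finset.filter_union, Finset.card_union_of_disjoint]
    rw [Finset.disjoint_left]
    intro p hp hp'
    rw [Finset.mem_filter] at hp hp'
    exact hd p hp.1 p hp'.1 rfl
  have hinj : Set.InjOn (fun p : ℕ × ℕ => p.1 + s * p.2) Z := by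
    intro p hp q hq hpq
    have h1 := hZ p (Finset.mem_coe.1 hp)
    have h2 := hZ q (Finset.mem_coe.1 hq)
    have h3 : p.1 + s * p.2 = q.1 + s * q.2 := hpq
    rw [h1, h2] at h3
    exact Prod.ext (by omega) (h1.trans h2.symm)
  have hP0 : ∀ c ∈ Z.image (fun p : ℕ × ℕ => p.1 + s * p.2), kP s P c = 0 := by
    intro c hc
    rw [Finset.mem_image] at hc
    obtain ⟨z, hz, rfl⟩ := hc
    unfold kP
    rw [Finset.card_eq_zero, Finset.filter_eq_empty_iff]
    intro p hp h
    exact hd p hp z hz h
  have hZ0 : ∀ c ∈ P.image (fun p : ℕ × ℕ => p.1 + s * p.2), kP s Z c = 0 := by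
    intro c hc
    rw [Finset.mem_image] at hc
    obtain ⟨p, hp, rfl⟩ := hc
    unfold kP
    rw [Finset.card_eq_zero, Finset.filter_eq_empty_iff]
    intro z hz h
    exact hd p hp z hz h.symm
  have hZ1 : ∀ c ∈ Z.image (fun p : ℕ × ℕ => p.1 + s * p.2), kP s Z c = 1 := by
    intro c hc
    rw [Finset.mem_image] at hc
    obtain ⟨z, hz, rfl⟩ := hc
    unfold kP
    rw [Finset.card_eq_one]
    refine ⟨z, ?_⟩
    ext q
    rw [Finset.mem_filter, Finset.mem_singleton]
    constructor
    · rintro ⟨hq, h⟩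
      exact hinj (Finset.mem_coe.2 hq) (Finset.mem_coe.2 hz) h
    · rintro rfl
      exact ⟨hz, rfl⟩
  unfold stP
  rw [Finset.image_union, Finset.filter_union, Finset.card_union_of_disjoint]
  · have e1 : (P.image fun p : ℕ × ℕ => p.1 + s * p.2).filter (fun c => b < kP s (P ∪ Z) c) =
        (P.image fun p : ℕ × ℕ => p.1 + s * p.2).filter (fun c => b < kP s P c) := by
      refine Finset.filter_congr fun c hc => ?_
      rw [hk, hZ0 c hc, add_zero]
    have e2 : (Z.image fun p : ℕ × ℕ => p.1 + s * p.2).filter (fun c => b < kP s (P ∪ Z) c) =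
        if b = 0 then Z.image (fun p : ℕ × ℕ => p.1 + s * p.2) else ∅ := by
      split_ifs with h0
      · refine Finset.filter_true_of_mem fun c hc => ?_
        rw [hk, hP0 c hc, hZ1 c hc, h0]
        omega
      · rw [Finset.filter_eq_empty_iff]
        intro c hc h
        rw [hk, hP0 c hc, hZ1 c hc] at h
        omega
    rw [e1, e2]
    congr 1
    split_ifs with h0
    · exact Finset.card_image_of_injOn hinj
    · exact Finset.card_empty
  · rw [Finset.disjoint_left]
    intro c hc hc'
    rw [Finset.mem_filter, Finset.mem_image] at hc hc'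
    obtain ⟨⟨p, hp, h1⟩, _⟩ := hc
    obtain ⟨⟨z, hz, h2⟩, _⟩ := hc'
    exact hd p hp z hz (h1.trans h2.symm)

end Pool.Agent.Lib.MP_6b2d39_agHg
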