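import Pool.Agent.Lib.MP_6b2d39_agHg.RegA
import Pool.Agent.Lib.MP_6b2d39_agHg.RegB
import Pool.Agent.Lib.MP_6b2d39_agHg.SumP
import Pool.Agent.Lib.MP_6b2d39_agHg.LpStart

set_option autoImplicit false

namespace Pool.Agent.Lib.MP_6b2d39_agHg

open Pool.Agent.Lib.MP_6b2d39_agHz

/-- HG15. The rows of a piece after the cut step. `P` regular, `Z` a few cells of the row `B` of
weights different from the weights of `P`. With `κ = Q (t1 - t0)`, `σ = s - Q t0 ∈ [κ, κ + 1)`,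
`y = σ / √κ`, `h = √κ L / Q`: the rows of `P` are between `y h - y ^ 2 b - 3` and
`y h - y ^ 2 b + 2` (`reg_up`, `reg_lo`; `σ L / Q = y h`, `σ ^ 2 / κ = y ^ 2`), the row `0` has `Z.card`
cells more (`stP_union`); `stP_zero`; `lp_start` with `N = h + y / 2 - 1 / 2`. -/
theorem piece_st {P Z : Finset (ℕ × ℕ)} {n L Q s B : ℕ} {t0 t1 y h : ℝ}
    (hP : IsReg P n L Q t0 t1) (h0 : 0 ≤ t0) (hκ : 25 ≤ Q * (t1 - t0)) (hs : Q * t1 ≤ s)
    (hs' : (s : ℝ) < Q * t1 + 1) (hL : L ≤ Q * n) (hB : B < n) (hZ : ∀ z ∈ Z, z.2 = B)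
    (hd : ∀ p ∈ P, ∀ z ∈ Z, p.1 + s * p.2 ≠ z.1 + s * z.2)
    (hy : y = (s - Q * t0) / √(Q * (t1 - t0))) (hh : h = √(Q * (t1 - t0)) * (L / Q)) :
    Rw y (h + (3 + Z.card) / y) (h + y - 2) n (stP s (P ∪ Z)) ∧
      LB y (4 / y) (y ^ 2 / 4 + Z.card + 20) (h + y / 2 - 1 / 2) n (stP s (P ∪ Z)) := by
  have hκ0 : 0 < (Q : ℝ) * (t1 - t0) := by linarith
  have hσ1 : (Q : ℝ) * (t1 - t0) ≤ s - Q * t0 := by nlinarith
  have hq5 : 5 ≤ √((Q : ℝ) * (t1 - t0)) := by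
    exact Real.le_sqrt_of_sq_le (by linarith)
  have hq0 : 0 < √((Q : ℝ) * (t1 - t0)) := by linarith
  have hqq : √((Q : ℝ) * (t1 - t0)) * √((Q : ℝ) * (t1 - t0)) = Q * (t1 - t0) :=
    Real.mul_self_sqrt hκ0.le
  have hy5 : 5 ≤ y := by
    rw [hy, le_div_iff₀ hq0]
    nlinarith
  have hy0 : 0 < y := by linarith
  have hyh : y * h = (s - Q * t0) * (L / Q) := by
    rw [hy, hh]
    field_simp
  have hyy : y ^ 2 = (s - Q * t0) ^ 2 / (Q * (t1 - t0)) := by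
    rw [hy, div_pow, Real.sq_sqrt hκ0.le]
  have hyh0 : 0 ≤ y * h := by
    rw [hyh]
    have h1 : (0 : ℝ) ≤ (L : ℝ) / Q := by positivity
    have h2 : (0 : ℝ) ≤ s - Q * t0 := by linarith
    positivity
  have hup : ∀ b : ℕ, (stP s P b : ℝ) ≤ max (y * h + 2 - y ^ 2 * b) 0 := by
    intro b
    rw [hyh, hyy]
    exact reg_up hP h0 (by linarith) hs hs' b
  have hlo : ∀ b : ℕ, y * h - 3 - y ^ 2 * b ≤ (stP s P b : ℝ) := by
    intro b
    rw [hyh, hyy]
    exact reg_lo hP h0 (by linarith) hs hs' hL b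
  have hPn : ∀ p ∈ P ∪ Z, p.2 < n := by
    intro p hp
    rcases Finset.mem_union.1 hp with hp | hp
    · exact ((hP p.1 p.2).1 hp).1
    · rw [hZ p hp]
      exact hB
  have hz : ∀ b, n ≤ b → stP s (P ∪ Z) b = 0 := fun b hb => stP_zero hPn hb
  have hu : ∀ b, (stP s (P ∪ Z) b : ℝ) = stP s P b + if b = 0 then (Z.card : ℝ) else 0 := by
    intro b
    rw [stP_union hZ hd b]
    split_ifs <;> push_cast <;> ring
  have hc0 : (0 : ℝ) ≤ (Z.card : ℝ) := Nat.cast_nonneg _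
  have hlo' : ∀ b : ℕ, y * h - 3 - y ^ 2 * b ≤ (stP s (P ∪ Z) b : ℝ) := by
    intro b
    rw [hu b]
    have h1 := hlo b
    split_ifs <;> linarith
  have hup1 : ∀ b : ℕ, 1 ≤ b → (stP s (P ∪ Z) b : ℝ) ≤ max (y * h + 2 - y ^ 2 * b) 0 := by
    intro b hb
    rw [hu b, if_neg (by omega), add_zero]
    exact hup b
  have hup0 : (stP s (P ∪ Z) 0 : ℝ) ≤ y * h + 2 + Z.card := by
    rw [hu 0, if_pos rfl]
    have h1 := hup 0
    rw [Nat.cast_zero, mul_zero, sub_zero, max_eq_left (by linarith)] at h1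
    linarith
  refine ⟨⟨hz, ?_, ?_⟩, ?_⟩
  · intro b
    have e1 : y * (h + (3 + Z.card) / y) = y * h + 3 + Z.card := by
      field_simp
      ring
    rw [e1]
    rcases Nat.eq_zero_or_pos b with rfl | hb
    · rw [Nat.cast_zero, mul_zero, sub_zero]
      exact le_max_of_le_left (by linarith)
    · exact (hup1 b hb).trans (max_le_max (by linarith) le_rfl)
  · intro b
    have h1 := hlo' b
    nlinarith
  · refine lp_start hy5 hc0 hz ?_ ?_ ?_
    · intro b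
      have h1 := hlo' b
      nlinarith
    · intro b hb
      refine (hup1 b hb).trans (max_le_max ?_ le_rfl)
      nlinarith
    · refine hup0.trans ?_
      have h1 : y * h + 2 ≤ max (y * (h + y / 2 - 1 / 2 + 1 / 2) - y ^ 2 / 2 + 3) 0 :=
        le_max_of_le_left (by nlinarith)
      linarith

end Pool.Agent.Lib.MP_6b2d39_agHg
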