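import Pool.Agent.Lib.MP_6b2d39_agHg.Defs

set_option autoImplicit false

namespace Pool.Agent.Lib.MP_6b2d39_agHg

/-- HG42. (for `ln L Q b ≤ 0` nothing is to the left) -/
theorem lft_mono {D : Finset (ℕ × ℕ)} {L Q : ℕ} {t t' : ℝ} (h0 : 0 ≤ t) (h : t ≤ t') :
    lft D L Q t ⊆ lft D L Q t' := by
  intro p hp
  unfold lft at hp ⊢
  rw [Finset.mem_filter] at hp ⊢
  refine ⟨hp.1, ?_⟩
  have ha : (0 : ℝ) ≤ p.1 := Nat.cast_nonneg _
  have h1 : (p.1 : ℝ) < t * ln L Q p.2 := hp.2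
  rcases le_or_gt 0 (ln L Q p.2) with h2 | h2
  · exact h1.trans_le (mul_le_mul_of_nonneg_right h h2)
  · have h3 : t * ln L Q p.2 ≤ 0 := mul_nonpos_of_nonneg_of_nonpos h0 h2.le
    linarith

theorem lft_zero {D : Finset (ℕ × ℕ)} {L Q : ℕ} : lft D L Q 0 = ∅ := by
  unfold lft
  rw [Finset.filter_eq_empty_iff]
  intro p _ h
  have ha : (0 : ℝ) ≤ p.1 := Nat.cast_nonneg _
  have h1 : (p.1 : ℝ) < 0 * ln L Q p.2 := h
  rw [zero_mul] at h1
  linarith

private theorem cut_step {D : Finset (ℕ × ℕ)} {L Q R K : ℕ} (hR : L ≤ Q * R) (hK : L ≤ K)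
    (hK1 : 1 ≤ K) (j : ℕ) :
    (lft D L Q (((j + 1 : ℕ) : ℝ) / K)).card ≤ (lft D L Q ((j : ℝ) / K)).card + R := by
  classical
  have hK0 : (0 : ℝ) < K := by exact_mod_cast hK1
  obtain ⟨S, hS⟩ : ∃ S, S = lft D L Q (((j + 1 : ℕ) : ℝ) / K) \ lft D L Q ((j : ℝ) / K) := ⟨_, rfl⟩
  have hmem : ∀ p ∈ S, (p.1 : ℝ) < ((j : ℝ) + 1) / K * ln L Q p.2 ∧
      (j : ℝ) / K * ln L Q p.2 ≤ p.1 := by
    intro p hp
    rw [hS, Finset.mem_sdiff] at hp
    unfold lft at hp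
    rw [Finset.mem_filter, Finset.mem_filter] at hp
    obtain ⟨⟨h1, h2⟩, h3⟩ := hp
    refine ⟨?_, ?_⟩
    · push_cast at h2
      exact h2
    · by_contra hcon
      exact h3 ⟨h1, not_le.1 hcon⟩
  have hpos : ∀ p ∈ S, 0 < ln L Q p.2 := by
    intro p hp
    obtain ⟨h1, _⟩ := hmem p hp
    by_contra hcon
    have h3 : ((j : ℝ) + 1) / K * ln L Q p.2 ≤ 0 :=
      mul_nonpos_of_nonneg_of_nonpos (by positivity) (not_lt.1 hcon)
    have ha : (0 : ℝ) ≤ p.1 := Nat.cast_nonneg _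
    linarith
  have hrow : ∀ p ∈ S, p.2 ∈ Finset.range R := by
    intro p hp
    rw [Finset.mem_range]
    by_contra hcon
    have h1 := hpos p hp
    unfold ln at h1
    have h2 : Q * R ≤ Q * p.2 := Nat.mul_le_mul_left Q (not_lt.1 hcon)
    have h3 : (L : ℝ) ≤ (Q : ℝ) * p.2 := by exact_mod_cast hR.trans h2
    linarith
  have hinj : Set.InjOn (fun p : ℕ × ℕ => p.2) (S : Set (ℕ × ℕ)) := by
    intro p hp p' hp' hpp
    have hpp' : p.2 = p'.2 := hpp
    obtain ⟨h1, h2⟩ := hmem p hp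
    obtain ⟨h3, h4⟩ := hmem p' hp'
    rw [← hpp'] at h3 h4
    have h5 : ((j : ℝ) + 1) / K * ln L Q p.2 - (j : ℝ) / K * ln L Q p.2 ≤ 1 := by
      have h6 : ((j : ℝ) + 1) / K * ln L Q p.2 - (j : ℝ) / K * ln L Q p.2 =
          ln L Q p.2 / K := by
        field_simp
        ring
      rw [h6, div_le_one hK0]
      unfold ln
      have h7 : (L : ℝ) ≤ K := by exact_mod_cast hK
      have h8 : (0 : ℝ) ≤ (Q : ℝ) * p.2 := by positivity
      linarith
    have h6 : (p.1 : ℝ) < p'.1 + 1 := by linarith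
    have h7 : (p'.1 : ℝ) < p.1 + 1 := by linarith
    have h8 : p.1 < p'.1 + 1 := by exact_mod_cast h6
    have h9 : p'.1 < p.1 + 1 := by exact_mod_cast h7
    exact Prod.ext (by omega) hpp'
  have hcard : S.card ≤ R := by
    have h1 := Finset.card_le_card_of_injOn _ hrow hinj
    rwa [Finset.card_range] at h1
  have h1 : (lft D L Q (((j + 1 : ℕ) : ℝ) / K)).card ≤
      (lft D L Q ((j : ℝ) / K)).card + S.card := by
    rw [hS]
    have h2 : lft D L Q (((j + 1 : ℕ) : ℝ) / K) ⊆ lft D L Q ((j : ℝ) / K) ∪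
        (lft D L Q (((j + 1 : ℕ) : ℝ) / K) \ lft D L Q ((j : ℝ) / K)) := by
      intro p hp
      rw [Finset.mem_union, Finset.mem_sdiff]
      by_cases h3 : p ∈ lft D L Q ((j : ℝ) / K)
      · exact Or.inl h3
      · exact Or.inr ⟨hp, h3⟩
    exact (Finset.card_le_card h2).trans (Finset.card_union_le _ _)
  omega

/-- HG43. Thresholds `k / K`, `k = 0, …, K`, with `K ≥ L`, `K ≥ 1`: one more `k` adds at most one cell in
each of the rows `b < R` (`ln L Q b / K ≤ 1`; rows `b ≥ R` have `ln L Q b ≤ 0`). `τ Y = k / K` for the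
least `k` with `Y ≤ (lft D L Q (k / K)).card` (`τ Y = 1` if there is none). -/
theorem cut_ex {D : Finset (ℕ × ℕ)} {L Q R : ℕ} (hR : L ≤ Q * R) :
    ∃ τ : ℝ → ℝ, Monotone τ ∧ (∀ Y, Y ≤ 0 → τ Y = 0) ∧ (∀ Y, 0 ≤ τ Y ∧ τ Y ≤ 1) ∧
      ∀ Y : ℝ, 0 ≤ Y → Y ≤ (lft D L Q 1).card → Y ≤ (lft D L Q (τ Y)).card ∧
        ((lft D L Q (τ Y)).card : ℝ) ≤ Y + R := by
  classical
  obtain ⟨K, hK⟩ : ∃ K, K = L + 1 := ⟨_, rfl⟩
  have hK1 : 1 ≤ K := by omega
  have hK0 : (0 : ℝ) < K := by exact_mod_cast hK1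
  have hex : ∀ Y : ℝ, ∃ k : ℕ, Y ≤ ((lft D L Q ((k : ℝ) / K)).card : ℝ) ∨ K ≤ k :=
    fun Y => ⟨K, Or.inr le_rfl⟩
  have hle : ∀ Y, Nat.find (hex Y) ≤ K := fun Y => Nat.find_min' (hex Y) (Or.inr le_rfl)
  refine ⟨fun Y => (Nat.find (hex Y) : ℝ) / K, ?_, ?_, ?_, ?_⟩
  · intro Y Y' hYY
    show (Nat.find (hex Y) : ℝ) / K ≤ (Nat.find (hex Y') : ℝ) / K
    have h1 : Nat.find (hex Y) ≤ Nat.find (hex Y') := by
      refine Nat.find_min' (hex Y) ?_
      rcases Nat.find_spec (hex Y') with h2 | h2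
      · exact Or.inl (hYY.trans h2)
      · exact Or.inr h2
    exact div_le_div_of_nonneg_right (by exact_mod_cast h1) hK0.le
  · intro Y hY
    show (Nat.find (hex Y) : ℝ) / K = 0
    have h1 : Nat.find (hex Y) = 0 := by
      have h2 := Nat.find_min' (hex Y) (m := 0) (Or.inl (hY.trans (Nat.cast_nonneg _)))
      omega
    rw [h1, Nat.cast_zero, zero_div]
  · intro Y
    refine ⟨by positivity, ?_⟩
    show (Nat.find (hex Y) : ℝ) / K ≤ 1
    rw [div_le_one hK0]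
    exact_mod_cast hle Y
  · intro Y hY0 hY
    show Y ≤ ((lft D L Q ((Nat.find (hex Y) : ℝ) / K)).card : ℝ) ∧
      ((lft D L Q ((Nat.find (hex Y) : ℝ) / K)).card : ℝ) ≤ Y + R
    refine ⟨?_, ?_⟩
    · rcases Nat.find_spec (hex Y) with h2 | h2
      · exact h2
      · have h3 : Nat.find (hex Y) = K := le_antisymm (hle Y) h2
        rw [h3, div_self hK0.ne']
        exact hY
    · rcases Nat.eq_zero_or_pos (Nat.find (hex Y)) with h0 | h0
      · rw [h0, Nat.cast_zero, zero_div, lft_zero, Finset.card_empty, Nat.cast_zero]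
        positivity
      · obtain ⟨j, hj⟩ : ∃ j, Nat.find (hex Y) = j + 1 := ⟨Nat.find (hex Y) - 1, by omega⟩
        have h1 := Nat.find_min (hex Y) (m := j) (by omega)
        have h2 := cut_step (D := D) hR (by omega : L ≤ K) hK1 j
        rw [hj]
        have h3 : ((lft D L Q ((j : ℝ) / K)).card : ℝ) < Y := by
          by_contra hcon
          exact h1 (Or.inl (not_lt.1 hcon))
        have h4 : ((lft D L Q (((j + 1 : ℕ) : ℝ) / K)).card : ℝ) ≤
            ((lft D L Q ((j : ℝ) / K)).card : ℝ) + R := by exact_mod_cast h2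
        linarith

end Pool.Agent.Lib.MP_6b2d39_agHg
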