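import Pool.Agent.Lib.MP_6b2d39_agHg.QRows
import Pool.Agent.Lib.MP_6b2d39_agHg.CutEx
import Pool.Agent.Lib.MP_6b2d39_agNw.Defs

set_option autoImplicit false

namespace Pool.Agent.Lib.MP_6b2d39_agHg

open Pool.Agent.Lib.MP_6b2d39_agHl Pool.Agent.Lib.MP_6b2d39_agNw

/-- the diagram after the first step -/
def DQ (q N : ℕ) : Finset (ℕ × ℕ) := dgm (stp q N (tri N)) N

/-- a piece: the regular part `P` between the lines `t0`, `t1`, cut along `s`, and the added cells `Z` -/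
structure Pc (q N : ℕ) (P Z : Finset (ℕ × ℕ)) (s B : ℕ) (t0 t1 : ℝ) : Prop where
  p0 : 0 ≤ t0
  p1 : t1 ≤ 1
  reg : IsReg P N (LL q N) (q ^ 2) t0 t1
  s0 : (q : ℝ) ^ 2 * t1 ≤ s
  s1 : (s : ℝ) < (q : ℝ) ^ 2 * t1 + 1
  B0 : B < N
  z : ∀ z ∈ Z, z.2 = B
  ne : ∀ p ∈ P, ∀ z ∈ Z, p.1 + s * p.2 ≠ z.1 + s * z.2
  zc : 2 * Z.card ≤ q ^ 2
  up : ((P ∪ Z).card : ℝ) ≤ (t1 - t0) * ((N : ℝ) * (N + 1) / 2) + ((N : ℝ) / q + 2) +
    (q : ℝ) ^ 2 / 2

private theorem pd_ln {L Q b : ℕ} : ln L Q b = (((L : ℤ) - Q * b : ℤ) : ℝ) := by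
  unfold ln
  push_cast
  ring

/-- `q_rows` in real terms -/
private theorem pd_rows {q N : ℕ} (hq : 1 ≤ q) (hN : q ≤ N) : ∃ B X : ℕ, B < N ∧ 2 * X ≤ q ^ 2 ∧
    (∀ b < B, (stp q N (tri N) b : ℝ) = ln (LL q N) (q ^ 2) b) ∧
    (∀ b, B < b → stp q N (tri N) b = 0 ∧ ln (LL q N) (q ^ 2) b ≤ 0) ∧
    (stp q N (tri N) B : ℝ) = max (ln (LL q N) (q ^ 2) B) 0 + X := by
  obtain ⟨B, X, h1, h2, h3, h4, h5, _⟩ := q_rows hq hN
  refine ⟨B, X, h1, h2, fun b hb => ?_, fun b hb => ⟨(h4 b hb).1, ?_⟩, ?_⟩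
  · have h6 := (h3 b hb).1
    rw [pd_ln]
    have h7 : ((stp q N (tri N) b : ℤ) : ℝ) = (((LL q N : ℤ) - q ^ 2 * b : ℤ) : ℝ) := by rw [h6]
    push_cast at h7 ⊢
    exact h7
  · have h6 := (h4 b hb).2
    rw [pd_ln]
    have h7 : (((LL q N : ℤ) - q ^ 2 * b : ℤ) : ℝ) ≤ ((0 : ℤ) : ℝ) := by exact_mod_cast h6
    push_cast at h7 ⊢
    exact h7
  · rw [pd_ln]
    have h7 : ((stp q N (tri N) B : ℤ) : ℝ) =
        ((max ((LL q N : ℤ) - q ^ 2 * B) 0 + X : ℤ) : ℝ) := by rw [h5]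
    push_cast at h7 ⊢
    exact h7

private theorem pd_le {q N : ℕ} (hq : 1 ≤ q) (hN : q ≤ N) (b : ℕ) :
    ln (LL q N) (q ^ 2) b ≤ (stp q N (tri N) b : ℝ) := by
  obtain ⟨B, X, _, _, h3, h4, h5⟩ := pd_rows hq hN
  rcases lt_trichotomy b B with hb | hb | hb
  · exact (h3 b hb).ge
  · rw [hb, h5]
    have h6 : (0 : ℝ) ≤ X := Nat.cast_nonneg X
    have h7 := le_max_left (ln (LL q N) (q ^ 2) B) 0
    linarith
  · exact (h4 b hb).2.trans (Nat.cast_nonneg _)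

/-- HG45. (`q_rows`: the row `b` has at least `ln b` cells) -/
theorem isReg_lft {q N : ℕ} (hq : 1 ≤ q) (hN : q ≤ N) {t0 t1 : ℝ} (h0 : 0 ≤ t0) (h1 : t0 ≤ t1)
    (h2 : t1 ≤ 1) : IsReg (lft (DQ q N) (LL q N) (q ^ 2) t1 \ lft (DQ q N) (LL q N) (q ^ 2) t0)
      N (LL q N) (q ^ 2) t0 t1 := by
  intro a b
  rw [Finset.mem_sdiff]
  unfold lft
  rw [Finset.mem_filter, Finset.mem_filter]
  constructor
  · rintro ⟨⟨h3, h4⟩, h5⟩
    have h6 := h3
    unfold DQ at h6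
    rw [mem_dgm] at h6
    refine ⟨h6.1, ?_, h4⟩
    by_contra hcon
    exact h5 ⟨h3, not_le.1 hcon⟩
  · rintro ⟨h3, h4, h5⟩
    have ha : (0 : ℝ) ≤ a := Nat.cast_nonneg a
    have hpos : 0 ≤ ln (LL q N) (q ^ 2) b := by
      by_contra hcon
      have h6 : t1 * ln (LL q N) (q ^ 2) b ≤ 0 :=
        mul_nonpos_of_nonneg_of_nonpos (h0.trans h1) (not_le.1 hcon).le
      linarith
    have h6 : t1 * ln (LL q N) (q ^ 2) b ≤ 1 * ln (LL q N) (q ^ 2) b :=
      mul_le_mul_of_nonneg_right h2 hpos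
    have h7 := pd_le hq hN b
    have h8 : (a : ℝ) < (stp q N (tri N) b : ℝ) := by linarith
    refine ⟨⟨?_, h5⟩, ?_⟩
    · unfold DQ
      rw [mem_dgm]
      exact ⟨h3, by exact_mod_cast h8⟩
    · rintro ⟨_, h9⟩
      exact absurd h9 (not_lt.2 h4)

/-- HG46. the surplus of the top row (`q_rows`): its cells have weight `≥ LL q N`, the others less -/
theorem surplus {q N : ℕ} (hq : 1 ≤ q) (hN : q ≤ N) : ∃ B, B < N ∧
    (∀ z ∈ DQ q N \ lft (DQ q N) (LL q N) (q ^ 2) 1, z.2 = B) ∧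
    2 * (DQ q N \ lft (DQ q N) (LL q N) (q ^ 2) 1).card ≤ q ^ 2 ∧
    ∀ p ∈ lft (DQ q N) (LL q N) (q ^ 2) 1, ∀ z ∈ DQ q N \ lft (DQ q N) (LL q N) (q ^ 2) 1,
      p.1 + q ^ 2 * p.2 ≠ z.1 + q ^ 2 * z.2 := by
  classical
  obtain ⟨B, X, hB, hX, h3, h4, h5⟩ := pd_rows hq hN
  have hz : ∀ z ∈ DQ q N \ lft (DQ q N) (LL q N) (q ^ 2) 1,
      z.1 < stp q N (tri N) z.2 ∧ ln (LL q N) (q ^ 2) z.2 ≤ z.1 := by
    intro z hz
    rw [Finset.mem_sdiff] at hz
    have h6 := hz.1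
    unfold DQ at h6
    rw [mem_dgm] at h6
    refine ⟨h6.2, ?_⟩
    by_contra hcon
    apply hz.2
    unfold lft
    rw [Finset.mem_filter]
    refine ⟨hz.1, ?_⟩
    rw [one_mul]
    exact not_le.1 hcon
  have hrow : ∀ z ∈ DQ q N \ lft (DQ q N) (LL q N) (q ^ 2) 1, z.2 = B := by
    intro z hz'
    obtain ⟨h6, h7⟩ := hz z hz'
    rcases lt_trichotomy z.2 B with hb | hb | hb
    · have h8 := h3 z.2 hb
      have h9 : (z.1 : ℝ) < (stp q N (tri N) z.2 : ℝ) := by exact_mod_cast h6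
      linarith
    · exact hb
    · rw [(h4 z.2 hb).1] at h6
      omega
  refine ⟨B, hB, hrow, ?_, ?_⟩
  · obtain ⟨c, hc⟩ : ∃ c : ℕ, c = stp q N (tri N) B - X := ⟨_, rfl⟩
    have h6 : ∀ z ∈ DQ q N \ lft (DQ q N) (LL q N) (q ^ 2) 1,
        z.1 ∈ Finset.Ico c (stp q N (tri N) B) := by
      intro z hz'
      obtain ⟨h7, h8⟩ := hz z hz'
      rw [hrow z hz'] at h7 h8
      rw [Finset.mem_Ico]
      refine ⟨?_, h7⟩
      have h9 : max (ln (LL q N) (q ^ 2) B) 0 ≤ z.1 := max_le h8 (Nat.cast_nonneg _)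
      have h10 : (stp q N (tri N) B : ℝ) ≤ (z.1 : ℝ) + X := by
        rw [h5]
        linarith
      have h11 : stp q N (tri N) B ≤ z.1 + X := by exact_mod_cast h10
      omega
    have hinj : Set.InjOn (fun z : ℕ × ℕ => z.1)
        ((DQ q N \ lft (DQ q N) (LL q N) (q ^ 2) 1 : Finset (ℕ × ℕ)) : Set (ℕ × ℕ)) := by
      intro z h7 z' h8 h9
      exact Prod.ext h9 ((hrow z h7).trans (hrow z' h8).symm)
    have h7 := Finset.card_le_card_of_injOn _ h6 hinj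
    rw [Nat.card_Ico] at h7
    omega
  · intro p hp z hz' heq
    obtain ⟨_, h8⟩ := hz z hz'
    unfold lft at hp
    rw [Finset.mem_filter] at hp
    have h9 : (p.1 : ℝ) < 1 * ln (LL q N) (q ^ 2) p.2 := hp.2
    rw [one_mul] at h9
    unfold ln at h8 h9
    have h10 : ((p.1 + q ^ 2 * p.2 : ℕ) : ℝ) = ((z.1 + q ^ 2 * z.2 : ℕ) : ℝ) := by rw [heq]
    push_cast at h8 h9 h10
    linarith

/-- HG47. (`stp_sum`, `∑ (N - b)`) -/
theorem card_DQ {q N : ℕ} (hq : 1 ≤ q) : ((DQ q N).card : ℝ) = (N : ℝ) * (N + 1) / 2 := by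
  have _ := hq
  unfold DQ
  rw [card_dgm, stp_sum]
  have h : ∀ M : ℕ, 2 * ∑ i ∈ Finset.range M, (M - i) = M * (M + 1) := by
    intro M
    induction M with
    | zero => simp
    | succ M ih =>
      rw [Finset.sum_range_succ']
      have h1 : ∀ i ∈ Finset.range M, M + 1 - (i + 1) = M - i := fun i _ => by omega
      rw [Finset.sum_congr rfl h1, mul_add, ih]
      have h2 : M + 1 - 0 = M + 1 := rfl
      rw [h2]
      ring
  have h1 := h N
  have h2 : ∑ i ∈ Finset.range N, tri N i = ∑ i ∈ Finset.range N, (N - i) := rfl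
  rw [h2]
  have h3 : (2 : ℝ) * ((∑ i ∈ Finset.range N, (N - i) : ℕ) : ℝ) = N * (N + 1) := by
    exact_mod_cast h1
  linarith

/-- HG48. each of the rows `b < R` of the piece has at most `(t1 - t0) ln b + 1` cells, the others none;
`∑ b, max (ln b) 0 ≤ (DQ q N).card` -/
theorem card_piece {q N R : ℕ} (hq : 1 ≤ q) (hN : q ≤ N) (hR : LL q N ≤ q ^ 2 * R)
    {P : Finset (ℕ × ℕ)} {t0 t1 : ℝ} (h0 : 0 ≤ t0) (h1 : t0 ≤ t1)
    (hP : IsReg P N (LL q N) (q ^ 2) t0 t1) :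
    (P.card : ℝ) ≤ (t1 - t0) * ((N : ℝ) * (N + 1) / 2) + R := by
  classical
  have hmap : ∀ p ∈ P, p.2 ∈ Finset.range N := fun p hp =>
    Finset.mem_range.2 ((hP p.1 p.2).1 hp).1
  have hcard := Finset.card_eq_sum_card_fiberwise hmap
  have hfib : ∀ b ∈ Finset.range N, ((P.filter fun p => p.2 = b).card : ℝ) ≤
      (t1 - t0) * max (ln (LL q N) (q ^ 2) b) 0 + (if b < R then 1 else 0) := by
    intro b _
    rcases lt_or_ge b R with hb | hb
    · rw [if_pos hb]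
      rcases le_or_gt (ln (LL q N) (q ^ 2) b) 0 with hl | hl
      · have h3 : P.filter (fun p => p.2 = b) = ∅ := by
          rw [Finset.filter_eq_empty_iff]
          intro p hp hpb
          have h4 := (hP p.1 p.2).1 hp
          rw [hpb] at h4
          have h5 : t1 * ln (LL q N) (q ^ 2) b ≤ 0 :=
            mul_nonpos_of_nonneg_of_nonpos (h0.trans h1) hl
          have h6 : (0 : ℝ) ≤ p.1 := Nat.cast_nonneg _
          linarith [h4.2.2]
        rw [h3, Finset.card_empty, Nat.cast_zero]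
        have h4 : 0 ≤ (t1 - t0) * max (ln (LL q N) (q ^ 2) b) 0 :=
          mul_nonneg (by linarith) (le_max_right _ _)
        linarith
      · have h3 : ∀ p ∈ P.filter (fun p => p.2 = b), p.1 ∈
            Finset.Ico ⌈t0 * ln (LL q N) (q ^ 2) b⌉₊ ⌈t1 * ln (LL q N) (q ^ 2) b⌉₊ := by
          intro p hp
          rw [Finset.mem_filter] at hp
          have h4 := (hP p.1 p.2).1 hp.1
          rw [hp.2] at h4
          rw [Finset.mem_Ico]
          exact ⟨Nat.ceil_le.2 h4.2.1, Nat.lt_ceil.2 h4.2.2⟩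
        have hinj : Set.InjOn (fun z : ℕ × ℕ => z.1)
            ((P.filter fun p => p.2 = b : Finset (ℕ × ℕ)) : Set (ℕ × ℕ)) := by
          intro z h7 z' h8 h9
          rw [Finset.mem_coe, Finset.mem_filter] at h7 h8
          exact Prod.ext h9 (h7.2.trans h8.2.symm)
        have h4 := Finset.card_le_card_of_injOn _ h3 hinj
        rw [Nat.card_Ico] at h4
        have h5 : 0 ≤ t1 * ln (LL q N) (q ^ 2) b := mul_nonneg (h0.trans h1) hl.le
        have h6 : t0 * ln (LL q N) (q ^ 2) b ≤ t1 * ln (LL q N) (q ^ 2) b :=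
          mul_le_mul_of_nonneg_right h1 hl.le
        have h7 : (⌈t1 * ln (LL q N) (q ^ 2) b⌉₊ : ℝ) < t1 * ln (LL q N) (q ^ 2) b + 1 :=
          Nat.ceil_lt_add_one h5
        have h8 : t0 * ln (LL q N) (q ^ 2) b ≤ (⌈t0 * ln (LL q N) (q ^ 2) b⌉₊ : ℝ) :=
          Nat.le_ceil _
        have h9 : ⌈t0 * ln (LL q N) (q ^ 2) b⌉₊ ≤ ⌈t1 * ln (LL q N) (q ^ 2) b⌉₊ :=
          Nat.ceil_le_ceil h6
        have h10 : ((P.filter fun p => p.2 = b).card : ℝ) ≤
            (⌈t1 * ln (LL q N) (q ^ 2) b⌉₊ : ℝ) - (⌈t0 * ln (LL q N) (q ^ 2) b⌉₊ : ℝ) := by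
          have h11 : (P.filter fun p => p.2 = b).card + ⌈t0 * ln (LL q N) (q ^ 2) b⌉₊ ≤
              ⌈t1 * ln (LL q N) (q ^ 2) b⌉₊ := by omega
          have h12 : ((P.filter fun p => p.2 = b).card : ℝ) +
              (⌈t0 * ln (LL q N) (q ^ 2) b⌉₊ : ℝ) ≤ (⌈t1 * ln (LL q N) (q ^ 2) b⌉₊ : ℝ) := by
            exact_mod_cast h11
          linarith
        rw [max_eq_left hl.le]
        linarith
    · rw [if_neg (not_lt.2 hb)]
      have hl : ln (LL q N) (q ^ 2) b ≤ 0 := by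
        unfold ln
        have h2 : q ^ 2 * R ≤ q ^ 2 * b := Nat.mul_le_mul_left _ hb
        have h3 : ((LL q N : ℕ) : ℝ) ≤ ((q ^ 2 : ℕ) : ℝ) * b := by exact_mod_cast hR.trans h2
        linarith
      have h3 : P.filter (fun p => p.2 = b) = ∅ := by
        rw [Finset.filter_eq_empty_iff]
        intro p hp hpb
        have h4 := (hP p.1 p.2).1 hp
        rw [hpb] at h4
        have h5 : t1 * ln (LL q N) (q ^ 2) b ≤ 0 :=
          mul_nonpos_of_nonneg_of_nonpos (h0.trans h1) hl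
        have h6 : (0 : ℝ) ≤ p.1 := Nat.cast_nonneg _
        linarith [h4.2.2]
      rw [h3, Finset.card_empty, Nat.cast_zero, max_eq_right hl]
      linarith
  have hsum : (P.card : ℝ) ≤ ∑ b ∈ Finset.range N,
      ((t1 - t0) * max (ln (LL q N) (q ^ 2) b) 0 + (if b < R then 1 else 0)) := by
    rw [hcard, Nat.cast_sum]
    exact Finset.sum_le_sum hfib
  rw [Finset.sum_add_distrib, ← Finset.mul_sum] at hsum
  have hones : ∑ b ∈ Finset.range N, (if b < R then (1 : ℝ) else 0) ≤ R := by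
    rw [← Finset.sum_filter, Finset.sum_const, nsmul_eq_mul, mul_one]
    have h3 : (Finset.range N).filter (fun b => b < R) ⊆ Finset.range R := by
      intro b hb
      rw [Finset.mem_filter] at hb
      exact Finset.mem_range.2 hb.2
    have h4 := Finset.card_le_card h3
    rw [Finset.card_range] at h4
    exact_mod_cast h4
  have hmax : ∑ b ∈ Finset.range N, max (ln (LL q N) (q ^ 2) b) 0 ≤ (N : ℝ) * (N + 1) / 2 := by
    rw [← card_DQ (N := N) hq]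
    unfold DQ
    rw [card_dgm, Nat.cast_sum]
    exact Finset.sum_le_sum fun b _ => max_le (pd_le hq hN b) (Nat.cast_nonneg _)
  have h3 := mul_le_mul_of_nonneg_left hmax (by linarith : 0 ≤ t1 - t0)
  linarith

end Pool.Agent.Lib.MP_6b2d39_agHg
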