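import Pool.Agent.Lib.MP_6b2d39_agHg.Defs
import Pool.Agent.Lib.MP_6b2d39_agHl.Step

open Polynomial

set_option autoImplicit false

namespace Pool.Agent.Lib.MP_6b2d39_agHg

open Pool.Agent.Lib.MP_6b2d39_agHl Pool.Agent.Lib.MP_6b2d39_ag Pool.Agent.Lib.MP_6b2d39_ag.Rel
  Pool.Agent.Lib.MP_6b2d39_agNw

private theorem face_card_P {s : ℕ} (hs : 1 ≤ s) {P : Finset (ℕ × ℕ)} {F : ℂ[X][X]}
    (h : SuppP P F) (c : ℕ) : (face s c F).support.card ≤ kP s P c := by
  unfold kP
  refine Finset.card_le_card_of_injOn (fun i => (c - s * i, i)) (fun i hi => ?_)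
    fun a _ b _ hab => (Prod.ext_iff.1 hab).2
  rw [Finset.mem_coe, mem_support_iff, face_coeff hs] at hi
  by_cases hc : s * i ≤ c
  · rw [if_pos hc] at hi
    refine Finset.mem_coe.2 (Finset.mem_filter.2 ⟨?_, ?_⟩)
    · by_contra h3
      exact hi (h _ _ h3)
    · show c - s * i + s * i = c
      omega
  · rw [if_neg hc] at hi
    exact absurd rfl hi

private theorem face_zero_P {s : ℕ} (hs : 1 ≤ s) {b : ℕ} {P : Finset (ℕ × ℕ)} {H : ℂ[X][X]}
    (h : SuppP P (fs s ^ b * H)) {c : ℕ} (hk : kP s P (c + s * b) ≤ b) :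
    face s c H = 0 := by
  have h1 := face_pow_mul hs b c H
  have h2 : (face s (c + s * b) (fs s ^ b * H)).support.card ≤ b :=
    (face_card_P hs h _).trans hk
  have h3 : face s (c + s * b) (fs s ^ b * H) = 0 :=
    sparse_zero h2 ⟨face s c H, h1⟩
  rw [h3] at h1
  have h4 : ((X : ℂ[X]) - 1) ^ b ≠ 0 := by
    apply pow_ne_zero
    rw [← C_1]
    exact X_sub_C_ne_zero 1
  exact (mul_eq_zero.1 h1.symm).resolve_left h4

private theorem mem_of_kP {s b c : ℕ} {P : Finset (ℕ × ℕ)} (h : b < kP s P c) :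
    c ∈ P.image fun p => p.1 + s * p.2 := by
  have h0 : 0 < kP s P c := by omega
  obtain ⟨p, hp⟩ := Finset.card_pos.1 h0
  rw [Finset.mem_filter] at hp
  exact Finset.mem_image.2 ⟨p, hp.1, hp.2⟩

private theorem exists_space_P {s : ℕ} (hs : 1 ≤ s) (b : ℕ) (P : Finset (ℕ × ℕ)) :
    ∃ V : Submodule ℂ ℂ[X], FiniteDimensional ℂ V ∧ Module.finrank ℂ V ≤ stP s P b ∧
      ∀ H : ℂ[X][X], SuppP P (fs s ^ b * H) → resS s H ∈ V := by
  classical
  let S : Finset ℕ := (Finset.range ((P.image fun p => p.1 + s * p.2).sup id + 1)).filter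
    fun c => b < kP s P (c + s * b)
  let B : Finset ℂ[X] := S.image fun c => X ^ c
  refine ⟨Submodule.span ℂ (B : Set ℂ[X]), FiniteDimensional.span_finset ℂ B, ?_, ?_⟩
  · refine (finrank_span_finset_le_card B).trans (Finset.card_image_le.trans ?_)
    unfold stP
    refine Finset.card_le_card_of_injOn (fun c => c + s * b) ?_ ?_
    · intro c hc
      have h1 := (Finset.mem_filter.1 (Finset.mem_coe.1 hc)).2
      exact Finset.mem_coe.2 (Finset.mem_filter.2 ⟨mem_of_kP h1, h1⟩)
    · intro c _ c' _ h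
      exact Nat.add_right_cancel h
  · intro H hH
    rw [(resS s H).as_sum_support_C_mul_X_pow]
    refine Submodule.sum_mem _ fun c hc => ?_
    rw [← smul_eq_C_mul]
    refine Submodule.smul_mem _ _ (Submodule.subset_span ?_)
    have h1 : b < kP s P (c + s * b) := by
      by_contra hcon
      have h2 := face_zero_P hs hH (Nat.le_of_not_lt hcon)
      have h3 := face_eval hs c H
      rw [h2, eval_zero] at h3
      exact mem_support_iff.1 hc h3.symm
    refine Finset.mem_coe.2 (Finset.mem_image.2 ⟨c, Finset.mem_filter.2 ⟨?_, h1⟩, rfl⟩)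
    have h4 : c + s * b ≤ (P.image fun p => p.1 + s * p.2).sup id :=
      Finset.le_sup (f := id) (mem_of_kP h1)
    exact Finset.mem_range.2 (by omega)

private theorem kP_le {s n : ℕ} {P : Finset (ℕ × ℕ)} (hP : ∀ p ∈ P, p.2 < n) (c : ℕ) :
    kP s P c ≤ n := by
  unfold kP
  rw [← Finset.card_range n]
  refine Finset.card_le_card_of_injOn (fun p => p.2) (fun p hp => ?_) fun p hp q hq hpq => ?_
  · exact Finset.mem_coe.2 (Finset.mem_range.2 (hP p (Finset.mem_filter.1 (Finset.mem_coe.1 hp)).1))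
  · have h1 := (Finset.mem_filter.1 (Finset.mem_coe.1 hp)).2
    have h2 := (Finset.mem_filter.1 (Finset.mem_coe.1 hq)).2
    have h3 : p.2 = q.2 := hpq
    rw [h3] at h1
    exact Prod.ext (by omega) h3

/-- HG1. THE STEP from an arbitrary set of cells. Copy of `face_card` (`Hl/FaceB.lean`), `face_zero`,
`exists_space`, `step` (`Hl/Step.lean`) with `P`, `kP s P c` in the place of `dgm r n`, `kk s n r c`
(the cells of weight `c` of `P` have different second coordinates `< n`, so `kP s P c ≤ n`). -/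
theorem step_P {ι : Type} [Fintype ι] [DecidableEq ι] {s n : ℕ} (hs : 1 ≤ s)
    {P : Finset (ℕ × ℕ)} (hP : ∀ p ∈ P, p.2 < n) {m : ι → ℕ} {J : Finset ι}
    (hE : EmpQ (dgm (stP s P) n) m J) : EmpQ P m J := by
  let W : Submodule ℂ ℂ[X][X] :=
    { carrier := {F | SuppP P F}
      add_mem' := by
        intro F G hF hG i j hij
        rw [coeff_add, coeff_add, hF i j hij, hG i j hij, add_zero]
      zero_mem' := by
        intro i j _
        rw [coeff_zero, coeff_zero]
      smul_mem' := by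
        intro c F hF i j hij
        rw [coeff_smul, coeff_smul, hF i j hij, smul_zero] }
  choose V hV1 hV2 hV3 using fun b => exists_space_P hs b P
  have : ∀ b, FiniteDimensional ℂ (V b) := hV1
  exact diagram_pow (W := W) (r := stP s P) V (fun b _ H hH => hV3 b H hH)
    (fun b _ => hV2 b)
    (fun H hH => eq_zero_of_face hs fun c => face_zero_P hs hH (kP_le hP _)) hE

end Pool.Agent.Lib.MP_6b2d39_agHg
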