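import Pool.Agent.Lib.MP_6b2d39_agHg.MissG
import Pool.Agent.Lib.MP_6b2d39_agHg.RwStep
import Pool.Agent.Lib.MP_6b2d39_agHz.SumLo
import Pool.Agent.Lib.MP_6b2d39_agHz.SumUp

set_option autoImplicit false

namespace Pool.Agent.Lib.MP_6b2d39_agHg

open Pool.Agent.Lib.MP_6b2d39_agHl Pool.Agent.Lib.MP_6b2d39_agHz

private theorem lastg_gg {x N f : ℝ} {s : ℕ} (hx : 1 ≤ x) (hf : f = s / x) (b : ℕ) :
    gg x N ((s * b : ℕ) : ℝ) = (max (N + 1 / 2 - f * b) 0) ^ 2 / 2 := by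
  have hx0 : 0 < x := by linarith
  have hs : (s : ℝ) = f * x := by
    rw [hf]
    field_simp
  have h1 : x * (N + 1 / 2) - ((s * b : ℕ) : ℝ) = x * (N + 1 / 2 - f * b) := by
    push_cast
    rw [hs]
    ring
  have h2 : max (x * (N + 1 / 2 - f * b)) 0 = x * max (N + 1 / 2 - f * b) 0 := by
    rw [mul_max_of_nonneg _ _ hx0.le, mul_zero]
  unfold gg
  rw [h1, h2]
  field_simp

/-- HG28. as `last_eq` (`Hz/LastB.lean`): `cc_lo`, `cc_up` (`no_miss_g`, `E = ∅`) at `b`, `b + 1` -/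
theorem last_eq_g {x Au Al : ℝ} {s n : ℕ} {r : ℕ → ℕ} (hs1 : 1 ≤ s) (hs0 : x ^ 2 ≤ s)
    (hs : Dm x Au Al ≤ s - x ^ 2) (h : Rw x Au Al n r) (b : ℕ) :
    stp s n r b + Phi n r (s * (b + 1)) = Phi n r (s * b) := by
  have key : ∀ b, CC (stp s n r) b + Phi n r (s * b) = CC r n := by
    intro b
    refine le_antisymm ?_ (cc_lo hs1 r b)
    have h1 := cc_up hs1 h.z b ∅ fun i a hm => (no_miss_g hs0 hs h hm).elim
    rwa [Finset.card_empty, add_zero] at h1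
  have h1 := key b
  have h2 := key (b + 1)
  have h3 : CC (stp s n r) (b + 1) = CC (stp s n r) b + stp s n r b := by
    unfold CC
    rw [Finset.sum_range_succ]
  omega

private theorem lastg_real {x Au Al : ℝ} {s n : ℕ} {r : ℕ → ℕ} (hs1 : 1 ≤ s) (hs0 : x ^ 2 ≤ s)
    (hs : Dm x Au Al ≤ s - x ^ 2) (h : Rw x Au Al n r) (b : ℕ) :
    (stp s n r b : ℝ) = Phi n r (s * b) - Phi n r (s * (b + 1)) := by
  have h1 := last_eq_g hs1 hs0 hs h b
  have h2 : ((stp s n r b + Phi n r (s * (b + 1)) : ℕ) : ℝ) = (Phi n r (s * b) : ℕ) := by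
    rw [h1]
  push_cast at h2
  linarith

private theorem lastg_low (t f : ℝ) (hf : 0 ≤ f) :
    2 * t * f - f ^ 2 ≤ (max t 0) ^ 2 - (max (t - f) 0) ^ 2 := by
  rcases le_total f t with h5 | h5
  · rw [max_eq_left (by linarith), max_eq_left (by linarith)]
    nlinarith
  · rw [max_eq_right (by linarith : t - f ≤ 0)]
    rcases le_total 0 t with h6 | h6
    · rw [max_eq_left h6]
      nlinarith [sq_nonneg (t - f)]
    · rw [max_eq_right h6]
      nlinarith [mul_nonneg hf (by linarith : (0 : ℝ) ≤ -t), sq_nonneg f]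

private theorem lastg_upp (t f M : ℝ) (hf : 0 ≤ f) (h : f - t ≤ M) :
    (max t 0) ^ 2 - (max (t - f) 0) ^ 2 ≤ 2 * t * f - f ^ 2 + (max M 0) ^ 2 := by
  have hM : 0 ≤ (max M 0) ^ 2 := sq_nonneg _
  rcases le_total f t with h5 | h5
  · rw [max_eq_left (by linarith : (0 : ℝ) ≤ t), max_eq_left (by linarith : (0 : ℝ) ≤ t - f)]
    nlinarith
  · rw [max_eq_right (by linarith : t - f ≤ 0)]
    have h7 : (f - t) ^ 2 ≤ (max M 0) ^ 2 :=
      pow_le_pow_left₀ (by linarith) (h.trans (le_max_left _ _)) 2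
    have h8 : (max t 0) ^ 2 ≤ t ^ 2 := by
      rcases le_total 0 t with h6 | h6
      · rw [max_eq_left h6]
      · rw [max_eq_right h6]
        nlinarith [sq_nonneg t]
    nlinarith

/-- HG29. THE LAST STEP. `f = s / x`, `D = N + 1 / 2`, `t = D - f b`: `gg x N (s b)` is
`max t 0 ^ 2 / 2`, so `r' b = (max t 0 ^ 2 - max (t - f) 0 ^ 2) / 2` up to `β f + B` (`LB` with the
columns `s b`, `s (b + 1)`: `β s / x = β f`). `max t 0 ^ 2 - max (t - f) 0 ^ 2 ≥ 2 t f - f ^ 2` always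
(`lo`); it is `≤ 2 t f - f ^ 2 + max (Au - D) 0 ^ 2` if `f (b + 1) ≤ Au` (`t - f ≥ D - Au`) (`hi`);
`≤ max t 0 ^ 2` (`top`). `zero`: `rw_step` (`f Au - f ^ 2 b ≤ 0`). -/
theorem last_g {x β B N Au Al f : ℝ} {s n : ℕ} {r : ℕ → ℕ} (hx : 1 ≤ x) (hs1 : 1 ≤ s)
    (hs0 : x ^ 2 ≤ s) (hs : Dm x Au Al ≤ s - x ^ 2) (hf : f = s / x) (hN : 0 ≤ N + 1 / 2)
    (hr : Rw x Au Al n r) (hL : LB x β B N n r) :
    Fr n (stp s n r) f (N + 1 / 2) Au (β * f + B + (max (Au - (N + 1 / 2)) 0) ^ 2) := by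
  have hx0 : 0 < x := by linarith
  have hs1' : (1 : ℝ) ≤ s := by exact_mod_cast hs1
  have hf0 : 0 < f := by
    rw [hf]
    exact div_pos (by linarith) hx0
  have hstep : Rw (s / x) Au Al n (stp s n r) := rw_step hx hs0 hr
  have hM : 0 ≤ (max (Au - (N + 1 / 2)) 0) ^ 2 := sq_nonneg _
  have habs : ∀ b : ℕ, β * |((s * (b + 1) : ℕ) : ℝ) - ((s * b : ℕ) : ℝ)| / x + B = β * f + B := by
    intro b
    have h1 : ((s * (b + 1) : ℕ) : ℝ) - ((s * b : ℕ) : ℝ) = s := by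
      push_cast
      ring
    rw [h1, abs_of_nonneg (by linarith : (0 : ℝ) ≤ s), hf]
    ring
  have habs' : ∀ b : ℕ, β * |((s * b : ℕ) : ℝ) - ((s * (b + 1) : ℕ) : ℝ)| / x + B = β * f + B := by
    intro b
    rw [abs_sub_comm]
    exact habs b
  have hlow : ∀ b : ℕ, ((max (N + 1 / 2 - f * b) 0) ^ 2 -
      (max (N + 1 / 2 - f * b - f) 0) ^ 2) / 2 - (β * f + B) ≤ (stp s n r b : ℝ) := by
    intro b
    have h1 := lastg_real hs1 hs0 hs hr b
    have h2 := hL (s * (b + 1)) (s * b)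
    rw [habs b, lastg_gg hx hf (b + 1), lastg_gg hx hf b] at h2
    have h3 : N + 1 / 2 - f * ((b + 1 : ℕ) : ℝ) = N + 1 / 2 - f * b - f := by
      push_cast
      ring
    rw [h3] at h2
    linarith
  have hupp : ∀ b : ℕ, (stp s n r b : ℝ) ≤ ((max (N + 1 / 2 - f * b) 0) ^ 2 -
      (max (N + 1 / 2 - f * b - f) 0) ^ 2) / 2 + (β * f + B) := by
    intro b
    have h1 := lastg_real hs1 hs0 hs hr b
    have h2 := hL (s * b) (s * (b + 1))
    rw [habs' b, lastg_gg hx hf (b + 1), lastg_gg hx hf b] at h2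
    have h3 : N + 1 / 2 - f * ((b + 1 : ℕ) : ℝ) = N + 1 / 2 - f * b - f := by
      push_cast
      ring
    rw [h3] at h2
    linarith
  refine ⟨hstep.z, ?_, ?_, ?_, ?_⟩
  · intro b hb
    have h1 := hstep.up b
    rw [← hf] at h1
    have h2 : f * Au - f ^ 2 * b ≤ 0 := by nlinarith
    rw [max_eq_right h2] at h1
    have h3 : stp s n r b ≤ 0 := by exact_mod_cast h1
    omega
  · intro b
    have h1 := hlow b
    have h2 := lastg_low (N + 1 / 2 - f * b) f hf0.le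
    linarith
  · intro b hb
    have h1 := hupp b
    have h2 := lastg_upp (N + 1 / 2 - f * b) f (Au - (N + 1 / 2)) hf0.le (by linarith)
    linarith
  · intro b
    have h1 := hupp b
    have h2 : 0 ≤ (max (N + 1 / 2 - f * b - f) 0) ^ 2 := sq_nonneg _
    linarith

/-- HG30. The number of cells: `LB` with `c = 0` and `c' = ⌈x max Au (N + 1 / 2)⌉` (there
`Phi = 0`, `gg = 0`), in both orders; `gg x N 0 = (N + 1 / 2) ^ 2 / 2`, `Phi n r 0 = CC r n`. -/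
theorem area_g {x β B N Au Al : ℝ} {n : ℕ} {r : ℕ → ℕ} (hx : 1 ≤ x) (hβ : 0 ≤ β)
    (hN : 0 ≤ N + 1 / 2) (hr : Rw x Au Al n r) (hL : LB x β B N n r) :
    |(CC r n : ℝ) - (N + 1 / 2) ^ 2 / 2| ≤ β * (max Au (N + 1 / 2) + 1) + B := by
  have hx0 : 0 < x := by linarith
  obtain ⟨m, hm⟩ : ∃ m, m = max Au (N + 1 / 2) := ⟨_, rfl⟩
  have hm1 : Au ≤ m := by rw [hm]; exact le_max_left _ _
  have hm2 : N + 1 / 2 ≤ m := by rw [hm]; exact le_max_right _ _
  have hm0 : 0 ≤ m := hN.trans hm2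
  have hxm : 0 ≤ x * m := mul_nonneg hx0.le hm0
  obtain ⟨M, hM⟩ : ∃ M, M = ⌈x * m⌉₊ := ⟨_, rfl⟩
  have hM1 : x * m ≤ (M : ℝ) := by rw [hM]; exact Nat.le_ceil _
  have hM2 : (M : ℝ) ≤ x * m + 1 := by rw [hM]; exact (Nat.ceil_lt_add_one hxm).le
  have hP0 : Phi n r 0 = CC r n := by
    unfold Phi CC
    exact Finset.sum_congr rfl fun i _ => Nat.sub_zero _
  have hPM : Phi n r M = 0 := by
    unfold Phi
    refine Finset.sum_eq_zero fun i _ => ?_
    have h3 := hr.up i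
    have h4 : max (x * Au - x ^ 2 * i) 0 ≤ (M : ℝ) := by
      refine max_le ?_ (Nat.cast_nonneg _)
      have h5 : 0 ≤ x ^ 2 * (i : ℝ) := by positivity
      have h6 : x * Au ≤ x * m := mul_le_mul_of_nonneg_left hm1 hx0.le
      linarith
    have h5 : r i ≤ M := by exact_mod_cast h3.trans h4
    omega
  have hg0 : gg x N ((0 : ℕ) : ℝ) = (N + 1 / 2) ^ 2 / 2 := by
    unfold gg
    rw [Nat.cast_zero, sub_zero, max_eq_left (mul_nonneg hx0.le hN)]
    field_simp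
  have hgM : gg x N (M : ℝ) = 0 := by
    unfold gg
    have h6 : x * (N + 1 / 2) ≤ x * m := mul_le_mul_of_nonneg_left hm2 hx0.le
    rw [max_eq_right (by linarith)]
    simp
  have h1 := hL 0 M
  have h2 := hL M 0
  rw [hP0, hPM, hg0, hgM] at h1 h2
  have hdist : β * |(M : ℝ) - ((0 : ℕ) : ℝ)| / x ≤ β * (m + 1) := by
    rw [Nat.cast_zero, sub_zero, abs_of_nonneg (Nat.cast_nonneg M), div_le_iff₀ hx0]
    have h7 : (M : ℝ) ≤ (m + 1) * x := by nlinarith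
    calc β * (M : ℝ) ≤ β * ((m + 1) * x) := mul_le_mul_of_nonneg_left h7 hβ
      _ = β * (m + 1) * x := by ring
  have hdist' : β * |((0 : ℕ) : ℝ) - (M : ℝ)| / x ≤ β * (m + 1) := by
    rw [abs_sub_comm]
    exact hdist
  rw [← hm, abs_le]
  push_cast at h1 h2 hdist hdist'
  constructor <;> linarith

end Pool.Agent.Lib.MP_6b2d39_agHg
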