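import Pool.Agent.Lib.MP_6b2d39_agHg.ParG
import Pool.Agent.Lib.MP_6b2d39_agHg.ChRows
import Pool.Agent.Lib.MP_6b2d39_agHg.LastG

set_option autoImplicit false

namespace Pool.Agent.Lib.MP_6b2d39_agHg

open Pool.Agent.Lib.MP_6b2d39_agHl Pool.Agent.Lib.MP_6b2d39_agHz

/-- HG53. The rows of a class: `par_g`, `chain_g` (`dm_le`, `lam_le`), `last_g`, `area_g`
(`max Au D ≤ D + |Au - D|`); `Red.sum` (`CC r N = CC r0 N`, as `stp_sum`) for the last step. -/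
theorem class_r : ∃ N0 : ℝ, ∀ (ν κ y X h : ℝ) (q n m N : ℕ) (r0 : ℕ → ℕ), N0 ≤ ν →
    q = ⌊ν ^ (1 / 20 : ℝ)⌋₊ → (q : ℝ) ^ 2 * ν ^ (-(1 / 200) : ℝ) / 8 ≤ κ → κ ≤ (q : ℝ) ^ 2 →
    √κ ≤ y → y ≤ √κ + 1 / √κ → 0 ≤ X → 2 * X ≤ (q : ℝ) ^ 2 → 0 ≤ h → ν ≤ n → 100 ≤ m →
    (n : ℝ) * (m + 1) ≤ Real.exp (ν ^ (1 / 250 : ℝ)) →
    Rw y (h + (3 + X) / y) (h + y - 2) N r0 →
    LB y (4 / y) (y ^ 2 / 4 + X + 20) (h + y / 2 - 1 / 2) N r0 →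
    ∃ (r : ℕ → ℕ) (f D Au Δ β B : ℝ), Red N r0 r ∧ Fr N r f D Au Δ ∧ Fz (√n) m f (Δ / 2) ∧
      f ^ 2 ≤ n ∧ 0 ≤ D ∧ |Au - D| ≤ √n / 100 ∧ 0 ≤ β ∧ β ≤ 1 ∧ 0 ≤ B ∧ B ≤ (n : ℝ) * m / 100 ∧
      |(CC r N : ℝ) - D ^ 2 / 2| ≤ β * D + B ∧
      ((m : ℝ) + 2) * (2 * Δ + 1) ≤ 12 * m * √n / √κ := by
  obtain ⟨N0, hN0⟩ := par_g
  refine ⟨N0, ?_⟩
  intro ν κ y X h q n m N r0 hν hq hκ0 hκ1 hy0 hy1 hX0 hX1 hh hn hm hE hr hL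
  obtain ⟨H, k, s, x, f, Δ, B, hRx, hx2, hs1, hxs, hDm, hf, hfn, hB, hΔ, hF, _, hA, hBn, hw⟩ :=
    hN0 ν κ y X h q n m hν hq hκ0 hκ1 hy0 hy1 hX0 hX1 hn hm hE
  have hk : (10000 : ℝ) ≤ √κ := by
    apply Real.le_sqrt_of_sq_le
    have := H.k0
    linarith
  have hy : (10000 : ℝ) ≤ y := hk.trans hy0
  have hyp : 0 < y := by linarith
  have hβ0 : 0 ≤ 4 / y := by positivity
  have hβ1 : 4 / y ≤ 1 := by
    rw [div_le_one hyp]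
    linarith
  have hB0 : 0 ≤ y ^ 2 / 4 + X + 20 := by positivity
  have hN : 0 ≤ h + y / 2 - 1 / 2 + 1 / 2 := by linarith
  have hΛ0 : (0 : ℝ) ≤ 5000 * ((q : ℝ) ^ 2) ^ 2 := by positivity
  obtain ⟨r1, hR1, hrw1, hL1⟩ := chain_g (X := √2 * y) (Dx := 4 * (q : ℝ) ^ 2)
    (Λ := 5000 * ((q : ℝ) ^ 2) ^ 2) hRx (by linarith) hβ0 hβ1 hB0 hN hx2
    (fun z h1 h2 => dm_le H h1 h2) hΛ0 (lam_le H hh) hr hL
  rw [← hB] at hL1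
  have hx1 : 1 ≤ x := le_trans (by linarith) (hRx.mono (by linarith))
  have hAu0 : 0 ≤ h + (3 + X) / y := by positivity
  have e : h + (3 + X) / y - (h + y / 2 - 1 / 2 + 1 / 2) = (3 + X) / y - y / 2 := by ring
  have hFr := last_g hx1 hs1 hxs hDm hf hN hrw1 hL1
  rw [e] at hFr
  rw [← hΔ] at hFr
  have harea := area_g hx1 hβ0 hN hrw1 hL1
  have hBk : 0 ≤ B := by
    rw [hB]
    positivity
  refine ⟨stp s N r1, f, h + y / 2 - 1 / 2 + 1 / 2, h + (3 + X) / y, Δ, 4 / y,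
    4 / y * (|(3 + X) / y - y / 2| + 1) + B, ?_, hFr, hF, hfn, hN, ?_, hβ0, hβ1, ?_, hBn, ?_, hw⟩
  · exact Relation.ReflTransGen.tail hR1 ⟨s, hs1, rfl⟩
  · rw [e]
    exact hA
  · positivity
  · have hCC : CC (stp s N r1) N = CC r1 N := stp_sum s N r1
    rw [hCC]
    refine harea.trans ?_
    have h1 : max (h + (3 + X) / y) (h + y / 2 - 1 / 2 + 1 / 2) ≤
        (h + y / 2 - 1 / 2 + 1 / 2) + |(3 + X) / y - y / 2| := by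
      apply max_le
      · have := le_abs_self ((3 + X) / y - y / 2)
        linarith
      · have := abs_nonneg ((3 + X) / y - y / 2)
        linarith
    have h2 : 4 / y * (max (h + (3 + X) / y) (h + y / 2 - 1 / 2 + 1 / 2) + 1) ≤
        4 / y * ((h + y / 2 - 1 / 2 + 1 / 2) + |(3 + X) / y - y / 2| + 1) :=
      mul_le_mul_of_nonneg_left (by linarith) hβ0
    nlinarith

end Pool.Agent.Lib.MP_6b2d39_agHg
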