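import Pool.Agent.Lib.MP_6b2d39_agHz.Defs

set_option autoImplicit false

namespace Pool.Agent.Lib.MP_6b2d39_agHg

open Pool.Agent.Lib.MP_6b2d39_agHz

private theorem ggb_scale {y A c : ℝ} (hy : 0 < y) :
    (max (y * A - c) 0) ^ 2 / (2 * y ^ 2) = max (A - c / y) 0 ^ 2 / 2 := by
  have e1 : y * A - c = y * (A - c / y) := by
    field_simp
  have e2 : max (y * A - c) 0 = y * max (A - c / y) 0 := by
    rw [e1, mul_max_of_nonneg _ _ hy.le, mul_zero]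
  rw [e2]
  field_simp

/-- HG20. With `A = N + 1 / 2`, `f = s / x`, `ζ = f b`, `η = c / f`: `gg x N (s b)` is
`max (A - ζ) 0 ^ 2 / 2`, `gg f N c = max (A - η) 0 ^ 2 / 2`, `b c = ζ η`. Take for `b` the natural
number nearest to `max (A - η) 0 / f` (`0` if `A ≤ η`); as `gg_lo` (`Hz/GGLo.lean`). -/
theorem gg_near {x s N c f : ℝ} (hx : 0 < x) (hs : 0 < s) (hf : f = s / x) (hN : 0 ≤ N + 1 / 2)
    (hc : 0 ≤ c) : ∃ b : ℕ, |f * b - max (N + 1 / 2 - c / f) 0| ≤ f / 2 ∧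
      gg f N c - f ^ 2 / 8 ≤ (N + 1 / 2) ^ 2 / 2 - gg x N (s * b) - b * c := by
  have hf0 : 0 < f := by
    rw [hf]
    exact div_pos hs hx
  obtain ⟨A, hA⟩ : ∃ A : ℝ, A = N + 1 / 2 := ⟨_, rfl⟩
  obtain ⟨η, hη⟩ : ∃ η : ℝ, η = c / f := ⟨_, rfl⟩
  have hη0 : 0 ≤ η := by
    rw [hη]
    exact div_nonneg hc hf0.le
  rw [← hA] at hN ⊢
  rw [← hη]
  unfold gg
  rw [← hA, ggb_scale hf0, ← hη]
  simp only [ggb_scale hx]
  have hsx : ∀ b : ℕ, s * b / x = f * b := by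
    intro b
    rw [hf]
    ring
  have hbc : ∀ b : ℕ, (b : ℝ) * c = f * b * η := by
    intro b
    rw [hη]
    field_simp
  rcases le_total A η with h | h
  · refine ⟨0, ?_, ?_⟩
    · rw [max_eq_right (by linarith), Nat.cast_zero, mul_zero, sub_zero, abs_zero]
      linarith
    · rw [hsx, hbc, max_eq_right (by linarith : A - η ≤ 0), Nat.cast_zero, mul_zero, sub_zero,
        max_eq_left hN]
      nlinarith [sq_nonneg f]
  · have hw : 0 ≤ A - η := by linarith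
    rw [max_eq_left hw]
    have hu : 0 ≤ (A - η) / f + 1 / 2 := by positivity
    refine ⟨⌊(A - η) / f + 1 / 2⌋₊, ?_⟩
    obtain ⟨b, hb⟩ : ∃ b : ℕ, b = ⌊(A - η) / f + 1 / 2⌋₊ := ⟨_, rfl⟩
    rw [← hb]
    have f1 : (b : ℝ) ≤ (A - η) / f + 1 / 2 := by
      rw [hb]
      exact Nat.floor_le hu
    have f2 : (A - η) / f + 1 / 2 < b + 1 := by
      rw [hb]
      exact Nat.lt_floor_add_one _
    have es : f * ((A - η) / f) = A - η := by field_simp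
    have g1 : f * b - (A - η) ≤ f / 2 := by
      have := mul_le_mul_of_nonneg_left f1 hf0.le
      nlinarith
    have g2 : -(f / 2) ≤ f * b - (A - η) := by
      have := mul_le_mul_of_nonneg_left f2.le hf0.le
      nlinarith
    refine ⟨abs_le.2 ⟨g2, g1⟩, ?_⟩
    rw [hsx, hbc]
    obtain ⟨ζ, hζ⟩ : ∃ ζ : ℝ, ζ = f * b := ⟨_, rfl⟩
    rw [← hζ] at g1 g2 ⊢
    have g3 : (ζ - (A - η)) ^ 2 ≤ f ^ 2 / 4 := by nlinarith
    have g4 : max (A - ζ) 0 ^ 2 ≤ (A - ζ) ^ 2 := by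
      rcases le_total (A - ζ) 0 with h' | h'
      · rw [max_eq_right h']
        have := sq_nonneg (A - ζ)
        linarith
      · rw [max_eq_left h']
    nlinarith

/-- HG21. The four cases `ζ ≤ A` or `ζ ≥ A`, `η ≤ A` or `η ≥ A` (notation of `gg_near`). -/
theorem gg_loss {x s N b c f : ℝ} (hx : 0 < x) (hs : 0 < s) (hf : f = s / x)
    (hN : 0 ≤ N + 1 / 2) (hb : 0 ≤ b) (hc : 0 ≤ c) :
    (min (f * b) (N + 1 / 2) - max (N + 1 / 2 - c / f) 0) ^ 2 / 2 ≤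
      gg x N (s * b) + b * c - ((N + 1 / 2) ^ 2 / 2 - gg f N c) := by
  have hf0 : 0 < f := by
    rw [hf]
    exact div_pos hs hx
  obtain ⟨A, hA⟩ : ∃ A : ℝ, A = N + 1 / 2 := ⟨_, rfl⟩
  obtain ⟨η, hη⟩ : ∃ η : ℝ, η = c / f := ⟨_, rfl⟩
  obtain ⟨ζ, hζ⟩ : ∃ ζ : ℝ, ζ = f * b := ⟨_, rfl⟩
  have hη0 : 0 ≤ η := by
    rw [hη]
    exact div_nonneg hc hf0.le
  have hζ0 : 0 ≤ ζ := by
    rw [hζ]
    exact mul_nonneg hf0.le hb
  have hsx : s * b / x = ζ := by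
    rw [hζ, hf]
    ring
  have hbc : b * c = ζ * η := by
    rw [hη, hζ]
    field_simp
  rw [← hA] at hN ⊢
  unfold gg
  rw [← hA, ggb_scale hf0, ggb_scale hx, ← hη, ← hζ, hsx, hbc]
  rcases le_total ζ A with h1 | h1
  · rw [min_eq_left h1, max_eq_left (by linarith : (0 : ℝ) ≤ A - ζ)]
    rcases le_total η A with h2 | h2
    · rw [max_eq_left (by linarith : (0 : ℝ) ≤ A - η)]
      nlinarith
    · rw [max_eq_right (by linarith : A - η ≤ 0)]
      nlinarith [mul_nonneg hζ0 (sub_nonneg.2 h2)]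
  · rw [min_eq_right h1, max_eq_right (by linarith : A - ζ ≤ 0)]
    rcases le_total η A with h2 | h2
    · rw [max_eq_left (by linarith : (0 : ℝ) ≤ A - η)]
      nlinarith [mul_nonneg hη0 (sub_nonneg.2 h1)]
    · rw [max_eq_right (by linarith : A - η ≤ 0)]
      nlinarith [mul_nonneg (sub_nonneg.2 h1) (sub_nonneg.2 h2), mul_nonneg hN (sub_nonneg.2 h1),
        mul_nonneg hN (sub_nonneg.2 h2)]

end Pool.Agent.Lib.MP_6b2d39_agHg
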