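import Pool.Agent.Lib.MP_6b2d39_agHg.Defs
import Pool.Agent.Lib.MP_6b2d39_agHg.GGb
import Pool.Agent.Lib.MP_6b2d39_agHz.Leg

set_option autoImplicit false

namespace Pool.Agent.Lib.MP_6b2d39_agHg

open Pool.Agent.Lib.MP_6b2d39_agHl Pool.Agent.Lib.MP_6b2d39_agHz

/-- HG23. if `w ^ 2 / 2 ≤ K + β w` with `0 ≤ β ≤ 1`, `0 ≤ K`, then `w ≤ 2 + √(2 K)` -/
theorem quad_g {w K β : ℝ} (hβ : 0 ≤ β) (hβ1 : β ≤ 1) (hK : 0 ≤ K) (h : w ^ 2 / 2 ≤ K + β * w) :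
    w ≤ 2 + √(2 * K) := by
  by_contra hcon
  have ht0 : 0 ≤ √(2 * K) := Real.sqrt_nonneg _
  have ht : √(2 * K) * √(2 * K) = 2 * K := Real.mul_self_sqrt (by linarith)
  obtain ⟨t, htt⟩ : ∃ t, t = √(2 * K) := ⟨_, rfl⟩
  rw [← htt] at ht0 ht hcon
  have hw : 2 + t < w := not_le.1 hcon
  have h1 : β * w ≤ 1 * w := mul_le_mul_of_nonneg_right hβ1 (by linarith)
  have h2 : (2 + t) * t < w * (w - 2) := by
    have h3 : (2 + t) * t < (2 + t) * (w - 2) :=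
      mul_lt_mul_of_pos_left (by linarith) (by linarith)
    have h4 : (2 + t) * (w - 2) ≤ w * (w - 2) :=
      mul_le_mul_of_nonneg_right hw.le (by linarith)
    linarith
  nlinarith

/-- HG24. The place `b` where `Phi' c` is attained is near to the ideal place. `r'` are the rows after
the step, `f = s / x`, `A = N + 1 / 2`, `u = max (A - c / f) 0`. Let `b0` be the number of `gg_near`.
`CC r n + M - Phi (s b) - b c ≥ CC r' b - b c ≥ Phi' c ≥ CC r' b0 - b0 c ≥ CC r n - Phi (s b0) - b0 c`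
(`hup`, `hb`, `cc_le_phi`, `hlo`), so by `LB` (distance of the columns `s |b - b0|`)
`gg x N (s b) + b c ≤ gg x N (s b0) + b0 c + M + B + β f |b - b0|
  ≤ A ^ 2 / 2 - gg f N c + f ^ 2 / 8 + M + B + β f |b - b0|`. With `w = |min (f b) A - u|`,
`c0 = max (Au - A) 0 + f`: `f |b - b0| ≤ w + c0 + f / 2` (`f b ≤ Au + f`), and `gg_loss` gives
`w ^ 2 / 2 ≤ f ^ 2 / 8 + M + B + β (w + c0 + f / 2)`; `quad_g`. -/
theorem disp_g {x β B M N Au f : ℝ} {s n b c : ℕ} {r r' : ℕ → ℕ} (hx : 0 < x) (hs : 1 ≤ s)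
    (hf : f = s / x) (hf1 : 1 ≤ f) (hβ : 0 ≤ β) (hβ1 : β ≤ 1) (hB : 0 ≤ B) (hM : 0 ≤ M)
    (hN : 0 ≤ N + 1 / 2) (hL : LB x β B N n r) (h0 : ∀ i, n ≤ i → r' i = 0)
    (hlo : ∀ b : ℕ, (CC r n : ℝ) ≤ CC r' b + Phi n r (s * b))
    (hup : ∀ b : ℕ, (CC r' b : ℝ) + Phi n r (s * b) ≤ CC r n + M)
    (hb : (b : ℝ) * c + Phi n r' c ≤ CC r' b) (hb2 : f * b ≤ max Au 0 + f) :
    |f * b - max (N + 1 / 2 - c / f) 0| ≤ max (max Au 0 - (N + 1 / 2)) 0 + f + 2 +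
      √(2 * (f ^ 2 / 8 + M + B + (max (max Au 0 - (N + 1 / 2)) 0 + f) + f / 2)) := by
  have hs0 : (0 : ℝ) < s := by exact_mod_cast hs
  have hf0 : 0 < f := by linarith
  have hc0 : (0 : ℝ) ≤ c := Nat.cast_nonneg _
  have hb0' : (0 : ℝ) ≤ b := Nat.cast_nonneg _
  obtain ⟨b0, hn1, hn2⟩ := gg_near (x := x) (s := (s : ℝ)) (N := N) (c := (c : ℝ)) hx hs0 hf hN hc0
  have hl := gg_loss (x := x) (s := (s : ℝ)) (N := N) (b := (b : ℝ)) (c := (c : ℝ)) hx hs0 hf hN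
    hb0' hc0
  have h1 := hup b
  have h2 : (CC r' b0 : ℝ) ≤ b0 * c + Phi n r' c := by exact_mod_cast cc_le_phi h0 b0 c
  have h3 := hlo b0
  have h4 := hL (s * b0) (s * b)
  obtain ⟨u, hu⟩ : ∃ u, u = max (N + 1 / 2 - c / f) 0 := ⟨_, rfl⟩
  obtain ⟨A, hA⟩ : ∃ A, A = N + 1 / 2 := ⟨_, rfl⟩
  obtain ⟨c0, hc00⟩ : ∃ c0, c0 = max (max Au 0 - (N + 1 / 2)) 0 + f := ⟨_, rfl⟩
  have hc0n : 0 ≤ c0 := by
    rw [hc00]
    exact add_nonneg (le_max_right _ _) hf0.le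
  rw [← hu] at hn1 hl ⊢
  rw [← hc00]
  have h5 : β * |((s * b0 : ℕ) : ℝ) - ((s * b : ℕ) : ℝ)| / x = β * (f * |(b : ℝ) - b0|) := by
    have e1 : ((s * b0 : ℕ) : ℝ) - ((s * b : ℕ) : ℝ) = (s : ℝ) * ((b0 : ℝ) - b) := by
      push_cast
      ring
    rw [e1, abs_mul, abs_of_pos hs0, abs_sub_comm (b0 : ℝ) b, hf]
    ring
  rw [h5] at h4
  have h6 : f * |(b : ℝ) - b0| ≤ |f * b - u| + f / 2 := by
    have e1 : f * |(b : ℝ) - b0| = |(f * b - u) - (f * b0 - u)| := by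
      rw [show (f * b - u) - (f * b0 - u) = f * ((b : ℝ) - b0) by ring, abs_mul, abs_of_pos hf0]
    rw [e1]
    calc |(f * b - u) - (f * b0 - u)| ≤ |f * b - u| + |f * b0 - u| := abs_sub _ _
      _ ≤ |f * b - u| + f / 2 := by linarith
  obtain ⟨w, hw⟩ : ∃ w, w = |min (f * b) (N + 1 / 2) - u| := ⟨_, rfl⟩
  have hw0 : 0 ≤ w := by
    rw [hw]
    exact abs_nonneg _
  have hw2 : w ^ 2 = (min (f * b) (N + 1 / 2) - u) ^ 2 := by
    rw [hw, sq_abs]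
  have h7 : |f * b - u| ≤ w + c0 := by
    have e1 : f * b - u = (min (f * b) (N + 1 / 2) - u) + (f * b - min (f * b) (N + 1 / 2)) := by
      ring
    have e2 : |f * b - min (f * b) (N + 1 / 2)| ≤ c0 := by
      rw [abs_le]
      constructor
      · have := min_le_left (f * b) (N + 1 / 2)
        linarith
      · rcases le_total (f * b) (N + 1 / 2) with h | h
        · rw [min_eq_left h]
          linarith
        · rw [min_eq_right h, hc00]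
          have := le_max_left (max Au 0 - (N + 1 / 2)) 0
          linarith
    rw [e1, hw]
    exact (abs_add_le _ _).trans (by linarith)
  have h8 : w ^ 2 / 2 ≤ (f ^ 2 / 8 + M + B + c0 + f / 2) + β * w := by
    rw [← hw2] at hl
    have e1 : β * (f * |(b : ℝ) - b0|) ≤ β * w + (c0 + f / 2) := by
      have e2 : β * (f * |(b : ℝ) - b0|) ≤ β * (w + c0 + f / 2) :=
        mul_le_mul_of_nonneg_left (by linarith) hβ
      have e3 : β * (c0 + f / 2) ≤ 1 * (c0 + f / 2) :=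
        mul_le_mul_of_nonneg_right hβ1 (by linarith)
      linarith
    push_cast at h4
    linarith
  have hK : 0 ≤ f ^ 2 / 8 + M + B + c0 + f / 2 := by
    have := sq_nonneg f
    linarith
  have h9 := quad_g hβ hβ1 hK h8
  linarith

end Pool.Agent.Lib.MP_6b2d39_agHg
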