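import Pool.Agent.Lib.MP_6b2d39_agHg.QP

set_option autoImplicit false

namespace Pool.Agent.Lib.MP_6b2d39_agHg

open Pool.Agent.Lib.MP_6b2d39_agHl

/-- HG62. -/
theorem exists_fibres {g u : ℕ} (a : Fin g → ℕ) (h : ∑ j, a j = u) :
    ∃ c : Fin u → Fin g, ∀ j, (Finset.univ.filter fun l => c l = j).card = a j := by
  subst h
  refine ⟨fun l => (finSigmaFinEquiv.symm l).1, fun j => ?_⟩
  have h1 : (Finset.univ.filter fun l : Fin (∑ j, a j) => (finSigmaFinEquiv.symm l).1 = j) =
      (Finset.univ : Finset (Fin (a j))).map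
        ⟨fun i => finSigmaFinEquiv ⟨j, i⟩, fun i i' hi => by
          have h2 := finSigmaFinEquiv.injective hi
          simpa using h2⟩ := by
    ext l
    simp only [Finset.mem_filter, Finset.mem_univ, true_and, Finset.mem_map,
      Function.Embedding.coeFn_mk]
    constructor
    · intro h2
      obtain ⟨p, hp⟩ := finSigmaFinEquiv.surjective l
      rw [← hp, Equiv.symm_apply_apply] at h2
      obtain ⟨j', i⟩ := p
      dsimp only at h2
      subst h2
      exact ⟨i, hp⟩
    · rintro ⟨i, rfl⟩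
      rw [Equiv.symm_apply_apply]
  rw [h1, Finset.card_map, Finset.card_univ, Fintype.card_fin]

private theorem fib_enum {h g : ℕ} (k : Fin h → Fin g) (j : Fin g) {n' : ℕ}
    (hn : n' = (Finset.univ.filter fun i => k i = j).card) :
    ∃ e : Fin n' → Fin h, Function.Injective e ∧ (∀ i, k (e i) = j) ∧
      ∀ F : Fin h → ℕ, ∑ i, F (e i) = ∑ i ∈ Finset.univ.filter (fun i => k i = j), F i := by
  subst hn
  refine ⟨fun i => ((Finset.univ.filter fun i => k i = j).equivFin.symm i).1, ?_, ?_, ?_⟩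
  · intro i i' hi
    exact (Finset.univ.filter fun i => k i = j).equivFin.symm.injective (Subtype.ext hi)
  · intro i
    exact (Finset.mem_filter.1
      ((Finset.univ.filter fun i => k i = j).equivFin.symm i).2).2
  · intro F
    rw [← Finset.sum_coe_sort (Finset.univ.filter fun i => k i = j) F]
    exact Equiv.sum_comp (Finset.univ.filter fun i => k i = j).equivFin.symm
      (fun i : (Finset.univ.filter fun i => k i = j) => F i.1)

/-- HG63. `e` enumerates the points of the class `j` (`Finset.equivFin`), the same for `c`;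
`empQ_reindex` -/
theorem emp_class {h g u : ℕ} (k : Fin h → Fin g) (c : Fin u → Fin g) (μ : Fin h → ℕ)
    (j : Fin g) {n' u' : ℕ} (hn : n' = (Finset.univ.filter fun i => k i = j).card)
    (hu : u' = (Finset.univ.filter fun l => c l = j).card) :
    ∃ e : Fin n' → Fin h, (∀ i, k (e i) = j) ∧
      (∀ F : Fin h → ℕ, ∑ i, F (e i) = ∑ i ∈ Finset.univ.filter (fun i => k i = j), F i) ∧
      ∀ P : Finset (ℕ × ℕ),
        EmpQ P (Sum.elim (fun i => μ (e i)) (fun _ => 1) : Fin n' ⊕ Fin u' → ℕ) Finset.univ →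
        EmpQ P (Sum.elim μ (fun _ => 1) : Fin h ⊕ Fin u → ℕ)
          (Finset.univ.filter fun i => (Sum.elim k c : Fin h ⊕ Fin u → Fin g) i = j) := by
  obtain ⟨e, he, hk, hF⟩ := fib_enum k j hn
  obtain ⟨e', he', hk', _⟩ := fib_enum c j hu
  refine ⟨e, hk, hF, fun P hP => ?_⟩
  refine empQ_reindex (Sum.map e e') (he.sumMap he') ?_ ?_ hP
  · rintro (i | l)
    · rfl
    · rfl
  · rintro (i | l)
    · exact Finset.mem_filter.2 ⟨Finset.mem_univ _, hk i⟩
    · exact Finset.mem_filter.2 ⟨Finset.mem_univ _, hk' l⟩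

end Pool.Agent.Lib.MP_6b2d39_agHg
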