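import Pool.Agent.Lib.MP_6b2d39_agHg.Defs
import Pool.Agent.Lib.MP_6b2d39_agWin.Cut

open Polynomial

set_option autoImplicit false

namespace Pool.Agent.Lib.MP_6b2d39_agHg

open Pool.Agent.Lib.MP_6b2d39_agHl Pool.Agent.Lib.MP_6b2d39_agWin Pool.Agent.Lib.MP_6b2d39_ag
  Pool.Agent.Lib.MP_6b2d39_ag.Rel

private theorem qp_index {ι : Type} [Fintype ι] [DecidableEq ι] (m : ι → ℕ) (J : Finset ι) :
    ∃ S : Finset (ι × ℕ × ℕ), ∀ t : ι × ℕ × ℕ,
      t ∈ S ↔ t.1 ∈ J ∧ t.2.1 + t.2.2 < m t.1 := by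
  refine ⟨(J ×ˢ (Finset.range (∑ i, m i) ×ˢ Finset.range (∑ i, m i))).filter
    (fun t => t.2.1 + t.2.2 < m t.1), fun t => ?_⟩
  rw [Finset.mem_filter, Finset.mem_product, Finset.mem_product, Finset.mem_range,
    Finset.mem_range]
  constructor
  · rintro ⟨⟨h1, _, _⟩, h2⟩
    exact ⟨h1, h2⟩
  · rintro ⟨h1, h2⟩
    have h3 : m t.1 ≤ ∑ i, m i := Finset.single_le_sum (f := m) (fun _ _ => Nat.zero_le _)
      (Finset.mem_univ t.1)
    exact ⟨⟨h1, by omega, by omega⟩, h2⟩

/-- A matrix of polynomials which is injective at `0` is injective at a point where a given nonzero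
polynomial does not vanish. -/
private theorem qp_gen {I T : Type} [Fintype I] [Fintype T] [DecidableEq I] [DecidableEq T]
    (A : Matrix T I ℂ[X]) (hA : ∀ c : I → ℂ, (A.map (Polynomial.eval 0)).mulVec c = 0 → c = 0)
    (q : ℂ[X]) (hq : q ≠ 0) :
    ∃ z : ℂ, Polynomial.eval z q ≠ 0 ∧
      ∀ c : I → ℂ, (A.map (Polynomial.eval z)).mulVec c = 0 → c = 0 := by
  have hk : LinearMap.ker (Matrix.toLin' (A.map (Polynomial.eval 0))) = ⊥ := by
    refine LinearMap.ker_eq_bot'.2 fun c hc => hA c ?_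
    rw [Matrix.toLin'_apply] at hc
    exact hc
  obtain ⟨L, hL⟩ := LinearMap.exists_leftInverse_of_injective _ hk
  obtain ⟨B, hB⟩ : ∃ B : Matrix I T ℂ, B = LinearMap.toMatrix' L := ⟨_, rfl⟩
  have hBA : B * A.map (Polynomial.eval 0) = 1 := by
    have h1 := congrArg LinearMap.toMatrix' hL
    rw [LinearMap.toMatrix'_comp, LinearMap.toMatrix'_toLin', LinearMap.toMatrix'_id, ← hB] at h1
    exact h1
  obtain ⟨M, hM⟩ : ∃ M : Matrix I I ℂ[X], M = B.map Polynomial.C * A := ⟨_, rfl⟩
  have hMe : ∀ z : ℂ, M.map (Polynomial.eval z) = B * A.map (Polynomial.eval z) := by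
    intro z
    ext i j
    rw [hM, Matrix.map_apply, Matrix.mul_apply, Matrix.mul_apply, Polynomial.eval_finsetSum]
    refine Finset.sum_congr rfl fun t _ => ?_
    rw [Matrix.map_apply, Matrix.map_apply, Polynomial.eval_mul, Polynomial.eval_C]
  have hdet : ∀ z : ℂ, (M.map (Polynomial.eval z)).det = Polynomial.eval z M.det := by
    intro z
    have := RingHom.map_det (Polynomial.evalRingHom z) M
    rw [Polynomial.coe_evalRingHom] at this
    rw [this]
    rfl
  have h0 : M.det ≠ 0 := by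
    intro h
    have h1 := hdet 0
    rw [hMe, hBA, h, Matrix.det_one, Polynomial.eval_zero] at h1
    exact one_ne_zero h1
  have h1 : q * M.det ≠ 0 := mul_ne_zero hq h0
  obtain ⟨z, hz⟩ : ∃ z, Polynomial.eval z (q * M.det) ≠ 0 := by
    by_contra hcon
    push Not at hcon
    exact h1 (Polynomial.funext fun z => by simpa using hcon z)
  rw [Polynomial.eval_mul] at hz
  refine ⟨z, left_ne_zero_of_mul hz, fun c hc => ?_⟩
  have h2 : (M.map (Polynomial.eval z)).det ≠ 0 := by
    rw [hdet]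
    exact right_ne_zero_of_mul hz
  refine Matrix.eq_zero_of_mulVec_eq_zero h2 ?_
  rw [hMe, ← Matrix.mulVec_mulVec, hc, Matrix.mulVec_zero]

/-- HG4. The points can be moved off the coordinate axes. Let `M` be the matrix of the conditions
(`condP` in `Win/Cut.lean`, `Transfer.entry`) at the points `(x i + t, y i + t)`, a matrix of
polynomials in `t`; at `t = 0` it has a left inverse `L`, so `det (L M)` is a nonzero polynomial in `t`;
choose `t` with `det (L M) ≠ 0`, `t ≠ - x i`, `t ≠ - y i`. -/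
theorem empP_of_empQ {ι : Type} [Fintype ι] [DecidableEq ι] {P : Finset (ℕ × ℕ)} {m : ι → ℕ}
    {J : Finset ι} (h : EmpQ P m J) : EmpP P m J := by
  classical
  obtain ⟨x, y, H⟩ := h
  obtain ⟨S, hS⟩ := qp_index m J
  obtain ⟨A, hA⟩ : ∃ A : Matrix S P ℂ[X], A = fun t p =>
      Transfer.entry (Polynomial.C (x t.1.1) + Polynomial.X) (Polynomial.C (y t.1.1) + Polynomial.X)
        t.1.2.1 t.1.2.2 p.1.1 p.1.2 := ⟨_, rfl⟩
  have hAe : ∀ (z : ℂ) (t : S) (p : P), (A.map (Polynomial.eval z)) t p =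
      Transfer.entry (x t.1.1 + z) (y t.1.1 + z) t.1.2.1 t.1.2.2 p.1.1 p.1.2 := by
    intro z t p
    rw [Matrix.map_apply, hA]
    beta_reduce
    have h1 := Transfer.map_entry (Polynomial.evalRingHom z)
      (Polynomial.C (x t.1.1) + Polynomial.X) (Polynomial.C (y t.1.1) + Polynomial.X)
      t.1.2.1 t.1.2.2 p.1.1 p.1.2
    simp only [Polynomial.coe_evalRingHom, Polynomial.eval_add, Polynomial.eval_C,
      Polynomial.eval_X] at h1
    exact h1
  have hmv : ∀ (z : ℂ) (c : P → ℂ), (A.map (Polynomial.eval z)).mulVec c = 0 ↔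
      ∀ i ∈ J, ∀ a b, a + b < m i →
        ∑ p : P, Transfer.entry (x i + z) (y i + z) a b p.1.1 p.1.2 * c p = 0 := by
    intro z c
    constructor
    · intro h1 i hi a b hab
      have h2 := congrFun h1 ⟨(i, a, b), (hS (i, a, b)).2 ⟨hi, hab⟩⟩
      simp only [Matrix.mulVec, dotProduct, hAe, Pi.zero_apply] at h2
      exact h2
    · intro h1
      funext t
      have h2 := (hS t.1).1 t.2
      have h3 := h1 t.1.1 h2.1 t.1.2.1 t.1.2.2 h2.2
      simp only [Matrix.mulVec, dotProduct, hAe, Pi.zero_apply]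
      exact h3
  have h0 : ∀ c : P → ℂ, (A.map (Polynomial.eval 0)).mulVec c = 0 → c = 0 := by
    intro c hc
    have h1 : ofC c = 0 := by
      refine H _ (suppP_ofC c) fun i hi => ?_
      rw [cond_ofC_iff]
      intro a b hab
      have h2 := (hmv 0 c).1 hc i hi a b hab
      rw [add_zero, add_zero] at h2
      exact h2
    ext p
    rw [← coeff_ofC_self c p, h1]
    simp
  have hq : (∏ i : ι, (Polynomial.C (x i) + Polynomial.X)) *
      ∏ i : ι, (Polynomial.C (y i) + (Polynomial.X : ℂ[X])) ≠ 0 := by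
    refine mul_ne_zero ?_ ?_
    · refine Finset.prod_ne_zero_iff.2 fun i _ => ?_
      rw [add_comm]
      exact Polynomial.X_add_C_ne_zero (x i)
    · refine Finset.prod_ne_zero_iff.2 fun i _ => ?_
      rw [add_comm]
      exact Polynomial.X_add_C_ne_zero (y i)
  obtain ⟨z, hz, h1⟩ := qp_gen A h0 _ hq
  rw [Polynomial.eval_mul, Polynomial.eval_prod, Polynomial.eval_prod] at hz
  simp only [Polynomial.eval_add, Polynomial.eval_C, Polynomial.eval_X] at hz
  refine ⟨fun i => x i + z, fun i => y i + z,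
    fun i => Finset.prod_ne_zero_iff.1 (left_ne_zero_of_mul hz) i (Finset.mem_univ i),
    fun i => Finset.prod_ne_zero_iff.1 (right_ne_zero_of_mul hz) i (Finset.mem_univ i), ?_⟩
  intro f hf hc
  have h2 : (fun p : P => (f.coeff p.1.1).coeff p.1.2) = 0 := by
    refine h1 _ ((hmv z _).2 fun i hi a b hab => ?_)
    have h3 := hc i hi
    rw [eq_ofC hf, cond_ofC_iff] at h3
    exact h3 a b hab
  rw [eq_ofC hf, h2]
  unfold ofC
  refine Finset.sum_eq_zero fun p _ => ?_
  rw [Pi.zero_apply, Polynomial.monomial_zero_right, Polynomial.monomial_zero_right]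

/-- (trivial) -/
theorem empQ_of_empP {ι : Type} {P : Finset (ℕ × ℕ)} {m : ι → ℕ} {J : Finset ι}
    (h : EmpP P m J) : EmpQ P m J := by
  obtain ⟨x, y, _, _, h⟩ := h
  exact ⟨x, y, h⟩

/-- reindexing: the points of `J` are the images of the points of an injective map -/
theorem empQ_reindex {ι κ : Type} [DecidableEq ι] {P : Finset (ℕ × ℕ)} {m : ι → ℕ} {m' : κ → ℕ}
    {J : Finset ι} (e : κ → ι) (he : Function.Injective e) (hm : ∀ k, m (e k) = m' k)
    (hJ : ∀ k, e k ∈ J) {K : Finset κ} (h : EmpQ P m' K) : EmpQ P m J := by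
  obtain ⟨x, y, H⟩ := h
  refine ⟨Function.extend e x 0, Function.extend e y 0, fun f hf hc => H f hf fun k _ => ?_⟩
  have h1 := hc (e k) (hJ k)
  rw [hm k, he.extend_apply, he.extend_apply] at h1
  exact h1

end Pool.Agent.Lib.MP_6b2d39_agHg
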