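import Pool.Agent.Lib.MP_6b2d39_agHg.Defs

set_option autoImplicit false

namespace Pool.Agent.Lib.MP_6b2d39_agHg

private theorem sep_min {P : Finset (ℕ × ℕ)} {K C : ℝ}
    (h₂ : ∀ β ∈ P, (β.1 : ℝ) + K * β.2 < C) :
    ∃ δ : ℝ, 0 < δ ∧ ∀ β ∈ P, (β.1 : ℝ) + K * β.2 ≤ C - δ := by
  induction P using Finset.induction_on with
  | empty => exact ⟨1, one_pos, by simp⟩
  | insert a s ha ih =>
    obtain ⟨δ, hδ, h⟩ := ih (fun β hβ => h₂ β (Finset.mem_insert_of_mem hβ))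
    have h1 := h₂ a (Finset.mem_insert_self a s)
    refine ⟨min δ (C - ((a.1 : ℝ) + K * a.2)), lt_min hδ (by linarith), ?_⟩
    intro β hβ
    rcases Finset.mem_insert.1 hβ with rfl | hβ
    · have := min_le_right δ (C - ((β.1 : ℝ) + K * β.2))
      linarith
    · have := min_le_left δ (C - ((a.1 : ℝ) + K * a.2))
      have := h β hβ
      linarith

/-- HG5. Separation by natural weights. `P₁` lies in `a + K b ≥ C`, `P₂` in `a + K b < C`, all rows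
`< n`. With `δ > 0` the minimum of `C - a - K b` over `P₂` choose a rational number `q / p` with
`K ≤ q / p < K + δ / (n + 1)`: then `a + (q / p) b ≥ C` on `P₁` and `< C` on `P₂`. -/
theorem exists_weights {P₁ P₂ : Finset (ℕ × ℕ)} {n : ℕ} {K C : ℝ} (hK : 0 ≤ K)
    (h₁ : ∀ α ∈ P₁, C ≤ (α.1 : ℝ) + K * α.2) (h₂ : ∀ β ∈ P₂, (β.1 : ℝ) + K * β.2 < C)
    (hn : ∀ β ∈ P₂, β.2 < n) :
    ∃ p q : ℕ, ∀ α ∈ P₁, ∀ β ∈ P₂, p * β.1 + q * β.2 < p * α.1 + q * α.2 := by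
  obtain ⟨δ, hδ, hmin⟩ := sep_min h₂
  have hn1 : (0 : ℝ) < (n : ℝ) + 1 := by positivity
  obtain ⟨r, hr1, hr2⟩ := exists_rat_btwn (show K < K + δ / (n + 1) by
    have : 0 < δ / ((n : ℝ) + 1) := by positivity
    linarith)
  have hr0 : (0 : ℝ) ≤ (r : ℝ) := hK.trans hr1.le
  have hr0' : 0 ≤ r := by exact_mod_cast hr0
  have hnum : 0 ≤ r.num := Rat.num_nonneg.2 hr0'
  have hden : (0 : ℝ) < (r.den : ℝ) := by exact_mod_cast r.den_pos
  have hq : ((r.num.toNat : ℕ) : ℝ) = (r : ℝ) * (r.den : ℝ) := by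
    have h1 : ((r.num.toNat : ℕ) : ℤ) = r.num := Int.toNat_of_nonneg hnum
    have h2 : ((r.num.toNat : ℕ) : ℝ) = ((r.num : ℤ) : ℝ) := by exact_mod_cast h1
    rw [h2]
    have h3 : (r : ℚ) * (r.den : ℚ) = (r.num : ℚ) := Rat.mul_den_eq_num r
    exact_mod_cast h3.symm
  refine ⟨r.den, r.num.toNat, fun α hα β hβ => ?_⟩
  have ha := h₁ α hα
  have hb := hmin β hβ
  have hbn : ((β.2 : ℕ) : ℝ) < (n : ℝ) := by exact_mod_cast hn β hβ
  have hb0 : (0 : ℝ) ≤ ((β.2 : ℕ) : ℝ) := by positivity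
  have ha0 : (0 : ℝ) ≤ ((α.2 : ℕ) : ℝ) := by positivity
  have k1 : K * (α.2 : ℝ) ≤ (r : ℝ) * (α.2 : ℝ) := mul_le_mul_of_nonneg_right hr1.le ha0
  have k2 : ((r : ℝ) - K) * (β.2 : ℝ) ≤ (δ / (n + 1)) * (β.2 : ℝ) :=
    mul_le_mul_of_nonneg_right (by linarith) hb0
  have k3 : (δ / ((n : ℝ) + 1)) * (β.2 : ℝ) < δ := by
    rw [div_mul_eq_mul_div, div_lt_iff₀ hn1]
    have : δ * (β.2 : ℝ) < δ * ((n : ℝ) + 1) := mul_lt_mul_of_pos_left (by linarith) hδ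
    exact this
  have k4 : (β.1 : ℝ) + (r : ℝ) * (β.2 : ℝ) < (α.1 : ℝ) + (r : ℝ) * (α.2 : ℝ) := by
    nlinarith
  have k5 := mul_lt_mul_of_pos_left k4 hden
  have k6 : (((r.den * β.1 + r.num.toNat * β.2 : ℕ)) : ℝ) <
      ((r.den * α.1 + r.num.toNat * α.2 : ℕ) : ℝ) := by
    push_cast
    rw [hq]
    nlinarith
  exact_mod_cast k6

end Pool.Agent.Lib.MP_6b2d39_agHg
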