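import Pool.Agent.Lib.MP_6b2d39_agHg.CutW
import Pool.Agent.Lib.MP_6b2d39_agHg.Sep
import Pool.Agent.Lib.MP_6b2d39_agHg.QP
import Pool.Agent.Lib.MP_6b2d39_agNw.Defs

set_option autoImplicit false

namespace Pool.Agent.Lib.MP_6b2d39_agHg

open Pool.Agent.Lib.MP_6b2d39_agHl Pool.Agent.Lib.MP_6b2d39_agWin Pool.Agent.Lib.MP_6b2d39_ag
  Pool.Agent.Lib.MP_6b2d39_ag.Rel

private theorem mem_lft {D : Finset (ℕ × ℕ)} {L Q : ℕ} {t : ℝ} {p : ℕ × ℕ} :
    p ∈ lft D L Q t ↔ p ∈ D ∧ (p.1 : ℝ) < t * ln L Q p.2 := by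
  classical
  unfold lft
  rw [Finset.mem_filter]

private theorem glue_step {ι : Type} [Fintype ι] [DecidableEq ι] {D T : Finset (ℕ × ℕ)}
    {L Q n : ℕ} (hn : ∀ p ∈ D, p.2 < n) {u : ℝ} (hu : 0 ≤ u) (hT : T ⊆ D)
    (hT' : lft D L Q u ⊆ T) {m : ι → ℕ} {J₁ J₂ : Finset ι} (hJ : Disjoint J₁ J₂)
    (h₁ : EmpQ (T \ lft D L Q u) m J₁) (h₂ : EmpP (lft D L Q u) m J₂) :
    EmpP T m (J₁ ∪ J₂) := by
  obtain ⟨p, q, hpq⟩ := exists_weights (P₁ := T \ lft D L Q u) (P₂ := lft D L Q u) (n := n)
    (K := u * Q) (C := u * L) (mul_nonneg hu (Nat.cast_nonneg Q)) (fun α hα => by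
      obtain ⟨hα1, hα2⟩ := Finset.mem_sdiff.1 hα
      rw [mem_lft] at hα2
      push Not at hα2
      have h := hα2 (hT hα1)
      unfold ln at h
      linarith) (fun β hβ => by
      have h := (mem_lft.1 hβ).2
      unfold ln at h
      linarith) (fun β hβ => hn β (mem_lft.1 hβ).1)
  have h := empP_cutw hJ (empP_of_empQ h₁) h₂ p q hpq
  rwa [Finset.sdiff_union_of_subset hT'] at h

/-- HG6. Gluing of the pieces: thresholds `t 0 = 0 ≤ t 1 ≤ … `, the piece `j < g - 1` is
`lft (t (j + 1)) \ lft (t j)`, the last one `D \ lft (t (g - 1))`; the points of the piece `j` are the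
`i` with `k i = j`. Induction on `j`: `EmpP (lft D L Q (t j)) m {i | k i < j}` (`lft D L Q 0 = ∅`), with
`empP_cutw`, `exists_weights` (`K = t j Q`, `C = t j L`), `empP_of_empQ`. -/
theorem glue {ι : Type} [Fintype ι] [DecidableEq ι] {D : Finset (ℕ × ℕ)} {L Q n g : ℕ}
    (hn : ∀ p ∈ D, p.2 < n) (hg : 1 ≤ g) {t : ℕ → ℝ} (h0 : t 0 = 0) (hmono : Monotone t)
    {m : ι → ℕ} {k : ι → ℕ} (hk : ∀ i, k i < g)
    (h : ∀ j, j + 1 < g → EmpQ (lft D L Q (t (j + 1)) \ lft D L Q (t j)) m
      (Finset.univ.filter fun i => k i = j))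
    (hl : EmpQ (D \ lft D L Q (t (g - 1))) m (Finset.univ.filter fun i => k i = g - 1)) :
    EmpQ D m Finset.univ := by
  have ht : ∀ j, 0 ≤ t j := fun j => h0 ▸ hmono (Nat.zero_le j)
  have hdis : ∀ j, Disjoint (Finset.univ.filter fun i => k i = j)
      (Finset.univ.filter fun i => k i < j) := by
    intro j
    rw [Finset.disjoint_left]
    intro i hi hi'
    exact absurd (Finset.mem_filter.1 hi).2 (Finset.mem_filter.1 hi').2.ne
  have hind : ∀ j, j < g → EmpP (lft D L Q (t j)) m (Finset.univ.filter fun i => k i < j) := by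
    intro j
    induction j with
    | zero =>
      intro _
      refine ⟨fun _ => 1, fun _ => 1, fun _ => one_ne_zero, fun _ => one_ne_zero,
        fun f hf _ => ?_⟩
      ext a b
      rw [hf a b, Polynomial.coeff_zero, Polynomial.coeff_zero]
      rw [mem_lft, h0, zero_mul]
      rintro ⟨-, hlt⟩
      exact absurd hlt (not_lt.2 (Nat.cast_nonneg a))
    | succ j ih =>
      intro hj
      have h2 := ih (by omega)
      have hsub : lft D L Q (t j) ⊆ lft D L Q (t (j + 1)) := by
        intro p hp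
        rw [mem_lft] at hp ⊢
        refine ⟨hp.1, hp.2.trans_le ?_⟩
        have h3 : 0 < ln L Q p.2 := by
          by_contra hc
          push Not at hc
          have h4 : t j * ln L Q p.2 ≤ 0 := mul_nonpos_of_nonneg_of_nonpos (ht j) hc
          have h5 : (0 : ℝ) ≤ p.1 := Nat.cast_nonneg _
          linarith [hp.2]
        exact mul_le_mul_of_nonneg_right (hmono (Nat.le_succ j)) h3.le
      have h3 := glue_step hn (ht j) (T := lft D L Q (t (j + 1)))
        (fun p hp => (mem_lft.1 hp).1) hsub (hdis j) (h j hj) h2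
      have h4 : (Finset.univ.filter fun i => k i = j) ∪ (Finset.univ.filter fun i => k i < j) =
          Finset.univ.filter fun i => k i < j + 1 := by
        ext i
        rw [Finset.mem_union, Finset.mem_filter, Finset.mem_filter, Finset.mem_filter]
        constructor
        · rintro (⟨-, h5⟩ | ⟨-, h5⟩)
          · exact ⟨Finset.mem_univ _, by omega⟩
          · exact ⟨Finset.mem_univ _, by omega⟩
        · rintro ⟨-, h5⟩
          rcases Nat.lt_succ_iff_lt_or_eq.1 h5 with h6 | h6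
          · exact Or.inr ⟨Finset.mem_univ _, h6⟩
          · exact Or.inl ⟨Finset.mem_univ _, h6⟩
      rwa [h4] at h3
  have h3 := glue_step hn (ht (g - 1)) (T := D) subset_rfl (fun p hp => (mem_lft.1 hp).1)
    (hdis (g - 1)) hl (hind (g - 1) (by omega))
  have h4 : (Finset.univ.filter fun i => k i = g - 1) ∪
      (Finset.univ.filter fun i => k i < g - 1) = Finset.univ := by
    ext i
    rw [Finset.mem_union, Finset.mem_filter, Finset.mem_filter]
    have h5 := hk i
    constructor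
    · intro _
      exact Finset.mem_univ _
    · intro _
      rcases Nat.lt_or_ge (k i) (g - 1) with h6 | h6
      · exact Or.inr ⟨Finset.mem_univ _, h6⟩
      · exact Or.inl ⟨Finset.mem_univ _, by omega⟩
  rw [h4] at h3
  exact empQ_of_empP h3

end Pool.Agent.Lib.MP_6b2d39_agHg
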