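import Pool.Agent.Lib.MP_6b2d39_agHg.Disp
import Pool.Agent.Lib.MP_6b2d39_agHg.Attain
import Pool.Agent.Lib.MP_6b2d39_agHz.Leg

set_option autoImplicit false

namespace Pool.Agent.Lib.MP_6b2d39_agHg

open Pool.Agent.Lib.MP_6b2d39_agHl Pool.Agent.Lib.MP_6b2d39_agHz

/-- HG25. ONE STEP for the Lipschitz error. `r' = stp s n r`, `f = s / x`, `A = N + 1 / 2`. Let `b`
(`phi_attain_g`, `stp_antitone`) be the place where `Phi' c` is attained, `f b ≤ max Au 0 + f` from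
`hAu`, and `b'` the number of `gg_near` at `c'`. Then
`Phi' c ≤ CC r' b - b c ≤ CC r n + M - Phi (s b) - b c`,
`Phi' c' ≥ CC r' b' - b' c' ≥ CC r n - Phi (s b') - b' c'` (`cc_le_phi`), `gg_up` in `Hz/GG.lean` is
`A ^ 2 / 2 - gg x N (s b) - b c ≤ gg f N c` (here it follows from `gg_loss`), so
`(Phi' c - gg f N c) - (Phi' c' - gg f N c') ≤ M + f ^ 2 / 8 + [error at s b' minus error at s b]`
`≤ M + f ^ 2 / 8 + β f |b - b'| + B`, and `f |b - b'| ≤ |c - c'| / f + f / 2 + (disp_g)`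
(`u ↦ max (A - u) 0` is `1`-Lipschitz). Finally `√(2 (u + B)) ≤ u + 1 / 2 + √(2 B)`. -/
theorem lb_step {x β B M N Au f : ℝ} {s n : ℕ} {r : ℕ → ℕ} (hx : 0 < x) (hs : 1 ≤ s)
    (hf : f = s / x) (hf1 : 1 ≤ f) (hβ : 0 ≤ β) (hβ1 : β ≤ 1) (hB : 0 ≤ B) (hM : 0 ≤ M)
    (hN : 0 ≤ N + 1 / 2) (hL : LB x β B N n r)
    (hlo : ∀ b : ℕ, (CC r n : ℝ) ≤ CC (stp s n r) b + Phi n r (s * b))
    (hup : ∀ b : ℕ, (CC (stp s n r) b : ℝ) + Phi n r (s * b) ≤ CC r n + M)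
    (hAu : ∀ b : ℕ, (stp s n r b : ℝ) ≤ max (f * Au - f ^ 2 * b) 0) :
    LB f β (B + 2 * M + 4 * f ^ 2 + 2 * max (max Au 0 - (N + 1 / 2)) 0 + 3 + √(2 * B)) N n
      (stp s n r) := by
  intro c c'
  have hs0 : (0 : ℝ) < s := by exact_mod_cast hs
  have hf0 : 0 < f := by linarith
  have hc0 : (0 : ℝ) ≤ c := Nat.cast_nonneg _
  have hc0' : (0 : ℝ) ≤ c' := Nat.cast_nonneg _
  have h0 : ∀ i, n ≤ i → stp s n r i = 0 := fun i hi => stp_zero hi
  obtain ⟨b, hb, hb1⟩ := phi_attain_g (n := n) (stp_antitone s n r) c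
  have hbc : (b : ℝ) * c + Phi n (stp s n r) c ≤ CC (stp s n r) b := by exact_mod_cast hb
  have hbn : (0 : ℝ) ≤ b := Nat.cast_nonneg _
  have hb2 : f * b ≤ max Au 0 + f := by
    rcases hb1 with h | h
    · rw [h, Nat.cast_zero, mul_zero]
      exact add_nonneg (le_max_right _ _) hf0.le
    · rcases Nat.eq_zero_or_pos b with hb0 | hb0
      · rw [hb0, Nat.cast_zero, mul_zero]
        exact add_nonneg (le_max_right _ _) hf0.le
      · have h1 := hAu (b - 1)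
        have h2 : (0 : ℝ) < (stp s n r (b - 1) : ℝ) := by
          exact_mod_cast lt_of_le_of_lt (Nat.zero_le c) h
        have h3 : 0 < f * Au - f ^ 2 * ((b - 1 : ℕ) : ℝ) := by
          by_contra hcon
          rw [max_eq_right (not_lt.1 hcon)] at h1
          linarith
        have h4 : ((b - 1 : ℕ) : ℝ) = (b : ℝ) - 1 := by
          rw [Nat.cast_sub hb0, Nat.cast_one]
        rw [h4] at h3
        have h5 : 0 < f * (Au - f * ((b : ℝ) - 1)) := by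
          have e : f * (Au - f * ((b : ℝ) - 1)) = f * Au - f ^ 2 * ((b : ℝ) - 1) := by ring
          rw [e]
          exact h3
        have h6 : 0 < Au - f * ((b : ℝ) - 1) := by
          by_contra hcon
          have := mul_nonneg hf0.le (sub_nonneg.2 (not_lt.1 hcon))
          linarith
        have h7 := le_max_left Au 0
        linarith
  obtain ⟨b', hn1, hn2⟩ := gg_near (x := x) (s := (s : ℝ)) (N := N) (c := (c' : ℝ)) hx hs0 hf hN hc0'
  have hl := gg_loss (x := x) (s := (s : ℝ)) (N := N) (b := (b : ℝ)) (c := (c : ℝ)) hx hs0 hf hN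
    hbn hc0
  have hd := disp_g (c := c) (b := b) (r' := stp s n r) hx hs hf hf1 hβ hβ1 hB hM hN hL h0 hlo hup
    hbc hb2
  have h1 := hup b
  have h2 : (CC (stp s n r) b' : ℝ) ≤ b' * c' + Phi n (stp s n r) c' := by
    exact_mod_cast cc_le_phi h0 b' c'
  have h3 := hlo b'
  have h4 := hL (s * b') (s * b)
  obtain ⟨u, hu⟩ : ∃ u, u = max (N + 1 / 2 - c / f) 0 := ⟨_, rfl⟩
  obtain ⟨u', hu'⟩ : ∃ u', u' = max (N + 1 / 2 - c' / f) 0 := ⟨_, rfl⟩
  obtain ⟨D, hD⟩ : ∃ D, D = max (max Au 0 - (N + 1 / 2)) 0 := ⟨_, rfl⟩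
  have hD0 : 0 ≤ D := by
    rw [hD]
    exact le_max_right _ _
  rw [← hu] at hl hd
  rw [← hu'] at hn1
  rw [← hD] at hd ⊢
  have h5 : β * |((s * b' : ℕ) : ℝ) - ((s * b : ℕ) : ℝ)| / x = β * (f * |(b : ℝ) - b'|) := by
    have e1 : ((s * b' : ℕ) : ℝ) - ((s * b : ℕ) : ℝ) = (s : ℝ) * ((b' : ℝ) - b) := by
      push_cast
      ring
    rw [e1, abs_mul, abs_of_pos hs0, abs_sub_comm (b' : ℝ) b, hf]
    ring
  rw [h5] at h4
  push_cast at h4
  -- the ideal places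
  have h6 : |u - u'| ≤ |(c : ℝ) - c'| / f := by
    rw [hu, hu']
    refine (abs_max_sub_max_le_abs _ _ _).trans ?_
    have e1 : N + 1 / 2 - (c : ℝ) / f - (N + 1 / 2 - c' / f) = -(((c : ℝ) - c') / f) := by ring
    rw [e1, abs_neg, abs_div, abs_of_pos hf0]
  have h7 : f * |(b : ℝ) - b'| ≤ |f * b - u| + |u - u'| + f / 2 := by
    have e1 : f * |(b : ℝ) - b'| = |(f * b - u) + (u - u') + (u' - f * b')| := by
      rw [show (f * b - u) + (u - u') + (u' - f * b') = f * ((b : ℝ) - b') by ring, abs_mul,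
        abs_of_pos hf0]
    rw [e1]
    refine (abs_add_three _ _ _).trans ?_
    rw [abs_sub_comm u' (f * b')]
    linarith
  obtain ⟨S, hS⟩ : ∃ S, S = √(2 * (f ^ 2 / 8 + M + B + (D + f) + f / 2)) := ⟨_, rfl⟩
  rw [← hS] at hd
  have hS0 : 0 ≤ S := by
    rw [hS]
    exact Real.sqrt_nonneg _
  have hf2 : 0 ≤ f ^ 2 := sq_nonneg f
  have h8 : S ≤ (f ^ 2 / 8 + M + D + 3 * f / 2) + 1 / 2 + √(2 * B) := by
    obtain ⟨v, hv⟩ : ∃ v, v = f ^ 2 / 8 + M + D + 3 * f / 2 := ⟨_, rfl⟩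
    have hv0 : 0 ≤ v := by
      rw [hv]
      linarith
    have e1 : 2 * (f ^ 2 / 8 + M + B + (D + f) + f / 2) = 2 * v + 2 * B := by
      rw [hv]
      ring
    have hq0 : 0 ≤ √(2 * B) := Real.sqrt_nonneg _
    have hq : √(2 * B) ^ 2 = 2 * B := Real.sq_sqrt (by linarith)
    rw [hS, e1, ← hv]
    refine Real.sqrt_le_iff.2 ⟨by linarith, ?_⟩
    nlinarith [sq_nonneg (v - 1 / 2), mul_nonneg hv0 hq0]
  have h9 : β * (f * |(b : ℝ) - b'|) ≤ β * (|(c : ℝ) - c'| / f) +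
      (f / 2 + (D + f + 2 + S)) := by
    have e1 : β * (f * |(b : ℝ) - b'|) ≤
        β * (|(c : ℝ) - c'| / f + (f / 2 + (D + f + 2 + S))) :=
      mul_le_mul_of_nonneg_left (by linarith) hβ
    have e2 : β * (f / 2 + (D + f + 2 + S)) ≤ 1 * (f / 2 + (D + f + 2 + S)) :=
      mul_le_mul_of_nonneg_right hβ1 (by linarith)
    linarith
  have h10 : 0 ≤ (min (f * b) (N + 1 / 2) - u) ^ 2 / 2 := by positivity
  have h11 : β * |(c : ℝ) - c'| / f = β * (|(c : ℝ) - c'| / f) := by ring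
  rw [h11]
  have h12 : f ≤ f ^ 2 := by nlinarith
  linarith

end Pool.Agent.Lib.MP_6b2d39_agHg
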