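import Mathlib

set_option autoImplicit false

namespace Pool.Agent.Lib.MP_6b2d39_agHg

private theorem lp_up {P T : ℝ} (hP : 6 ≤ P) :
    max (T - P / 2) 0 + (max (T - P) 0) ^ 2 / (2 * P) ≤ (max T 0) ^ 2 / (2 * P) := by
  have h2 : (0 : ℝ) < 2 * P := by linarith
  rcases le_total T 0 with h | h
  · rw [max_eq_right (by linarith : T - P / 2 ≤ 0), max_eq_right (by linarith : T - P ≤ 0),
      max_eq_right h, zero_add]
  rw [max_eq_left h]
  rcases le_total T (P / 2) with h3 | h3
  · rw [max_eq_right (by linarith : T - P / 2 ≤ 0), max_eq_right (by linarith : T - P ≤ 0),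
      zero_add]
    exact (div_le_div_iff_of_pos_right h2).2 (by nlinarith)
  rw [max_eq_left (by linarith : 0 ≤ T - P / 2)]
  rcases le_total T P with h4 | h4
  · rw [max_eq_right (by linarith : T - P ≤ 0), le_div_iff₀ h2, add_mul,
      div_mul_cancel₀ _ h2.ne']
    nlinarith [sq_nonneg (T - P)]
  · rw [max_eq_left (by linarith : 0 ≤ T - P), le_div_iff₀ h2, add_mul,
      div_mul_cancel₀ _ h2.ne']
    nlinarith

private theorem lp_eq {P T : ℝ} (hP : 6 ≤ P) (hT : P ≤ T) :
    max (T - P / 2) 0 + (max (T - P) 0) ^ 2 / (2 * P) = (max T 0) ^ 2 / (2 * P) := by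
  have h2 : (0 : ℝ) < 2 * P := by linarith
  rw [max_eq_left (by linarith : 0 ≤ T - P / 2), max_eq_left (by linarith : 0 ≤ T - P),
    max_eq_left (by linarith : 0 ≤ T), eq_div_iff h2.ne', add_mul, div_mul_cancel₀ _ h2.ne']
  ring

private theorem lp_lo {P T : ℝ} (hP : 6 ≤ P) (hT : T ≤ P) :
    (max T 0) ^ 2 / (2 * P) - P / 8 ≤ max (T - P / 2) 0 := by
  have h2 : (0 : ℝ) < 2 * P := by linarith
  rw [sub_le_iff_le_add, div_le_iff₀ h2]
  rcases le_total T 0 with h | h
  · rw [max_eq_right h]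
    have h3 : 0 ≤ max (T - P / 2) 0 := le_max_right _ _
    have h4 : 0 ≤ (max (T - P / 2) 0 + P / 8) * (2 * P) :=
      mul_nonneg (by linarith) h2.le
    linarith
  rw [max_eq_left h]
  rcases le_total T (P / 2) with h3 | h3
  · rw [max_eq_right (by linarith : T - P / 2 ≤ 0)]
    nlinarith
  · rw [max_eq_left (by linarith : 0 ≤ T - P / 2)]
    nlinarith

private theorem lp_sum (P T : ℝ) (n : ℕ) :
    ∑ b ∈ Finset.range (n + 1), max (T - P * ((b : ℝ) + 1 / 2)) 0 =
      max (T - P / 2) 0 + ∑ b ∈ Finset.range n, max (T - P - P * ((b : ℝ) + 1 / 2)) 0 := by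
  rw [Finset.sum_range_succ', add_comm]
  have h1 : T - P * (((0 : ℕ) : ℝ) + 1 / 2) = T - P / 2 := by
    rw [Nat.cast_zero]
    ring
  rw [h1]
  refine congrArg (fun x => max (T - P / 2) 0 + x) (Finset.sum_congr rfl fun b _ => ?_)
  have h2 : T - P * (((b + 1 : ℕ) : ℝ) + 1 / 2) = T - P - P * ((b : ℝ) + 1 / 2) := by
    rw [Nat.cast_succ]
    ring
  rw [h2]

/-- HG11. The ideal rows `T - P (b + 1 / 2)`: with `t = T / P`, `k` the nearest integer to `t`, the
sum of all of them is `P (t ^ 2 / 2 - (t - k) ^ 2 / 2)`; the rows `b ≥ n` contribute at most `3`.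
(Induction on `n`, `T - P (n + 1 / 2)` arbitrary, or directly.) -/
theorem ideal_sum {P T : ℝ} {n : ℕ} (hP : 6 ≤ P) (hn : T - P * (n + 1 / 2) ≤ 3) :
    (max T 0) ^ 2 / (2 * P) - P / 8 - 3 ≤
        ∑ b ∈ Finset.range n, max (T - P * (b + 1 / 2)) 0 ∧
      ∑ b ∈ Finset.range n, max (T - P * (b + 1 / 2)) 0 ≤ (max T 0) ^ 2 / (2 * P) := by
  induction n generalizing T with
  | zero =>
    rw [Finset.sum_range_zero, Nat.cast_zero] at *
    have h2 : (0 : ℝ) < 2 * P := by linarith
    refine ⟨?_, div_nonneg (sq_nonneg _) h2.le⟩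
    rw [sub_sub, sub_le_iff_le_add, zero_add, div_le_iff₀ h2]
    have h3 : max T 0 ≤ P / 2 + 3 := max_le (by linarith) (by linarith)
    have h4 : 0 ≤ max T 0 := le_max_right _ _
    nlinarith
  | succ n ih =>
    have h1 : T - P - P * ((n : ℝ) + 1 / 2) ≤ 3 := by
      rw [Nat.cast_succ] at hn
      linarith
    obtain ⟨h2, h3⟩ := ih h1
    rw [lp_sum]
    constructor
    · rcases le_total T P with h4 | h4
      · have h5 := lp_lo hP h4
        have h6 : 0 ≤ ∑ b ∈ Finset.range n, max (T - P - P * ((b : ℝ) + 1 / 2)) 0 :=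
          Finset.sum_nonneg fun b _ => le_max_right _ _
        linarith
      · have h5 := lp_eq hP h4
        linarith
    · have h5 := lp_up (T := T) hP
      linarith

/-- HG12. few ideal rows are in an interval: the `b` with `c1 < I - P b < c2` are at most
`(c2 - c1) / P + 1` -/
theorem count_near {P I c1 c2 : ℝ} (hP : 0 < P) (hc : c1 ≤ c2) (n : ℕ) :
    (((Finset.range n).filter fun b : ℕ => c1 < I - P * b ∧ I - P * b < c2).card : ℝ) ≤
      (c2 - c1) / P + 1 := by
  set S := (Finset.range n).filter fun b : ℕ => c1 < I - P * b ∧ I - P * b < c2 with hS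
  rcases S.eq_empty_or_nonempty with h | h
  · rw [h, Finset.card_empty, Nat.cast_zero]
    have h1 : 0 ≤ (c2 - c1) / P := div_nonneg (by linarith) hP.le
    linarith
  · have h1 : S ⊆ Finset.Icc (S.min' h) (S.max' h) := fun b hb =>
      Finset.mem_Icc.2 ⟨S.min'_le b hb, S.le_max' b hb⟩
    have h2 := Finset.card_le_card h1
    rw [Nat.card_Icc] at h2
    have hm : ∀ b ∈ S, c1 < I - P * b ∧ I - P * b < c2 := fun b hb => (Finset.mem_filter.1 hb).2
    have h3 := hm _ (S.min'_mem h)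
    have h4 := hm _ (S.max'_mem h)
    have h5 : S.min' h ≤ S.max' h := S.min'_le _ (S.max'_mem h)
    have h6 : (S.card : ℝ) ≤ (S.max' h : ℝ) + 1 - (S.min' h : ℝ) := by
      have h7 : S.card + S.min' h ≤ S.max' h + 1 := by omega
      have h8 : (S.card : ℝ) + (S.min' h : ℝ) ≤ (S.max' h : ℝ) + 1 := by exact_mod_cast h7
      linarith
    have h7 : (S.max' h : ℝ) - (S.min' h : ℝ) ≤ (c2 - c1) / P := by
      rw [le_div_iff₀ hP]
      nlinarith [h3.2, h4.1]
    linarith

end Pool.Agent.Lib.MP_6b2d39_agHg
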