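import Pool.Agent.Lib.MP_6b2d39_agHg.PiecesA
import Pool.Agent.Lib.MP_6b2d39_agHg.Glue
import Pool.Agent.Lib.MP_6b2d39_agHl.Step

set_option autoImplicit false

namespace Pool.Agent.Lib.MP_6b2d39_agHg

open Pool.Agent.Lib.MP_6b2d39_agHl Pool.Agent.Lib.MP_6b2d39_agNw

private theorem pb_R {q N : ℕ} (hq : 1 ≤ q) : LL q N ≤ q ^ 2 * (N / q + 1) := by
  have h1 : LL q N ≤ q * N := Nat.sub_le _ _
  have h2 : N < q * (N / q + 1) := Nat.lt_mul_div_succ N hq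
  have h3 : q * N ≤ q * (q * (N / q + 1)) := Nat.mul_le_mul_left q h2.le
  calc LL q N ≤ q * N := h1
    _ ≤ q * (q * (N / q + 1)) := h3
    _ = q ^ 2 * (N / q + 1) := by ring

private theorem pb_sub {D : Finset (ℕ × ℕ)} {L Q : ℕ} {t : ℝ} : lft D L Q t ⊆ D := by
  unfold lft
  exact Finset.filter_subset _ _

private theorem pb_union {D : Finset (ℕ × ℕ)} {L Q : ℕ} {t : ℝ} (h0 : 0 ≤ t) (h1 : t ≤ 1) :
    (lft D L Q 1 \ lft D L Q t) ∪ (D \ lft D L Q 1) = D \ lft D L Q t := by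
  have h2 : lft D L Q t ⊆ lft D L Q 1 := lft_mono h0 h1
  have h3 : lft D L Q 1 ⊆ D := pb_sub
  ext p
  rw [Finset.mem_union, Finset.mem_sdiff, Finset.mem_sdiff, Finset.mem_sdiff]
  constructor
  · rintro (⟨h4, h5⟩ | ⟨h4, h5⟩)
    · exact ⟨h3 h4, h5⟩
    · exact ⟨h4, fun h6 => h5 (h2 h6)⟩
  · rintro ⟨h4, h5⟩
    by_cases h6 : p ∈ lft D L Q 1
    · exact Or.inl ⟨h6, h5⟩
    · exact Or.inr ⟨h4, h6⟩

/-- HG67. THE PIECES. `D = DQ q N`, `R = N / q + 1` (`LL q N ≤ q N ≤ q ^ 2 R`), `thresholds` for the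
numbers `c j` (`surplus`: `2 (D \ lft 1).card ≤ q ^ 2 ≤ 2 c`), `card_DQ`; the pieces `j < g - 1` from
`pc_reg` (`t0 = t j`, `t1 = t (j + 1)`), the piece `g - 1` from `pc_last` (`t0 = t (g - 1)`;
`(lft 1 \ lft t0) ∪ (D \ lft 1) = D \ lft t0`); `card_sum`; `glue` and `step`
(`dgm (stp q N (tri N)) N = DQ q N`). -/
theorem pieces {q N g : ℕ} (hq : 1 ≤ q) (hN : q ≤ N) (hg : 1 ≤ g) {c : Fin g → ℝ}
    (hc : ∀ j, (q : ℝ) ^ 2 / 2 ≤ c j) (hs : ∑ j, c j = (N : ℝ) * (N + 1) / 2) :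
    ∃ (P Z : Fin g → Finset (ℕ × ℕ)) (s B : Fin g → ℕ) (t0 t1 : Fin g → ℝ),
      (∀ j, Pc q N (P j) (Z j) (s j) (B j) (t0 j) (t1 j)) ∧
      (∀ j, |((P j ∪ Z j).card : ℝ) - c j| ≤ (N : ℝ) / q + 2) ∧
      ∑ j, ((P j ∪ Z j).card : ℝ) = (N : ℝ) * (N + 1) / 2 ∧
      ∀ (ι : Type) [Fintype ι] [DecidableEq ι] (m : ι → ℕ) (k : ι → Fin g),
        (∀ j, EmpQ (P j ∪ Z j) m (Finset.univ.filter fun i => k i = j)) →
        EmpQ (dgm (tri N) N) m Finset.univ := by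
  classical
  obtain ⟨D, hD⟩ : ∃ D, D = DQ q N := ⟨_, rfl⟩
  obtain ⟨c', hc'⟩ : ∃ c' : ℕ → ℝ, c' = fun j => if h : j < g then c ⟨j, h⟩ else 0 := ⟨_, rfl⟩
  have hcc : ∀ j : Fin g, c' j = c j := by
    intro j
    rw [hc']
    exact dif_pos j.2
  have hcj : ∀ (j : ℕ) (h : j < g), c' j = c ⟨j, h⟩ := by
    intro j h
    rw [hc']
    exact dif_pos h
  have hc0 : ∀ j, j < g → 0 ≤ c' j := by
    intro j h
    rw [hcj j h]
    have h1 := hc ⟨j, h⟩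
    have h2 : (0 : ℝ) ≤ (q : ℝ) ^ 2 / 2 := by positivity
    linarith
  have hsum : ∑ j ∈ Finset.range g, c' j = D.card := by
    rw [hD, card_DQ hq, Finset.sum_range, ← hs]
    exact Finset.sum_congr rfl fun j _ => hcc j
  obtain ⟨_, _, _, hsur, _⟩ := surplus hq hN
  have hX : ((D \ lft D (LL q N) (q ^ 2) 1).card : ℝ) ≤ c' (g - 1) := by
    rw [hcj (g - 1) (by omega)]
    have h1 := hc ⟨g - 1, by omega⟩
    have h2 : (2 : ℝ) * ((D \ lft D (LL q N) (q ^ 2) 1).card : ℝ) ≤ (q : ℝ) ^ 2 := by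
      rw [hD]
      exact_mod_cast hsur
    linarith
  obtain ⟨t, ht0, htm, htb, hreg, hlast⟩ := thresholds (pb_R hq) hg hc0 hsum hX
  have hR : ((N / q + 1 : ℕ) : ℝ) ≤ (N : ℝ) / q + 2 := by
    have h1 : ((N / q : ℕ) : ℝ) ≤ (N : ℝ) / q := Nat.cast_div_le
    push_cast
    linarith
  obtain ⟨PZ, hPZ⟩ : ∃ PZ : ℕ → Finset (ℕ × ℕ), PZ = fun j => if j + 1 < g then
      lft D (LL q N) (q ^ 2) (t (j + 1)) \ lft D (LL q N) (q ^ 2) (t j) else
      D \ lft D (LL q N) (q ^ 2) (t j) := ⟨_, rfl⟩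
  have hPZ1 : ∀ j, j + 1 < g → PZ j =
      lft D (LL q N) (q ^ 2) (t (j + 1)) \ lft D (LL q N) (q ^ 2) (t j) := by
    intro j h
    rw [hPZ]
    exact if_pos h
  have hPZ2 : ∀ j, ¬ j + 1 < g → PZ j = D \ lft D (LL q N) (q ^ 2) (t j) := by
    intro j h
    rw [hPZ]
    exact if_neg h
  have hex : ∀ j : Fin g, ∃ (P Z : Finset (ℕ × ℕ)) (s B : ℕ) (t0 t1 : ℝ),
      Pc q N P Z s B t0 t1 ∧ P ∪ Z = PZ j := by
    intro j
    by_cases hj : (j : ℕ) + 1 < g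
    · obtain ⟨s, h⟩ := pc_reg hq hN (htb j).1 (htm (Nat.le_succ j)) (htb (j + 1)).2
      refine ⟨_, _, s, 0, _, _, h, ?_⟩
      rw [Finset.union_empty, hPZ1 j hj, hD]
    · obtain ⟨B, h⟩ := pc_last hq hN (htb j).1 (htb j).2
      refine ⟨_, _, q ^ 2, B, _, _, h, ?_⟩
      rw [pb_union (htb j).1 (htb j).2, hPZ2 j hj, hD]
  choose P Z s B t0 t1 hpc hu using hex
  refine ⟨P, Z, s, B, t0, t1, hpc, ?_, ?_, ?_⟩
  · intro j
    rw [hu j]
    by_cases hj : (j : ℕ) + 1 < g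
    · rw [hPZ1 j hj, ← hcc j]
      exact (hreg j hj).trans hR
    · have hj1 : (j : ℕ) = g - 1 := by
        have := j.2
        omega
      rw [hPZ2 j hj, ← hcc j, hj1]
      exact hlast.trans hR
  · have h1 : ∑ j, ((P j ∪ Z j).card : ℝ) = ∑ j ∈ Finset.range g, ((PZ j).card : ℝ) := by
      rw [Finset.sum_range]
      exact Finset.sum_congr rfl fun j _ => by rw [hu j]
    obtain ⟨g', rfl⟩ : ∃ g', g = g' + 1 := ⟨g - 1, by omega⟩
    rw [h1, Finset.sum_range_succ, hPZ2 g' (by omega), ← card_DQ hq, ← hD,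
      ← card_sum (D := D) (L := LL q N) (Q := q ^ 2) (g := g') ht0 htm]
    congr 1
    refine Finset.sum_congr rfl fun j hj => ?_
    rw [hPZ1 j (by have := Finset.mem_range.1 hj; omega)]
  · intro ι _ _ m k h
    have hf : ∀ j : Fin g, (Finset.univ.filter fun i => k i = j) =
        (Finset.univ.filter fun i => (k i : ℕ) = (j : ℕ)) := by
      intro j
      refine Finset.filter_congr fun i _ => ?_
      rw [Fin.ext_iff]
    have h' : ∀ (j : ℕ), j < g → EmpQ (PZ j) m (Finset.univ.filter fun i => (k i : ℕ) = j) := by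
      intro j hj
      have h1 := h ⟨j, hj⟩
      rw [hu ⟨j, hj⟩, hf ⟨j, hj⟩] at h1
      exact h1
    refine step hq ?_
    have h2 : EmpQ D m Finset.univ := by
      refine glue (n := N) (L := LL q N) (Q := q ^ 2) (k := fun i => (k i : ℕ)) ?_ hg ht0 htm (fun i => (k i).2) ?_ ?_
      · intro p hp
        rw [hD] at hp
        unfold DQ at hp
        exact (mem_dgm.1 hp).1
      · intro j hj
        have h1 := h' j (by omega)
        rwa [hPZ1 j hj] at h1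
      · have h1 := h' (g - 1) (by omega)
        rwa [hPZ2 (g - 1) (by omega)] at h1
    rw [hD] at h2
    exact h2

end Pool.Agent.Lib.MP_6b2d39_agHg
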