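import Pool.Agent.Lib.MP_6b2d39_agHg.OneP
import Pool.Agent.Lib.MP_6b2d39_agHg.Share
import Pool.Agent.Lib.MP_6b2d39_agHg.Fibre
import Pool.Agent.Lib.MP_6b2d39_agHg.PiecesB

set_option autoImplicit false

namespace Pool.Agent.Lib.MP_6b2d39_agHg

open Pool.Agent.Lib.MP_6b2d39_agHl Pool.Agent.Lib.MP_6b2d39_ag Pool.Agent.Lib.MP_6b2d39_agNw

/-- HG68. `pieces` with `c j = Mj + v / g` (`num_sm`, `share_g`, `share_m`, `size_cl`), `one_piece` for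
every class with the points `emp_class`. If `v ≥ 0`, then `u j = a j - Mj` (nonnegative by `pos_cl`)
has the sum `u`: `exists_fibres`; if `v < 0`, then `u = 0`. -/
theorem main_g : ∃ N0 : ℝ, ∀ (ν : ℝ) (h g N u : ℕ) (k : Fin h → Fin g) (m : Fin g → ℕ)
    (μ : Fin h → ℕ), N0 ≤ ν → 1 ≤ g → (∀ i, μ i = m (k i) ∨ μ i = m (k i) + 1) →
    (∀ j, 100 ≤ m j ∧ ν ≤ (Finset.univ.filter fun i => k i = j).card ∧
      ((Finset.univ.filter fun i => k i = j).card : ℝ) * (m j + 1) ≤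
        Real.exp (ν ^ (1 / 250 : ℝ)) ∧
      ν ^ (-(1 / 200) : ℝ) * ((∑ i, (μ i + 1) ^ 2 : ℕ) : ℝ) ≤
        ((Finset.univ.filter fun i => k i = j).card : ℝ) * ((m j : ℝ) + 1) ^ 2) →
    ∀ v : ℝ, (N : ℝ) * (N + 1) / 2 = ((∑ i, (μ i + 1).choose 2 : ℕ) : ℝ) + v →
    (-(2 * (N : ℝ)) ≤ v ∧ v ≤ -(ν ^ (-(1 / 25) : ℝ) * ((N : ℝ) - 1)) ∧ u = 0 ∨
      ν ^ (-(1 / 25) : ℝ) * ((N : ℝ) - 1) ≤ v ∧ v = u) →
    EmpQ (dgm (tri N) N) (Sum.elim μ (fun _ => 1) : Fin h ⊕ Fin u → ℕ) Finset.univ := by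
  classical
  obtain ⟨N1, H1⟩ := one_piece
  obtain ⟨N2, H2⟩ := num_sm
  refine ⟨max N1 N2, ?_⟩
  intro ν h g N u k m μ hν hg hμ hj v hv hcase
  have hν1 : N1 ≤ ν := (le_max_left _ _).trans hν
  have hν2 : N2 ≤ ν := (le_max_right _ _).trans hν
  obtain ⟨q, hq⟩ : ∃ q : ℕ, q = ⌊ν ^ (1 / 20 : ℝ)⌋₊ := ⟨_, rfl⟩
  have hs := H2 ν q hν2 hq
  have hσ0 := hs.s0
  have hq1 := hs.q1
  have hν0 : 1 ≤ ν := by
    have h3 : (1 : ℝ) ≤ (q : ℝ) ^ 20 := one_le_pow₀ (by linarith)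
    linarith [hs.qν]
  have hn : ∀ j, 1 ≤ (Finset.univ.filter fun i => k i = j).card := by
    intro j
    have h3 : (1 : ℝ) ≤ ((Finset.univ.filter fun i => k i = j).card : ℝ) :=
      hν0.trans (hj j).2.1
    exact_mod_cast h3
  have hgσ := share_g hμ hσ0 hn (fun j => (hj j).2.2.2)
  obtain ⟨M, hM⟩ : ∃ M : ℝ, M = ((∑ i, (μ i + 1).choose 2 : ℕ) : ℝ) := ⟨_, rfl⟩
  obtain ⟨Mn, hMn⟩ : ∃ Mn : Fin g → ℕ, ∀ j, Mn j =
      ∑ i ∈ Finset.univ.filter (fun i => k i = j), (μ i + 1).choose 2 := ⟨_, fun _ => rfl⟩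
  have hsum : ∑ j, Mn j = ∑ i, (μ i + 1).choose 2 := by
    rw [Finset.sum_congr rfl fun j _ => hMn j]
    exact Finset.sum_fiberwise _ _ _
  have hsumR : ∑ j, (Mn j : ℝ) = M := by
    rw [hM, ← hsum, Nat.cast_sum]
  have hg1 : (1 : ℝ) ≤ g := by exact_mod_cast hg
  have hv0 : -(2 * (N : ℝ)) ≤ v := by
    rcases hcase with h3 | ⟨-, h3⟩
    · exact h3.1
    · rw [h3]
      have h4 : (0 : ℝ) ≤ u := Nat.cast_nonneg u
      have h5 : (0 : ℝ) ≤ N := Nat.cast_nonneg N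
      linarith
  have hC : ∀ j, Cn ν (ν ^ (-(1 / 200) : ℝ)) N M v g
      ((Finset.univ.filter fun i => k i = j).card : ℝ) (m j) (Mn j) := by
    intro j
    obtain ⟨h3, h4, h5, h6⟩ := share_m hμ hσ0 (fun j => (hj j).1) (fun j => (hj j).2.2.2) j
      rfl hM (congrArg (fun a : ℕ => (a : ℝ)) (hMn j))
    exact ⟨Nat.cast_nonneg N, by rw [hM]; exact hv, hv0, hg1, hgσ, (hj j).2.1,
      by exact_mod_cast (hj j).1, h3, h4, h5, h6⟩
  have hS := fun j => size_cl hs (hC j)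
  have hqN : (q : ℝ) ≤ N := by
    have h3 := (hS ⟨0, hg⟩).1
    have h4 : (q : ℝ) ≤ (q : ℝ) ^ 10 := le_self_pow₀ (by linarith) (by norm_num)
    have h5 : (0 : ℝ) ≤ (q : ℝ) ^ 10 := by positivity
    linarith
  have hcs : ∑ j : Fin g, ((Mn j : ℝ) + v / g) = (N : ℝ) * (N + 1) / 2 := by
    rw [Finset.sum_add_distrib, hsumR, Finset.sum_const, Finset.card_univ, Fintype.card_fin,
      nsmul_eq_mul, hv, hM]
    congr 1
    field_simp
  obtain ⟨P, Z, s, B, t0, t1, hP, hc, hcard, hglue⟩ := pieces (q := q) (N := N) (g := g)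
    (by
      have h3 : (1 : ℝ) ≤ q := by linarith
      exact_mod_cast h3) (by exact_mod_cast hqN) hg
    (c := fun j => (Mn j : ℝ) + v / g) (fun j => (hS j).2.2) hcs
  have hdone : ∀ c' : Fin u → Fin g,
      (∀ j, v ≤ -(ν ^ (-(1 / 25) : ℝ) * ((N : ℝ) - 1)) ∨
        ν ^ (-(1 / 25) : ℝ) * ((N : ℝ) - 1) ≤ v ∧ ((P j ∪ Z j).card : ℝ) - (Mn j : ℝ) ≤
          ((Finset.univ.filter fun l => c' l = j).card : ℝ)) →
      EmpQ (dgm (tri N) N) (Sum.elim μ (fun _ => 1) : Fin h ⊕ Fin u → ℕ) Finset.univ := by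
    intro c' hc'
    refine hglue (Fin h ⊕ Fin u) (Sum.elim μ (fun _ => 1)) (Sum.elim k c') fun j => ?_
    obtain ⟨e, he, hF, hE⟩ := emp_class k c' μ j
      (n' := (Finset.univ.filter fun i => k i = j).card)
      (u' := (Finset.univ.filter fun l => c' l = j).card) rfl rfl
    have hMe : ∑ i, (μ (e i) + 1).choose 2 = Mn j := by
      rw [hMn j]
      exact hF fun i => (μ i + 1).choose 2
    refine hE (P j ∪ Z j) (H1 ν (t0 j) (t1 j) M v g q _ (m j) _ N (s j) (B j) (P j) (Z j)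
      (fun i => μ (e i)) hν1 hq (hP j) (hj j).2.2.1 (fun i => ?_) ?_ ?_ ?_)
    · have h3 := hμ (e i)
      rw [he i] at h3
      exact h3
    · rw [hMe]
      exact hC j
    · rw [hMe]
      exact hc j
    · rw [hMe]
      exact hc' j
  rcases hcase with ⟨-, h3, h4⟩ | ⟨h3, h4⟩
  · subst h4
    exact hdone Fin.elim0 fun j => Or.inl h3
  · have hpos : ∀ j, Mn j ≤ (P j ∪ Z j).card := by
      intro j
      obtain ⟨-, h5⟩ := pos_cl hs (hC j) h3 le_rfl (hc j) (hP j).up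
      have h6 : 0 ≤ 12 * (m j : ℝ) * √((Finset.univ.filter fun i => k i = j).card : ℝ) /
          (q * √(t1 j - t0 j)) := by positivity
      have h7 : (Mn j : ℝ) ≤ ((P j ∪ Z j).card : ℝ) := by linarith
      exact_mod_cast h7
    have hu : ∑ j, ((P j ∪ Z j).card - Mn j) = u := by
      have h5 : ((∑ j, ((P j ∪ Z j).card - Mn j) : ℕ) : ℝ) = (u : ℝ) := by
        rw [Nat.cast_sum, Finset.sum_congr rfl fun j _ => Nat.cast_sub (hpos j),
          Finset.sum_sub_distrib, hcard, hsumR, hv, ← hM, ← h4]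
        ring
      exact_mod_cast h5
    obtain ⟨c', hc'⟩ := exists_fibres (fun j => (P j ∪ Z j).card - Mn j) hu
    refine hdone c' fun j => Or.inr ⟨h3, ?_⟩
    rw [hc' j, Nat.cast_sub (hpos j)]

end Pool.Agent.Lib.MP_6b2d39_agHg
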