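import Pool.Agent.Lib.MP_6b2d39_agHg.Defs

set_option autoImplicit false

namespace Pool.Agent.Lib.MP_6b2d39_agHg

open Pool.Agent.Lib.MP_6b2d39_agHz

/-- HG16. as `miss_bd` (`Hz/MissBd.lean`): `j = i - k`, `a + s k + 1 ≤ r j ≤ x Au - x ^ 2 j` and
`r i ≥ x (Al + 1) - x ^ 2 - x ^ 2 i` -/
theorem miss_bd_g {x Au Al : ℝ} {s b n i a : ℕ} {r : ℕ → ℕ} (h : Rw x Au Al n r)
    (hm : Miss s b r i a) :
    ∃ k : ℕ, 1 ≤ k ∧ k ≤ i ∧ s * b ≤ a + s * k ∧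
      (a : ℝ) + s * k + 1 ≤ x * Au - x ^ 2 * i + x ^ 2 * k ∧
      (a : ℝ) ≤ r i + Dm x Au Al - 1 - (s - x ^ 2) * k := by
  obtain ⟨_, _, k, hk1, hki, hb, hk⟩ := hm
  have h1 : (a : ℝ) + s * k + 1 ≤ r (i - k) := by exact_mod_cast hk
  have h2 := h.up (i - k)
  have h3 : ((i - k : ℕ) : ℝ) = (i : ℝ) - k := Nat.cast_sub hki
  rw [h3] at h2
  have h4 : (0 : ℝ) ≤ (a : ℝ) + s * k := by positivity
  have h5 : (a : ℝ) + s * k + 1 ≤ x * Au - x ^ 2 * (i - k) := by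
    rcases le_max_iff.1 (h1.trans h2) with h6 | h6
    · exact h6
    · linarith
  have h7 := h.lo i
  unfold Dm
  refine ⟨k, hk1, hki, hb, by linarith, by linarith⟩

/-- HG17. (`r i ≤ a`, `k ≥ 1`) -/
theorem no_miss_g {x Au Al : ℝ} {s b n i a : ℕ} {r : ℕ → ℕ} (hs0 : x ^ 2 ≤ s)
    (hs : Dm x Au Al ≤ s - x ^ 2) (h : Rw x Au Al n r) : ¬ Miss s b r i a := by
  intro hm
  obtain ⟨k, hk1, _, _, _, h1⟩ := miss_bd_g h hm
  have h2 : (r i : ℝ) ≤ a := by exact_mod_cast hm.2.1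
  have h3 : (1 : ℝ) ≤ k := by exact_mod_cast hk1
  have h4 := mul_le_mul_of_nonneg_left h3 (show (0 : ℝ) ≤ s - x ^ 2 by linarith)
  linarith

end Pool.Agent.Lib.MP_6b2d39_agHg
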