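import Mathlib

set_option autoImplicit false

namespace Pool.Agent.Lib.MP_6b2d39_agHg

/-- the small numbers -/
structure Sm (ν q σ ε : ℝ) : Prop where
  q1 : 1000000 ≤ q
  qν : q ^ 20 ≤ ν
  s0 : 0 < σ
  s1 : σ ≤ 1
  e0 : 0 < ε
  e1 : ε ≤ 1 / 2
  es : 1000 ≤ q * ε * σ

/-- HG55. (`1 / 20 > 1 / 25 + 1 / 200`) -/
theorem num_sm : ∃ N0 : ℝ, ∀ (ν : ℝ) (q : ℕ), N0 ≤ ν → q = ⌊ν ^ (1 / 20 : ℝ)⌋₊ →
    Sm ν q (ν ^ (-(1 / 200) : ℝ)) (ν ^ (-(1 / 25) : ℝ)) := by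
  refine ⟨(2000 : ℝ) ^ (200 : ℕ), ?_⟩
  intro ν q hν hq
  have hν0 : (0 : ℝ) < ν := lt_of_lt_of_le (by positivity) hν
  obtain ⟨x, hx⟩ : ∃ x : ℝ, x = ν ^ (1 / 200 : ℝ) := ⟨_, rfl⟩
  have hx2 : (2000 : ℝ) ≤ x := by
    have h1 : ((2000 : ℝ) ^ (200 : ℕ)) ^ (1 / 200 : ℝ) ≤ ν ^ (1 / 200 : ℝ) :=
      Real.rpow_le_rpow (by positivity) hν (by norm_num)
    have h2 : ((2000 : ℝ) ^ (200 : ℕ)) ^ (1 / 200 : ℝ) = 2000 := by
      rw [← Real.rpow_natCast, ← Real.rpow_mul (by norm_num : (0 : ℝ) ≤ 2000)]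
      norm_num
    rw [h2] at h1
    rw [hx]
    exact h1
  have hx0 : (0 : ℝ) < x := by linarith
  have e20 : ν ^ (1 / 20 : ℝ) = x ^ 10 := by
    rw [hx, ← Real.rpow_natCast, ← Real.rpow_mul hν0.le]
    norm_num
  have e200 : ν ^ (-(1 / 200) : ℝ) = x⁻¹ := by
    rw [hx, Real.rpow_neg hν0.le]
  have e25 : ν ^ (-(1 / 25) : ℝ) = (x ^ 8)⁻¹ := by
    rw [hx, Real.rpow_neg hν0.le, ← Real.rpow_natCast, ← Real.rpow_mul hν0.le]
    norm_num
  have eν : ν = x ^ 200 := by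
    rw [hx, ← Real.rpow_natCast, ← Real.rpow_mul hν0.le]
    norm_num
  rw [e20] at hq
  have hx10 : (2000 : ℝ) ^ 10 ≤ x ^ 10 := pow_le_pow_left₀ (by norm_num) hx2 10
  have hq1 : (q : ℝ) ≤ x ^ 10 := by
    rw [hq]
    exact Nat.floor_le (by positivity)
  have hq2 : x ^ 10 - 1 < (q : ℝ) := by
    rw [hq]
    have := Nat.lt_floor_add_one (x ^ 10)
    linarith
  have hx8 : (2000 : ℝ) ^ 8 ≤ x ^ 8 := pow_le_pow_left₀ (by norm_num) hx2 8
  rw [e200, e25]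
  refine ⟨?_, ?_, ?_, ?_, ?_, ?_, ?_⟩
  · have : (1000001 : ℝ) ≤ (2000 : ℝ) ^ 10 := by norm_num
    linarith
  · rw [eν]
    calc (q : ℝ) ^ 20 ≤ (x ^ 10) ^ 20 := pow_le_pow_left₀ (Nat.cast_nonneg q) hq1 20
      _ = x ^ 200 := by ring
  · positivity
  · exact inv_le_one_of_one_le₀ (by linarith)
  · positivity
  · have h2 : (2 : ℝ) ≤ x ^ 8 := le_trans (by norm_num) hx8
    have h3 : (x ^ 8)⁻¹ ≤ (2 : ℝ)⁻¹ := inv_anti₀ (by norm_num) h2
    linarith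
  · have h4 : x ^ 10 / 2 ≤ (q : ℝ) := by
      have : (2 : ℝ) ≤ (2000 : ℝ) ^ 10 := by norm_num
      linarith
    have h5 : (0 : ℝ) < (x ^ 8)⁻¹ * x⁻¹ := by positivity
    have h6 : x ^ 10 / 2 * ((x ^ 8)⁻¹ * x⁻¹) = x / 2 := by
      field_simp
    calc (1000 : ℝ) ≤ x / 2 := by linarith
      _ = x ^ 10 / 2 * ((x ^ 8)⁻¹ * x⁻¹) := h6.symm
      _ ≤ (q : ℝ) * ((x ^ 8)⁻¹ * x⁻¹) := mul_le_mul_of_nonneg_right h4 h5.le
      _ = (q : ℝ) * (x ^ 8)⁻¹ * x⁻¹ := by ring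

/-- the numbers of a class: `N` the side of the triangle, `M` the number of conditions, `Mj` the
number of conditions of the class -/
structure Cn (ν σ N M v g n m Mj : ℝ) : Prop where
  N0 : 0 ≤ N
  mv : N * (N + 1) / 2 = M + v
  v0 : -(2 * N) ≤ v
  g1 : 1 ≤ g
  gσ : g * σ ≤ 1
  nν : ν ≤ n
  m1 : 100 ≤ m
  lo : n * m ^ 2 / 2 ≤ Mj
  hi : Mj ≤ n * ((m + 1) * (m + 2)) / 2
  sh : 98 / 100 * (σ * M) ≤ Mj
  le : Mj ≤ M

variable {ν q σ ε N M v g n m Mj a R τ : ℝ}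

private theorem sizeN (hs : Sm ν q σ ε) (hc : Cn ν σ N M v g n m Mj) : 50 * q ^ 10 ≤ N := by
  obtain ⟨q1, qν, s0, s1, e0, e1, es⟩ := hs
  obtain ⟨N0, mv, v0, g1, gσ, nν, m1, lo, hi, sh, le⟩ := hc
  by_contra hcon
  push Not at hcon
  have hQ : (1 : ℝ) ≤ q ^ 10 := one_le_pow₀ (by linarith)
  have hm2 : (10000 : ℝ) ≤ m ^ 2 := by nlinarith
  have hn : (q ^ 10) ^ 2 ≤ n := by
    have : (q ^ 10) ^ 2 = q ^ 20 := by ring
    rw [this]
    linarith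
  have h1 : (q ^ 10) ^ 2 * 10000 ≤ n * m ^ 2 :=
    mul_le_mul hn hm2 (by norm_num) (le_trans (by positivity) hn)
  have h2 : n * m ^ 2 ≤ N ^ 2 + 5 * N := by nlinarith
  have h3 : N ^ 2 ≤ (50 * q ^ 10) ^ 2 := pow_le_pow_left₀ N0 hcon.le 2
  nlinarith

private theorem qσ (hs : Sm ν q σ ε) : 2000 ≤ q * σ := by
  obtain ⟨q1, qν, s0, s1, e0, e1, es⟩ := hs
  have h0 : 0 ≤ q * σ := by
    have : 0 ≤ q := by linarith
    positivity
  nlinarith

private theorem sizeW (hs : Sm ν q σ ε) (hc : Cn ν σ N M v g n m Mj) :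
    0 < q ∧ 50 * q ^ 2 ≤ N / q ∧ N = q * (N / q) ∧ 1 ≤ N := by
  have hN := sizeN hs hc
  have q1 := hs.q1
  have q0 : 0 < q := by linarith
  have h3 : q ^ 3 ≤ q ^ 10 := pow_le_pow_right₀ (by linarith) (by norm_num)
  have hq3 : (1 : ℝ) ≤ q ^ 3 := one_le_pow₀ (by linarith)
  refine ⟨q0, ?_, ?_, ?_⟩
  · rw [le_div_iff₀ q0]
    nlinarith
  · field_simp
  · linarith

/-- the main comparison: `1000 N (N / q) ≤ σ T` -/
private theorem sigT (hs : Sm ν q σ ε) (hc : Cn ν σ N M v g n m Mj) :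
    1000 * (N * (N / q)) ≤ σ * (N * (N + 1) / 2) ∧ 0 < N * (N + 1) / 2 := by
  obtain ⟨q0, hw, hNw, hN1⟩ := sizeW hs hc
  have hσ := qσ hs
  have s0 := hs.s0
  refine ⟨?_, by nlinarith⟩
  have w0 : 0 ≤ N / q := le_trans (by positivity) hw
  have h1 : 0 ≤ N * (N / q) := by positivity
  have h2 : 2000 * (N * (N / q)) ≤ (q * σ) * (N * (N / q)) := mul_le_mul_of_nonneg_right hσ h1
  have h3 : (q * σ) * (N * (N / q)) = σ * (N * N) := by
    field_simp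
  rw [h3] at h2
  have h4 : 0 ≤ σ * N := by positivity
  nlinarith

/-- the small terms: `2 N + 2 (N / q + 2) + q ^ 2 / 2 ≤ σ T / 10` -/
private theorem smallT (hs : Sm ν q σ ε) (hc : Cn ν σ N M v g n m Mj) :
    2 * N + 2 * (N / q + 2) + q ^ 2 / 2 ≤ σ * (N * (N + 1) / 2) / 10 := by
  obtain ⟨q0, hw, hNw, hN1⟩ := sizeW hs hc
  obtain ⟨h1, h2⟩ := sigT hs hc
  have q1 := hs.q1
  have hq2 : (1000000000000 : ℝ) ≤ q ^ 2 := by nlinarith
  have hw1 : (100 : ℝ) ≤ N / q := by linarith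
  have h5 : N * 100 ≤ N * (N / q) := mul_le_mul_of_nonneg_left hw1 (by linarith)
  have h6 : N / q ≤ N := div_le_self (by linarith) (by linarith)
  have h7 : q ^ 2 ≤ N := by
    have : q ^ 2 ≤ N / q := by nlinarith
    linarith
  linarith

private theorem vg_lower (_hs : Sm ν q σ ε) (hc : Cn ν σ N M v g n m Mj) : -(2 * N) ≤ v / g := by
  have g1 := hc.g1
  have v0 := hc.v0
  have N0 := hc.N0
  have g0 : 0 < g := by linarith
  rw [le_div_iff₀ g0]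
  nlinarith

/-- the comparison of `τ` and of the number of conditions -/
private theorem tauT (hs : Sm ν q σ ε) (hc : Cn ν σ N M v g n m Mj)
    (hR : R ≤ N / q + 2) (ha : |a - (Mj + v / g)| ≤ R)
    (hτ : a ≤ τ * (N * (N + 1) / 2) + (N / q + 2) + q ^ 2 / 2)
    (hb : 98 / 100 * (σ * (N * (N + 1) / 2)) - 2 * N ≤ Mj + v / g) :
    88 / 100 * σ ≤ τ ∧ m * √n ≤ 7 / 6 * (N * √τ) := by
  obtain ⟨h1, h2⟩ := sigT hs hc
  have h3 := smallT hs hc
  obtain ⟨q0, hw, hNw, hN1⟩ := sizeW hs hc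
  have s0 := hs.s0
  have ha1 := (abs_le.mp ha).1
  have hvg := vg_lower hs hc
  have key : 88 / 100 * σ ≤ τ := by
    have h4 : (88 / 100 * σ) * (N * (N + 1) / 2) ≤ τ * (N * (N + 1) / 2) := by nlinarith
    exact le_of_mul_le_mul_right h4 h2
  refine ⟨key, ?_⟩
  have τ0 : 0 < τ := by linarith
  have n0 : 0 ≤ n := le_trans (le_trans (by positivity) hs.qν) hc.nν
  have hMj : Mj ≤ 98 / 88 * (τ * (N * (N + 1) / 2)) := by
    have h4 : (88 / 100 * σ) * (N * (N + 1) / 2) ≤ τ * (N * (N + 1) / 2) :=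
      mul_le_mul_of_nonneg_right key h2.le
    linarith
  have hlo := hc.lo
  have hN100 : (100 : ℝ) ≤ N := by
    have q1 := hs.q1
    have hq2 : (1000000000000 : ℝ) ≤ q ^ 2 := by nlinarith
    have h6 : N / q ≤ N := div_le_self (by linarith) (by linarith)
    linarith
  have hT : N * (N + 1) / 2 ≤ 51 / 100 * N ^ 2 := by nlinarith
  have h5 : m ^ 2 * n ≤ (7 / 6) ^ 2 * (N ^ 2 * τ) := by
    have h6 : τ * (N * (N + 1) / 2) ≤ τ * (51 / 100 * N ^ 2) :=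
      mul_le_mul_of_nonneg_left hT τ0.le
    have h7 : 0 ≤ τ * N ^ 2 := by positivity
    nlinarith
  have m0 : 0 ≤ m := by linarith [hc.m1]
  have h8 : (m * √n) ^ 2 ≤ (7 / 6 * (N * √τ)) ^ 2 := by
    rw [mul_pow, mul_pow, mul_pow, Real.sq_sqrt n0, Real.sq_sqrt τ0.le]
    exact h5
  exact (abs_le_of_sq_le_sq' h8 (by positivity)).2

private theorem lhs_le (hs : Sm ν q σ ε) (hc : Cn ν σ N M v g n m Mj) (hτ : 0 < τ)
    (h : m * √n ≤ 7 / 6 * (N * √τ)) : 12 * m * √n / (q * √τ) ≤ 14 * (N / q) := by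
  obtain ⟨q0, hw, hNw, hN1⟩ := sizeW hs hc
  have hs0 : 0 < √τ := Real.sqrt_pos.mpr hτ
  rw [div_le_iff₀ (by positivity)]
  have : 14 * (N / q) * (q * √τ) = 14 * (N * √τ) := by field_simp
  rw [this]
  nlinarith

/-- HG56. `N ^ 2 + 5 N ≥ 2 M ≥ n m ^ 2 ≥ 10000 q ^ 20`, so `50 q ^ 10 ≤ N`, `m ≤ N / 10`. If `v < 0`:
`Mj ≥ 98 / 100 σ M ≥ 49 / 100 σ N ^ 2 ≥ 980 N ^ 2 / q`. -/
theorem size_cl (hs : Sm ν q σ ε) (hc : Cn ν σ N M v g n m Mj) :
    50 * q ^ 10 ≤ N ∧ m + 1 ≤ N ∧ q ^ 2 / 2 ≤ Mj + v / g := by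
  refine ⟨sizeN hs hc, ?_, ?_⟩
  · by_contra hcon
    push Not at hcon
    obtain ⟨q1, qν, s0, s1, e0, e1, es⟩ := hs
    obtain ⟨N0, mv, v0, g1, gσ, nν, m1, lo, hi, sh, le⟩ := hc
    have hq : (100 : ℝ) ≤ q ^ 20 := by
      have : q ^ 1 ≤ q ^ 20 := pow_le_pow_right₀ (by linarith) (by norm_num)
      linarith [pow_one q]
    have hn : (100 : ℝ) ≤ n := by linarith
    have h2 : n * m ^ 2 ≤ N ^ 2 + 5 * N := by nlinarith
    have h3 : 100 * m ^ 2 ≤ n * m ^ 2 := mul_le_mul_of_nonneg_right hn (by positivity)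
    nlinarith
  · have g1 := hc.g1
    have g0 : 0 < g := by linarith
    obtain ⟨q0, hw, hNw, hN1⟩ := sizeW hs hc
    obtain ⟨h1, h2⟩ := sigT hs hc
    have h3 := smallT hs hc
    have q1 := hs.q1
    have s0 := hs.s0
    have hw0 : 0 ≤ N / q := le_trans (by positivity) hw
    by_cases hv : 0 ≤ v
    · have h4 : 0 ≤ v / g := by positivity
      have h5 : q ^ 2 ≤ q ^ 20 := pow_le_pow_right₀ (by linarith) (by norm_num)
      have hn : q ^ 20 ≤ n := le_trans hs.qν hc.nν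
      have hm2 : (1 : ℝ) ≤ m ^ 2 := by nlinarith [hc.m1]
      have hn0 : 0 ≤ n := le_trans (by positivity) hn
      have h6 : n * 1 ≤ n * m ^ 2 := mul_le_mul_of_nonneg_left hm2 hn0
      linarith [hc.lo]
    · push Not at hv
      have h4 := vg_lower hs hc
      have h5 : σ * (N * (N + 1) / 2) ≤ σ * M := by
        apply mul_le_mul_of_nonneg_left _ s0.le
        linarith [hc.mv]
      have h6 := hc.sh
      have hT : 0 ≤ σ * (N * (N + 1) / 2) := by positivity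
      linarith

private theorem a_gap (hs : Sm ν q σ ε) (hc : Cn ν σ N M v g n m Mj) :
    1000 * (N / q) - 1 ≤ σ * (ε * (N - 1)) := by
  obtain ⟨q0, hw, hNw, hN1⟩ := sizeW hs hc
  have es := hs.es
  have q1 := hs.q1
  have h1 : 1000 * (N - 1) ≤ (q * ε * σ) * (N - 1) :=
    mul_le_mul_of_nonneg_right es (by linarith)
  have h2 : (1000 * (N - 1)) / q ≤ ((q * ε * σ) * (N - 1)) / q :=
    div_le_div_of_nonneg_right h1 q0.le
  have h3 : ((q * ε * σ) * (N - 1)) / q = σ * (ε * (N - 1)) := by field_simp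
  have h4 : (1000 * (N - 1)) / q = 1000 * (N / q) - 1000 / q := by field_simp
  have h5 : 1000 / q ≤ 1 := by
    rw [div_le_one q0]
    linarith
  rw [h3, h4] at h2
  linarith

/-- HG57. With `T = N (N + 1) / 2`: `Mj + v / g ≥ 98 / 100 σ (M + v) = 98 / 100 σ T`, so
`τ T ≥ 88 / 100 σ T` and `n m ^ 2 ≤ 2 Mj ≤ 223 / 100 τ T`, so the left side is at most `14 N / q`; and
`a - Mj ≥ v / g - R ≥ 1000 (N - 1) / q - N / q - 2`. -/
theorem pos_cl (hs : Sm ν q σ ε) (hc : Cn ν σ N M v g n m Mj) (hv : ε * (N - 1) ≤ v)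
    (hR : R ≤ N / q + 2) (ha : |a - (Mj + v / g)| ≤ R)
    (hτ : a ≤ τ * (N * (N + 1) / 2) + (N / q + 2) + q ^ 2 / 2) :
    σ / 8 ≤ τ ∧ 12 * m * √n / (q * √τ) ≤ a - Mj := by
  obtain ⟨q0, hw, hNw, hN1⟩ := sizeW hs hc
  have s0 := hs.s0
  have e0 := hs.e0
  have g1 := hc.g1
  have g0 : 0 < g := by linarith
  have hv0 : 0 ≤ v := le_trans (by
    apply mul_nonneg e0.le
    linarith) hv
  have hvg : σ * v ≤ v / g := by
    rw [le_div_iff₀ g0]
    nlinarith [hc.gσ, mul_nonneg hv0 (sub_nonneg.mpr hc.gσ)]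
  have hb : 98 / 100 * (σ * (N * (N + 1) / 2)) - 2 * N ≤ Mj + v / g := by
    rw [hc.mv]
    have h1 := hc.sh
    have h2 : 0 ≤ σ * v := by positivity
    have h3 : σ * (M + v) = σ * M + σ * v := by ring
    rw [h3]
    linarith
  obtain ⟨h1, h2⟩ := tauT hs hc hR ha hτ hb
  have τ0 : 0 < τ := by linarith
  refine ⟨by linarith, ?_⟩
  have h3 := lhs_le hs hc τ0 h2
  have h4 := a_gap hs hc
  have h5 : σ * (ε * (N - 1)) ≤ σ * v := mul_le_mul_of_nonneg_left hv s0.le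
  have ha1 := (abs_le.mp ha).1
  have q1 := hs.q1
  have hq2 : (1000000000000 : ℝ) ≤ q ^ 2 := by nlinarith
  linarith

/-- HG58. `M ≥ T`, `a ≥ 98 / 100 σ T - 2 N - R`, the rest as in `pos_cl`; `a - Mj ≤ v / g + R`;
`a - Mj ≥ - 3 N`, and `(n m) ^ 2 ≥ n (1700 N ^ 2 / q) ≥ (150 N) ^ 2`. -/
theorem neg_cl (hs : Sm ν q σ ε) (hc : Cn ν σ N M v g n m Mj) (hv : v ≤ -(ε * (N - 1)))
    (hR : R ≤ N / q + 2) (ha : |a - (Mj + v / g)| ≤ R)
    (hτ : a ≤ τ * (N * (N + 1) / 2) + (N / q + 2) + q ^ 2 / 2) :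
    σ / 8 ≤ τ ∧ a - Mj ≤ -(12 * m * √n / (q * √τ)) ∧ -(n * m / 50) ≤ a - Mj := by
  obtain ⟨q0, hw, hNw, hN1⟩ := sizeW hs hc
  obtain ⟨hT1, hT2⟩ := sigT hs hc
  have s0 := hs.s0
  have e0 := hs.e0
  have g1 := hc.g1
  have g0 : 0 < g := by linarith
  have hv1 : 0 ≤ ε * (N - 1) := mul_nonneg e0.le (by linarith)
  have hv0 : v ≤ 0 := by linarith
  have hvg1 := vg_lower hs hc
  have hvg : v / g ≤ σ * v := by
    rw [div_le_iff₀ g0]
    nlinarith [hc.gσ, mul_nonneg (neg_nonneg.mpr hv0) (sub_nonneg.mpr hc.gσ)]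
  have hσM : σ * (N * (N + 1) / 2) ≤ σ * M := by
    apply mul_le_mul_of_nonneg_left _ s0.le
    linarith [hc.mv]
  have hb : 98 / 100 * (σ * (N * (N + 1) / 2)) - 2 * N ≤ Mj + v / g := by
    have h1 := hc.sh
    linarith
  obtain ⟨h1, h2⟩ := tauT hs hc hR ha hτ hb
  have τ0 : 0 < τ := by linarith
  have q1 := hs.q1
  have hq2 : (1000000000000 : ℝ) ≤ q ^ 2 := by nlinarith
  refine ⟨by linarith, ?_, ?_⟩
  · have h3 := lhs_le hs hc τ0 h2
    have h4 := a_gap hs hc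
    have h5 : σ * v ≤ σ * (-(ε * (N - 1))) := mul_le_mul_of_nonneg_left hv s0.le
    have ha1 := (abs_le.mp ha).2
    have h6 : σ * (-(ε * (N - 1))) = -(σ * (ε * (N - 1))) := by ring
    rw [h6] at h5
    linarith
  · have ha1 := (abs_le.mp ha).1
    have hw3 : 3 * (N / q) ≤ N := by
      have : (3 : ℝ) * (N / q) ≤ q * (N / q) := by
        apply mul_le_mul_of_nonneg_right (by linarith)
        exact le_trans (by positivity) hw
      linarith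
    have hw6 : (50000000000000 : ℝ) ≤ N / q := by linarith
    have h3 : -(3 * N) ≤ a - Mj := by linarith
    have hn : q ^ 20 ≤ n := le_trans hs.qν hc.nν
    have hn0 : 0 ≤ n := le_trans (by positivity) hn
    have m1 := hc.m1
    have h4 : 980 * (N * (N / q)) ≤ n * ((m + 1) * (m + 2)) / 2 := by
      linarith [hc.hi, hc.sh]
    have h5 : (m + 1) * (m + 2) ≤ 2 * m ^ 2 := by nlinarith
    have h6 : n * ((m + 1) * (m + 2)) ≤ n * (2 * m ^ 2) := mul_le_mul_of_nonneg_left h5 hn0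
    have h7 : 980 * (N * (N / q)) ≤ n * m ^ 2 := by nlinarith
    have hN0 : 0 ≤ N * (N / q) := by
      have : 0 ≤ N / q := by linarith
      positivity
    have hqn : 1000000 * q ≤ n := by
      have h8 : q ^ 2 ≤ q ^ 20 := pow_le_pow_right₀ (by linarith) (by norm_num)
      nlinarith
    have h8 : (150 * N) ^ 2 ≤ (n * m) ^ 2 := by
      have h9 : n * (980 * (N * (N / q))) ≤ n * (n * m ^ 2) := mul_le_mul_of_nonneg_left h7 hn0
      have h10 : (1000000 * q) * (980 * (N * (N / q))) ≤ n * (980 * (N * (N / q))) :=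
        mul_le_mul_of_nonneg_right hqn (by positivity)
      have h11 : (1000000 * q) * (980 * (N * (N / q))) = 980000000 * N ^ 2 := by
        field_simp
        ring
      have h12 : 0 ≤ N ^ 2 := by positivity
      nlinarith
    have h9 : 150 * N ≤ n * m := (abs_le_of_sq_le_sq' h8 (by positivity)).2
    linarith

end Pool.Agent.Lib.MP_6b2d39_agHg
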