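import Pool.Agent.Lib.MP_6b2d39_agHz.Defs
import Pool.Agent.Lib.MP_6b2d39_agHy.Defs

set_option autoImplicit false

namespace Pool.Agent.Lib.MP_6b2d39_agHg

open Pool.Agent.Lib.MP_6b2d39_agHz Pool.Agent.Lib.MP_6b2d39_agHy

variable {R m S M D a β B V f Au : ℝ}

/-- The facts on `Y = S / R + R / 2`. -/
private theorem ng_y (hR : 1000000 ≤ R) (h : Ms R m S M) :
    R * m + R / 2 ≤ S / R + R / 2 ∧ M ≤ (S / R + R / 2) ^ 2 / 2 ∧
      (S / R + R / 2) ^ 2 / 2 - R ^ 2 / 8 ≤ M := by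
  obtain ⟨s0, s1, m0, m1⟩ := h
  have hR0 : (0 : ℝ) < R := by linarith
  have e : (S + R ^ 2 / 2) ^ 2 / (2 * R ^ 2) = (S / R + R / 2) ^ 2 / 2 := by
    field_simp
  rw [e] at m0 m1
  have h1 : R * m ≤ S / R := by
    rw [le_div_iff₀ hR0]
    linarith
  exact ⟨by linarith, m0, m1⟩

/-- The lower bound. -/
private theorem ng_low (hR : 1000000 ≤ R) (hm : 100 ≤ m) {Y W : ℝ} (hY : R * m + R / 2 ≤ Y)
    (hD : 0 ≤ D) (hW : W ≤ 3 * R ^ 2 * m / 100)
    (h : Y ^ 2 / 2 - R ^ 2 / 8 - W - D ≤ D ^ 2 / 2) : Y - R / 8 ≤ D := by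
  by_contra hc
  push Not at hc
  have hRm : R * 100 ≤ R * m := mul_le_mul_of_nonneg_left hm (by linarith)
  have hR2m : R ^ 2 * 100 ≤ R ^ 2 * m := mul_le_mul_of_nonneg_left hm (by positivity)
  have hR2 : 1000000 * R ≤ R ^ 2 := by nlinarith
  have h1 : (D + 1) ^ 2 < (Y - R / 8 + 1) ^ 2 :=
    pow_lt_pow_left₀ (by linarith) (by linarith) two_ne_zero
  have h2 : (R * m + R / 2) * (R / 8 - 1) ≤ Y * (R / 8 - 1) :=
    mul_le_mul_of_nonneg_right hY (by linarith)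
  have h3 : 1000000 * (R * m) ≤ R ^ 2 * m := by
    have h4 : 1000000 * (R * m) ≤ R * (R * m) :=
      mul_le_mul_of_nonneg_right hR (by linarith)
    linarith
  nlinarith

/-- HG36. With `Y = S / R + R / 2`: `Y ^ 2 / 2 - R ^ 2 / 8 ≤ M ≤ Y ^ 2 / 2`, so
`D ^ 2 ≤ Y ^ 2 + 2 β D + 2 B`, `D ^ 2 ≥ Y ^ 2 - R ^ 2 / 4 - 2 V - 2 β D - 2 B`, and `Y ≥ R m`. -/
theorem d_near_g (hR : 1000000 ≤ R) (hm : 100 ≤ m) (h : Ms R m S M) (hD : 0 ≤ D) (hβ : 0 ≤ β)
    (hβ1 : β ≤ 1) (hB : 0 ≤ B) (hB1 : B ≤ R ^ 2 * m / 100) (hV : V ≤ R ^ 2 * m / 50)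
    (ha : |a - D ^ 2 / 2| ≤ β * D + B) (h1 : a ≤ M) (h2 : M - V ≤ a) :
    |D - (S / R + R / 2)| ≤ R / 8 := by
  have _ := hβ
  have _ := hB
  obtain ⟨y1, y2, y3⟩ := ng_y hR h
  obtain ⟨Y, hY⟩ : ∃ Y, Y = S / R + R / 2 := ⟨_, rfl⟩
  rw [← hY] at y1 y2 y3 ⊢
  obtain ⟨a1, a2⟩ := abs_le.1 ha
  have hβD : β * D ≤ D := mul_le_of_le_one_left hD hβ1
  have hRm : R * 100 ≤ R * m := mul_le_mul_of_nonneg_left hm (by linarith)
  have hR2m : R ^ 2 * 100 ≤ R ^ 2 * m := mul_le_mul_of_nonneg_left hm (by positivity)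
  rw [abs_le]
  constructor
  · have h3 := ng_low (W := V + B) hR hm y1 hD (by linarith) (by linarith)
    linarith
  · by_contra hc
    push Not at hc
    have h3 : (Y + R / 8 - 1) ^ 2 < (D - 1) ^ 2 :=
      pow_lt_pow_left₀ (by linarith) (by linarith) two_ne_zero
    have h4 : (R * m + R / 2) * (R / 8 - 1) ≤ Y * (R / 8 - 1) :=
      mul_le_mul_of_nonneg_right y1 (by linarith)
    have h5 : 1000000 * (R * m) ≤ R ^ 2 * m := by
      have h6 : 1000000 * (R * m) ≤ R * (R * m) :=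
        mul_le_mul_of_nonneg_right hR (by linarith)
      linarith
    have h7 : 0 ≤ (R / 8 - 1) ^ 2 := sq_nonneg _
    nlinarith

/-- HG37. -/
theorem d_lower_g (hR : 1000000 ≤ R) (hm : 100 ≤ m) (h : Ms R m S M) (hD : 0 ≤ D) (hβ : 0 ≤ β)
    (hβ1 : β ≤ 1) (hB : 0 ≤ B) (hB1 : B ≤ R ^ 2 * m / 100)
    (ha : |a - D ^ 2 / 2| ≤ β * D + B) (h1 : M ≤ a) : S / R + R / 2 - R / 8 ≤ D := by
  have _ := hβ
  have _ := hB
  obtain ⟨y1, y2, y3⟩ := ng_y hR h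
  obtain ⟨a1, a2⟩ := abs_le.1 ha
  have hβD : β * D ≤ D := mul_le_of_le_one_left hD hβ1
  have hR2m : R ^ 2 * 100 ≤ R ^ 2 * m := mul_le_mul_of_nonneg_left hm (by positivity)
  exact ng_low (W := B) hR hm y1 hD (by linarith) (by linarith)

/-- HG38. as `top_z` (`Hz/NumZA.lean`), `top_real` (`Hy/NumA.lean`): `T < (D + R / 100) / f` and
`T ≥ (D - R / 100) / f - 1` -/
theorem top_g (h : Fz R m f B) (h0 : 0 ≤ S) (hS : S ≤ R ^ 2 * (m + 1))
    (hD : |D - (S / R + R / 2)| ≤ R / 8) (hA : |Au - D| ≤ R / 100) {T : ℝ} (h1 : f * T < Au)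
    (h2 : Au ≤ f * (T + 1)) : T < S / R ^ 2 + 2 / 3 ∧ S / R ^ 2 - 2 / 3 ≤ T := by
  obtain ⟨r0, m0, xf0, xf1, xf2, b0, b1⟩ := h
  have hR : (0 : ℝ) < R := by linarith
  obtain ⟨hD1, hD2⟩ := abs_le.1 hD
  obtain ⟨hA1, hA2⟩ := abs_le.1 hA
  have hSR : S / R ≤ R * (m + 1) := by
    rw [div_le_iff₀ hR]
    linarith
  have hSR0 : 0 ≤ S / R := by positivity
  have hSR2 : S / R ^ 2 * R = S / R := by
    field_simp
  have hSR3 : 0 ≤ S / R ^ 2 := by positivity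
  have hRi : 1 / R * R = 1 := by
    field_simp
  have hRi0 : 0 < 1 / R := by positivity
  have hRi1 : 1 / R ≤ 1 := by
    rw [div_le_one hR]
    linarith
  have hRR : 1 / (2 * R) = 1 / 2 * (1 / R) := by
    field_simp
  rw [hRR] at xf2
  constructor
  · rcases lt_or_ge T 0 with hT | hT
    · linarith
    · have hxf : R / 2 ≤ f := by
        have h3 : (R - f) * 2 ≤ (R - f) * (m + 2) :=
          mul_le_mul_of_nonneg_left (by linarith) (by linarith)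
        linarith
      have h3 : T ≤ 2 * (m + 2) := by
        by_contra h4
        push Not at h4
        have h5 : R / 2 * (2 * (m + 2)) ≤ f * T :=
          mul_le_mul hxf h4.le (by linarith) xf0.le
        nlinarith
      have h4 : (R - f) * T ≤ 1 / R := by
        have h5 : (R - f) * T ≤ (R - f) * (2 * (m + 2)) :=
          mul_le_mul_of_nonneg_left h3 (by linarith)
        linarith
      have h5 : T * R < (S / R ^ 2 + 2 / 3) * R := by
        nlinarith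
      exact lt_of_mul_lt_mul_right h5 hR.le
  · have h3 : 0 ≤ T + 1 := by
      by_contra h4
      push Not at h4
      have h5 : f * (T + 1) < 0 := mul_neg_of_pos_of_neg xf0 h4
      linarith
    have h4 : f * (T + 1) ≤ R * (T + 1) := mul_le_mul_of_nonneg_right xf1 h3
    have h5 : (S / R ^ 2 - 2 / 3) * R ≤ T * R := by
      nlinarith
    exact le_of_mul_le_mul_right h5 hR

end Pool.Agent.Lib.MP_6b2d39_agHg
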