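import Mathlib

set_option autoImplicit false

namespace Pool.Agent.Lib.MP_6b2d39_agHg

/-- HG49. `q ≥ ν ^ (1 / 20) / 2`, so `κ ≥ ν ^ (19 / 200) / 32`, `(√κ) ^ (1 / 10) ≥ ν ^ (19 / 4000) / 2`
and `19 / 4000 > 1 / 250`. -/
theorem num_q (C : ℝ) : ∃ N0 : ℝ, ∀ (ν : ℝ) (q : ℕ), N0 ≤ ν → q = ⌊ν ^ (1 / 20 : ℝ)⌋₊ →
    C ≤ q ∧ (q : ℝ) ^ 20 ≤ ν ∧ ν ^ (1 / 20 : ℝ) ≤ 2 * q ∧
    ∀ κ : ℝ, (q : ℝ) ^ 2 * ν ^ (-(1 / 200) : ℝ) / 8 ≤ κ →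
      C ≤ √κ ∧ 4 + ν ^ (1 / 250 : ℝ) ≤ (√κ) ^ (1 / 10 : ℝ) := by
  have h20 : Filter.Tendsto (fun ν : ℝ => ν ^ (1 / 20 : ℝ)) Filter.atTop Filter.atTop :=
    tendsto_rpow_atTop (by norm_num)
  have h3 : Filter.Tendsto (fun ν : ℝ => ν ^ (3 / 4000 : ℝ)) Filter.atTop Filter.atTop :=
    tendsto_rpow_atTop (by norm_num)
  have h400 : Filter.Tendsto (fun ν : ℝ => ν ^ (19 / 400 : ℝ)) Filter.atTop Filter.atTop :=
    tendsto_rpow_atTop (by norm_num)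
  obtain ⟨N0, hN⟩ := Filter.eventually_atTop.1
    ((((h20.eventually_ge_atTop (|C| + 2)).and (h3.eventually_ge_atTop 27)).and
      (h400.eventually_ge_atTop (6 * |C|))).and (Filter.eventually_ge_atTop 1))
  refine ⟨N0, fun ν q hν hq => ?_⟩
  obtain ⟨⟨⟨a1, a2⟩, a3⟩, a4⟩ := hN ν hν
  have hν0 : 0 ≤ ν := by linarith
  have hν1 : 0 < ν := by linarith
  have hC1 : C ≤ |C| := le_abs_self C
  have hC0 : 0 ≤ |C| := abs_nonneg C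
  have e10 : (ν ^ (1 / 20 : ℝ)) ^ 2 = ν ^ (1 / 10 : ℝ) := by
    rw [← Real.rpow_natCast, ← Real.rpow_mul hν0]
    norm_num
  have e1 : (ν ^ (1 / 20 : ℝ)) ^ 20 = ν := by
    rw [← Real.rpow_natCast, ← Real.rpow_mul hν0]
    norm_num
  have hy0 : 0 ≤ ν ^ (1 / 20 : ℝ) := Real.rpow_nonneg hν0 _
  have hq1 : (q : ℝ) ≤ ν ^ (1 / 20 : ℝ) := by
    rw [hq]
    exact Nat.floor_le hy0
  have hq2 : ν ^ (1 / 20 : ℝ) < (q : ℝ) + 1 := by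
    rw [hq]
    exact Nat.lt_floor_add_one _
  have hq3 : ν ^ (1 / 20 : ℝ) ≤ 2 * (q : ℝ) := by linarith
  refine ⟨by linarith, ?_, hq3, fun κ hκ => ?_⟩
  · have h1 : (q : ℝ) ^ 20 ≤ (ν ^ (1 / 20 : ℝ)) ^ 20 :=
      pow_le_pow_left₀ (Nat.cast_nonneg q) hq1 20
    rw [e1] at h1
    exact h1
  · have hn0 : 0 ≤ ν ^ (-(1 / 200) : ℝ) := Real.rpow_nonneg hν0 _
    have h1 : ν ^ (19 / 200 : ℝ) / 32 ≤ κ := by
      refine le_trans ?_ hκ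
      have h2 : ν ^ (1 / 10 : ℝ) ≤ 4 * (q : ℝ) ^ 2 := by
        rw [← e10]
        have h4 : (ν ^ (1 / 20 : ℝ)) ^ 2 ≤ (2 * (q : ℝ)) ^ 2 := pow_le_pow_left₀ hy0 hq3 2
        have h5 : (2 * (q : ℝ)) ^ 2 = 4 * (q : ℝ) ^ 2 := by ring
        rw [h5] at h4
        exact h4
      have h4 : ν ^ (19 / 200 : ℝ) = ν ^ (1 / 10 : ℝ) * ν ^ (-(1 / 200) : ℝ) := by
        rw [← Real.rpow_add hν1]
        norm_num
      have h5 : ν ^ (1 / 10 : ℝ) * ν ^ (-(1 / 200) : ℝ) ≤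
          4 * (q : ℝ) ^ 2 * ν ^ (-(1 / 200) : ℝ) := mul_le_mul_of_nonneg_right h2 hn0
      rw [h4]
      linarith
    have h2 : ν ^ (19 / 400 : ℝ) / 6 ≤ √κ := by
      refine Real.le_sqrt_of_sq_le ?_
      have h4 : (ν ^ (19 / 400 : ℝ) / 6) ^ 2 = ν ^ (19 / 200 : ℝ) / 36 := by
        rw [div_pow, ← Real.rpow_natCast (ν ^ (19 / 400 : ℝ)), ← Real.rpow_mul hν0]
        norm_num
      rw [h4]
      have h5 : 0 ≤ ν ^ (19 / 200 : ℝ) := Real.rpow_nonneg hν0 _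
      linarith
    refine ⟨by linarith, ?_⟩
    have h4 : ν ^ (19 / 4000 : ℝ) / 2 ≤ (√κ) ^ (1 / 10 : ℝ) := by
      have h5 : 0 ≤ ν ^ (19 / 400 : ℝ) := Real.rpow_nonneg hν0 _
      have h6 : (ν ^ (19 / 400 : ℝ) / 6) ^ (1 / 10 : ℝ) ≤ (√κ) ^ (1 / 10 : ℝ) :=
        Real.rpow_le_rpow (by positivity) h2 (by norm_num)
      refine le_trans ?_ h6
      rw [Real.div_rpow h5 (by norm_num), ← Real.rpow_mul hν0]
      have h7 : (6 : ℝ) ^ (1 / 10 : ℝ) ≤ 2 := by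
        have h8 : (6 : ℝ) ^ (1 / 10 : ℝ) ≤ ((2 : ℝ) ^ (10 : ℝ)) ^ (1 / 10 : ℝ) := by
          refine Real.rpow_le_rpow (by norm_num) ?_ (by norm_num)
          have h9 : (2 : ℝ) ^ (10 : ℝ) = (2 : ℝ) ^ (10 : ℕ) := by
            rw [← Real.rpow_natCast]
            norm_num
          rw [h9]
          norm_num
        rw [← Real.rpow_mul (by norm_num)] at h8
        have h10 : (10 : ℝ) * (1 / 10) = 1 := by norm_num
        rw [h10, Real.rpow_one] at h8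
        exact h8
      have h8 : (19 / 400 : ℝ) * (1 / 10) = 19 / 4000 := by norm_num
      rw [h8]
      exact div_le_div_of_nonneg_left (Real.rpow_nonneg hν0 _)
        (Real.rpow_pos_of_pos (by norm_num) _) h7
    refine le_trans ?_ h4
    have h5 : ν ^ (19 / 4000 : ℝ) = ν ^ (1 / 250 : ℝ) * ν ^ (3 / 4000 : ℝ) := by
      rw [← Real.rpow_add hν1]
      norm_num
    have h6 : 1 ≤ ν ^ (1 / 250 : ℝ) := Real.one_le_rpow a4 (by norm_num)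
    have h7 : ν ^ (1 / 250 : ℝ) * 27 ≤ ν ^ (1 / 250 : ℝ) * ν ^ (3 / 4000 : ℝ) :=
      mul_le_mul_of_nonneg_left a2 (by linarith)
    rw [h5]
    linarith

end Pool.Agent.Lib.MP_6b2d39_agHg
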