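import Pool.Agent.Lib.MP_6b2d39_agHg.ClassG
import Pool.Agent.Lib.MP_6b2d39_agHg.NumE

set_option autoImplicit false

namespace Pool.Agent.Lib.MP_6b2d39_agHg

open Pool.Agent.Lib.MP_6b2d39_agHl Pool.Agent.Lib.MP_6b2d39_ag Pool.Agent.Lib.MP_6b2d39_agNw

/-- HG59. (`class_g`, `num_sm`, `size_cl`, `pos_cl`, `neg_cl`; `a` = number of the cells) -/
theorem one_piece : ∃ N0 : ℝ, ∀ (ν t0 t1 M v g : ℝ) (q n m u N s B : ℕ) (P Z : Finset (ℕ × ℕ))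
    (μ : Fin n → ℕ), N0 ≤ ν → q = ⌊ν ^ (1 / 20 : ℝ)⌋₊ → Pc q N P Z s B t0 t1 →
    (n : ℝ) * (m + 1) ≤ Real.exp (ν ^ (1 / 250 : ℝ)) → (∀ i, μ i = m ∨ μ i = m + 1) →
    Cn ν (ν ^ (-(1 / 200) : ℝ)) N M v g n m ((∑ i, (μ i + 1).choose 2 : ℕ) : ℝ) →
    |((P ∪ Z).card : ℝ) - (((∑ i, (μ i + 1).choose 2 : ℕ) : ℝ) + v / g)| ≤ (N : ℝ) / q + 2 →
    (v ≤ -(ν ^ (-(1 / 25) : ℝ) * ((N : ℝ) - 1)) ∨ ν ^ (-(1 / 25) : ℝ) * ((N : ℝ) - 1) ≤ v ∧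
      ((P ∪ Z).card : ℝ) - ((∑ i, (μ i + 1).choose 2 : ℕ) : ℝ) ≤ u) →
    EmpQ (P ∪ Z) (Sum.elim μ (fun _ => 1) : Fin n ⊕ Fin u → ℕ) Finset.univ := by
  obtain ⟨N1, h1⟩ := class_g
  obtain ⟨N2, h2⟩ := num_sm
  refine ⟨max N1 N2, fun ν t0 t1 M v g q n m u N s B P Z μ hν hq hPc hexp hμ hc ha hv => ?_⟩
  have hs := h2 ν q ((le_max_right _ _).trans hν) hq
  obtain ⟨k1, k2, k3⟩ := size_cl hs hc
  have hqN : q ≤ N := by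
    have h3 : (1 : ℝ) ≤ q := by linarith [hs.q1]
    have h4 : (q : ℝ) ≤ (q : ℝ) ^ 10 := le_self_pow₀ h3 (by norm_num)
    have h5 : (q : ℝ) ≤ N := by linarith
    exact_mod_cast h5
  have hmN : m + 1 ≤ N := by exact_mod_cast k2
  have hm : 100 ≤ m := by exact_mod_cast hc.m1
  rcases hv with hv | ⟨hv, hu⟩
  · obtain ⟨l1, l2, l3⟩ := neg_cl hs hc hv le_rfl ha hPc.up
    exact h1 ν t0 t1 q n m u N s B P Z μ ((le_max_left _ _).trans hν) hq hqN hmN l1 hPc hc.nν hm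
      hexp hμ (Or.inl ⟨l2, l3⟩)
  · obtain ⟨l1, l2⟩ := pos_cl hs hc hv le_rfl ha hPc.up
    exact h1 ν t0 t1 q n m u N s B P Z μ ((le_max_left _ _).trans hν) hq hqN hmN l1 hPc hc.nν hm
      hexp hμ (Or.inr ⟨l2, hu⟩)

end Pool.Agent.Lib.MP_6b2d39_agHg
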