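import Pool.Agent.Lib.MP_6b2d39_agHg.Defs

set_option autoImplicit false

namespace Pool.Agent.Lib.MP_6b2d39_agHg

/-- the sizes of a piece: `Q = q ^ 2`, `κ = Q (t1 - t0)`, `y` the square root of the slope after the cut,
`X` the number of the added cells -/
structure Sz (Q κ y X : ℝ) : Prop where
  q0 : 100000000 ≤ Q
  k0 : 100000000 ≤ κ
  k1 : κ ≤ Q
  y0 : √κ ≤ y
  y1 : y ≤ √κ + 1 / √κ
  X0 : 0 ≤ X
  X1 : 2 * X ≤ Q

private theorem sz_y {Q κ y X : ℝ} (H : Sz Q κ y X) : 10000 ≤ y ∧ y ^ 2 ≤ Q + 3 := by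
  have hk : (10000 : ℝ) ≤ √κ := by
    apply Real.le_sqrt_of_sq_le
    have := H.k0
    linarith
  have hk0 : (0 : ℝ) < √κ := by linarith
  have hκ : 0 ≤ κ := by linarith [H.k0]
  have hsq : √κ ^ 2 = κ := Real.sq_sqrt hκ
  have hinv : 1 / √κ ≤ 1 := by
    rw [div_le_one hk0]
    linarith
  have hinv0 : 0 < 1 / √κ := by positivity
  have hm : √κ * (1 / √κ) = 1 := by field_simp
  refine ⟨le_trans hk H.y0, ?_⟩
  have hy0 : 0 ≤ y := by linarith [H.y0]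
  have h1 : y ^ 2 ≤ (√κ + 1 / √κ) ^ 2 := pow_le_pow_left₀ hy0 H.y1 2
  have h2 : (√κ + 1 / √κ) ^ 2 = √κ ^ 2 + 2 * (√κ * (1 / √κ)) + (1 / √κ) ^ 2 := by ring
  rw [h2, hm, hsq] at h1
  have h3 : (1 / √κ) ^ 2 ≤ 1 := by
    have := pow_le_pow_left₀ hinv0.le hinv 2
    linarith
  linarith [H.k1]

/-- HG50. `Dm z Au Al = z (3 + X) / y + z (z - y) + z`, `z ≤ 3 / 2 y`, `z (z - y) ≤ y ^ 2`,
`y ^ 2 ≤ Q + 3` -/
theorem dm_le {Q κ y X h z : ℝ} (H : Sz Q κ y X) (h1 : y ≤ z) (h2 : z ≤ √2 * y) :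
    |Dm z (h + (3 + X) / y) (h + y - 2)| ≤ 4 * Q := by
  obtain ⟨hy, hyq⟩ := sz_y H
  have hy0 : 0 < y := by linarith
  have hs2 : √2 ≤ 3 / 2 := by
    rw [Real.sqrt_le_left (by norm_num)]
    norm_num
  have hz : z ≤ 3 / 2 * y := le_trans h2 (mul_le_mul_of_nonneg_right hs2 hy0.le)
  have hX0 := H.X0
  have hX1 := H.X1
  have hq0 := H.q0
  have e : Dm z (h + (3 + X) / y) (h + y - 2) = z * ((3 + X) / y) + z * (z - y) + z := by
    unfold Dm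
    ring
  have e1 : z * ((3 + X) / y) ≤ 3 / 2 * (3 + X) := by
    have : z * ((3 + X) / y) = z / y * (3 + X) := by ring
    rw [this]
    apply mul_le_mul_of_nonneg_right _ (by linarith)
    rw [div_le_iff₀ hy0]
    exact hz
  have e10 : 0 ≤ z * ((3 + X) / y) := by
    apply mul_nonneg (by linarith)
    apply div_nonneg (by linarith) hy0.le
  have e2 : z * (z - y) ≤ y ^ 2 := by nlinarith
  have e20 : 0 ≤ z * (z - y) := mul_nonneg (by linarith) (by linarith)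
  have e3 : y ≤ y ^ 2 / 10000 := by nlinarith
  rw [e, abs_of_nonneg (by linarith)]
  linarith

/-- HG51. `y ^ 2 ≤ Q + 3`; `(3 + X) / y ≤ Q`; the square root is at most `Q ^ 2` -/
theorem lam_le {Q κ y X h : ℝ} (H : Sz Q κ y X) (hh : 0 ≤ h) :
    2 * (102 * (4 * Q + 1) ^ 2) + 4 * (√2 * y) ^ 2 +
      2 * max (max (h + (3 + X) / y) 0 - (h + y / 2 - 1 / 2 + 1 / 2)) 0 + 3 +
      √(2 * (y ^ 2 / 4 + X + 20 + 50 * (√2 * y) ^ 2 * (5000 * Q ^ 2))) ≤ 5000 * Q ^ 2 := by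
  obtain ⟨hy, hyq⟩ := sz_y H
  have hy0 : 0 < y := by linarith
  have hX0 := H.X0
  have hX1 := H.X1
  have hq0 := H.q0
  have hs : (√2 * y) ^ 2 = 2 * y ^ 2 := by
    rw [mul_pow, Real.sq_sqrt (by norm_num : (0 : ℝ) ≤ 2)]
  have hd0 : 0 ≤ (3 + X) / y := div_nonneg (by linarith) hy0.le
  have hd1 : (3 + X) / y ≤ Q := by
    rw [div_le_iff₀ hy0]
    nlinarith
  have hmax : max (max (h + (3 + X) / y) 0 - (h + y / 2 - 1 / 2 + 1 / 2)) 0 ≤ Q := by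
    apply max_le _ (by linarith)
    rw [max_eq_left (by linarith)]
    linarith
  have hsqrt : √(2 * (y ^ 2 / 4 + X + 20 + 50 * (√2 * y) ^ 2 * (5000 * Q ^ 2))) ≤ Q ^ 2 := by
    apply Real.sqrt_le_iff.mpr
    refine ⟨by positivity, ?_⟩
    rw [hs]
    have hQ2 : 0 ≤ Q ^ 2 := by positivity
    have a1 : y ^ 2 * Q ^ 2 ≤ (Q + 3) * Q ^ 2 := mul_le_mul_of_nonneg_right hyq hQ2
    have a2 : 100000000 * Q ≤ Q ^ 2 := by nlinarith
    have a3 : 100000000 * Q ^ 2 ≤ Q ^ 3 := by nlinarith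
    have a4 : 100000000 * Q ^ 3 ≤ (Q ^ 2) ^ 2 := by
      have : 0 ≤ Q ^ 3 := by positivity
      nlinarith
    nlinarith
  rw [hs] at hsqrt ⊢
  have a2 : 100000000 * Q ≤ Q ^ 2 := by nlinarith
  have a3 : 2 * (102 * (4 * Q + 1) ^ 2) = 3264 * Q ^ 2 + 1632 * Q + 204 := by ring
  rw [a3]
  linarith

end Pool.Agent.Lib.MP_6b2d39_agHg
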