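import Pool.Agent.Lib.MP_6b2d39_agHg.CutEx

set_option autoImplicit false

namespace Pool.Agent.Lib.MP_6b2d39_agHg

/-- HG44. `t j = τ (∑ i ∈ range j, c i)` for `j < g`, `t j = t (g - 1)` for `j ≥ g` (`cut_ex`,
`lft_mono`; `Finset.card_sdiff`). The last piece: `D.card = ∑ c`, and
`∑ i ∈ range (g - 1), c i ≤ (lft D L Q 1).card` from `hX`. -/
theorem thresholds {D : Finset (ℕ × ℕ)} {L Q R g : ℕ} (hR : L ≤ Q * R) (hg : 1 ≤ g)
    {c : ℕ → ℝ} (hc : ∀ j, j < g → 0 ≤ c j) (hsum : ∑ j ∈ Finset.range g, c j = D.card)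
    (hX : ((D \ lft D L Q 1).card : ℝ) ≤ c (g - 1)) :
    ∃ t : ℕ → ℝ, t 0 = 0 ∧ Monotone t ∧ (∀ j, 0 ≤ t j ∧ t j ≤ 1) ∧
      (∀ j, j + 1 < g → |((lft D L Q (t (j + 1)) \ lft D L Q (t j)).card : ℝ) - c j| ≤ R) ∧
      |((D \ lft D L Q (t (g - 1))).card : ℝ) - c (g - 1)| ≤ R := by
  obtain ⟨τ, hτm, hτ0, hτb, hτ⟩ := cut_ex (D := D) hR
  have hsub1 : lft D L Q 1 ⊆ D := by
    unfold lft
    exact Finset.filter_subset _ _
  have hsubt : ∀ t : ℝ, lft D L Q t ⊆ D := fun t => by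
    unfold lft
    exact Finset.filter_subset _ _
  -- the partial sums are monotone up to g
  have hsm : ∀ i j, i ≤ j → j ≤ g → ∑ k ∈ Finset.range i, c k ≤ ∑ k ∈ Finset.range j, c k := by
    intro i j hij hjg
    refine Finset.sum_le_sum_of_subset_of_nonneg (Finset.range_subset_range.2 hij) ?_
    intro k hk _
    exact hc k (lt_of_lt_of_le (Finset.mem_range.1 hk) hjg)
  have hs0 : ∀ j, j ≤ g → 0 ≤ ∑ k ∈ Finset.range j, c k := by
    intro j hj
    have := hsm 0 j (Nat.zero_le _) hj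
    simpa using this
  have hcardd : ∀ t : ℝ, ((D \ lft D L Q t).card : ℝ) = D.card - (lft D L Q t).card := by
    intro t
    rw [Finset.card_sdiff_of_subset (hsubt t), Nat.cast_sub (Finset.card_le_card (hsubt t))]
  have hlast : ∑ k ∈ Finset.range (g - 1), c k + c (g - 1) = D.card := by
    rw [← Finset.sum_range_succ, Nat.sub_add_cancel hg]
    exact hsum
  have hle1 : ∑ k ∈ Finset.range (g - 1), c k ≤ (lft D L Q 1).card := by
    have h1 := hcardd 1
    rw [h1] at hX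
    linarith
  have hN : ∀ j, j ≤ g - 1 → ∑ k ∈ Finset.range j, c k ≤
      (lft D L Q (τ (∑ k ∈ Finset.range j, c k))).card ∧
      ((lft D L Q (τ (∑ k ∈ Finset.range j, c k))).card : ℝ) ≤
        ∑ k ∈ Finset.range j, c k + R := by
    intro j hj
    exact hτ _ (hs0 j (by omega)) (le_trans (hsm j (g - 1) hj (by omega)) hle1)
  refine ⟨fun j => τ (∑ k ∈ Finset.range (min j (g - 1)), c k), ?_, ?_, ?_, ?_, ?_⟩
  · simp only [Nat.zero_min, Finset.range_zero, Finset.sum_empty]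
    exact hτ0 0 le_rfl
  · intro i j hij
    refine hτm (hsm _ _ ?_ ?_)
    · exact min_le_min hij le_rfl
    · exact le_trans (min_le_right _ _) (Nat.sub_le _ _)
  · intro j
    exact hτb _
  · intro j hj
    have e1 : min j (g - 1) = j := by omega
    have e2 : min (j + 1) (g - 1) = j + 1 := by omega
    simp only [e1, e2]
    have hmono : τ (∑ k ∈ Finset.range j, c k) ≤ τ (∑ k ∈ Finset.range (j + 1), c k) :=
      hτm (hsm _ _ (Nat.le_succ _) (by omega))
    have hss := lft_mono (D := D) (L := L) (Q := Q) (hτb (∑ k ∈ Finset.range j, c k)).1 hmono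
    rw [Finset.card_sdiff_of_subset hss, Nat.cast_sub (Finset.card_le_card hss)]
    obtain ⟨a1, a2⟩ := hN j (by omega)
    obtain ⟨b1, b2⟩ := hN (j + 1) (by omega)
    have e3 : ∑ k ∈ Finset.range (j + 1), c k = ∑ k ∈ Finset.range j, c k + c j :=
      Finset.sum_range_succ _ _
    rw [abs_le]
    constructor <;> linarith
  · have e1 : min (g - 1) (g - 1) = g - 1 := min_self _
    simp only [e1]
    rw [hcardd]
    obtain ⟨a1, a2⟩ := hN (g - 1) le_rfl
    rw [abs_le]
    constructor <;> linarith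

end Pool.Agent.Lib.MP_6b2d39_agHg
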