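import Pool.Agent.Lib.MP_6b2d39_agHg.PieceD
import Pool.Agent.Lib.MP_6b2d39_agHg.Thr

set_option autoImplicit false

namespace Pool.Agent.Lib.MP_6b2d39_agHg

open Pool.Agent.Lib.MP_6b2d39_agHl Pool.Agent.Lib.MP_6b2d39_agNw

variable {q N : ℕ}

private theorem pcA_LL (hq : 1 ≤ q) : LL q N ≤ q ^ 2 * (N / q + 1) := by
  have h1 : LL q N ≤ q * N := by
    unfold LL
    exact Nat.sub_le _ _
  have h2 : N < q * (N / q + 1) := by
    have h3 := Nat.div_add_mod N q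
    have h4 := Nat.mod_lt N (show 0 < q by omega)
    have h5 : q * (N / q + 1) = q * (N / q) + q := by ring
    omega
  calc LL q N ≤ q * N := h1
    _ ≤ q * (q * (N / q + 1)) := Nat.mul_le_mul_left q h2.le
    _ = q ^ 2 * (N / q + 1) := by ring

private theorem pcA_R : ((N / q + 1 : ℕ) : ℝ) ≤ (N : ℝ) / q + 1 := by
  rw [Nat.cast_add, Nat.cast_one]
  have h1 : ((N / q : ℕ) : ℝ) ≤ (N : ℝ) / q := Nat.cast_div_le
  linarith

/-- HG64. a regular piece: `P = lft t1 \ lft t0`, `Z = ∅`, `s = ⌈q ^ 2 t1⌉₊`, `B = 0` (`isReg_lft`,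
`card_piece` with `R = N / q + 1`, `LL q N ≤ q N`) -/
theorem pc_reg (hq : 1 ≤ q) (hN : q ≤ N) {t0 t1 : ℝ} (h0 : 0 ≤ t0) (h1 : t0 ≤ t1)
    (h2 : t1 ≤ 1) : ∃ s, Pc q N (lft (DQ q N) (LL q N) (q ^ 2) t1 \
      lft (DQ q N) (LL q N) (q ^ 2) t0) ∅ s 0 t0 t1 := by
  have hreg := isReg_lft hq hN h0 h1 h2
  have hx : (0 : ℝ) ≤ (q : ℝ) ^ 2 * t1 := mul_nonneg (by positivity) (h0.trans h1)
  refine ⟨⌈(q : ℝ) ^ 2 * t1⌉₊, h0, h2, hreg, Nat.le_ceil _, Nat.ceil_lt_add_one hx, by omega,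
    ?_, ?_, ?_, ?_⟩
  · intro z hz
    exact absurd hz (Finset.notMem_empty z)
  · intro p _ z hz
    exact absurd hz (Finset.notMem_empty z)
  · simp
  · rw [Finset.union_empty]
    have h3 := card_piece hq hN (pcA_LL hq) h0 h1 hreg
    have h4 := pcA_R (q := q) (N := N)
    have h5 : (0 : ℝ) ≤ (q : ℝ) ^ 2 / 2 := by positivity
    linarith

/-- HG65. the last piece: `P = lft 1 \ lft t0`, `Z = D \ lft 1`, `s = q ^ 2`, `B` from `surplus` -/
theorem pc_last (hq : 1 ≤ q) (hN : q ≤ N) {t0 : ℝ} (h0 : 0 ≤ t0) (h1 : t0 ≤ 1) :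
    ∃ B, Pc q N (lft (DQ q N) (LL q N) (q ^ 2) 1 \ lft (DQ q N) (LL q N) (q ^ 2) t0)
      (DQ q N \ lft (DQ q N) (LL q N) (q ^ 2) 1) (q ^ 2) B t0 1 := by
  have hreg := isReg_lft hq hN h0 h1 le_rfl
  obtain ⟨B, hB, hz, hc, hne⟩ := surplus hq hN
  refine ⟨B, h0, le_rfl, hreg, ?_, ?_, hB, hz, ?_, hc, ?_⟩
  · push_cast
    linarith
  · push_cast
    linarith
  · intro p hp z hz'
    exact hne p (Finset.mem_sdiff.1 hp).1 z hz'
  · have h3 := card_piece hq hN (pcA_LL hq) h0 h1 hreg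
    have h4 := pcA_R (q := q) (N := N)
    have h5 := Finset.card_union_le
      (lft (DQ q N) (LL q N) (q ^ 2) 1 \ lft (DQ q N) (LL q N) (q ^ 2) t0)
      (DQ q N \ lft (DQ q N) (LL q N) (q ^ 2) 1)
    have h6 : (((lft (DQ q N) (LL q N) (q ^ 2) 1 \ lft (DQ q N) (LL q N) (q ^ 2) t0) ∪
        (DQ q N \ lft (DQ q N) (LL q N) (q ^ 2) 1)).card : ℝ) ≤
        ((lft (DQ q N) (LL q N) (q ^ 2) 1 \ lft (DQ q N) (LL q N) (q ^ 2) t0).card : ℝ) +
        ((DQ q N \ lft (DQ q N) (LL q N) (q ^ 2) 1).card : ℝ) := by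
      exact_mod_cast h5
    have h7 : (2 : ℝ) * ((DQ q N \ lft (DQ q N) (LL q N) (q ^ 2) 1).card : ℝ) ≤ (q : ℝ) ^ 2 := by
      exact_mod_cast hc
    linarith

/-- HG66. the numbers of the cells of the pieces: a telescoping sum (`lft_mono`, `lft_zero`,
`Finset.card_sdiff_of_subset`) -/
theorem card_sum {D : Finset (ℕ × ℕ)} {L Q g : ℕ} {t : ℕ → ℝ} (h0 : t 0 = 0)
    (hmono : Monotone t) :
    ∑ j ∈ Finset.range g, ((lft D L Q (t (j + 1)) \ lft D L Q (t j)).card : ℝ) +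
      ((D \ lft D L Q (t g)).card : ℝ) = D.card := by
  classical
  have hsub : ∀ s, lft D L Q s ⊆ D := by
    intro s
    unfold lft
    exact Finset.filter_subset _ _
  have hcard : ∀ A B : Finset (ℕ × ℕ), B ⊆ A → ((A \ B).card : ℝ) = (A.card : ℝ) - B.card := by
    intro A B hBA
    have h1 := Finset.card_sdiff_add_card_eq_card hBA
    have h2 : ((A \ B).card : ℝ) + (B.card : ℝ) = A.card := by exact_mod_cast h1
    linarith
  induction g with
  | zero =>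
    rw [Finset.sum_range_zero, zero_add, h0, lft_zero, Finset.sdiff_empty]
  | succ g ih =>
    have ht : 0 ≤ t g := by
      rw [← h0]
      exact hmono (Nat.zero_le g)
    have hm : lft D L Q (t g) ⊆ lft D L Q (t (g + 1)) := lft_mono ht (hmono (Nat.le_succ g))
    rw [Finset.sum_range_succ, ← ih, hcard _ _ hm, hcard _ _ (hsub (t (g + 1))),
      hcard _ _ (hsub (t g))]
    ring

end Pool.Agent.Lib.MP_6b2d39_agHg
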