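import Pool.Agent.Lib.MP_6b2d39_agHg.Defs
import Pool.Agent.Lib.MP_6b2d39_agHl.Count

set_option autoImplicit false

namespace Pool.Agent.Lib.MP_6b2d39_agHg

open Pool.Agent.Lib.MP_6b2d39_agHl

private theorem qr_kk {q N : ℕ} (hq : 1 ≤ q) (b m e : ℕ) (he : e < q) :
    b < kk q N (tri N) (q * m + e) ↔ b ≤ m ∧ q * b + m + e < N + b := by
  classical
  obtain ⟨p, rfl⟩ : ∃ p, q = p + 1 := ⟨q - 1, by omega⟩
  have hmem : ∀ i, i ∈ (Finset.range N).filter
      (fun i => (p + 1) * i ≤ (p + 1) * m + e ∧ (p + 1) * m + e < (p + 1) * i + tri N i) ↔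
      i ≤ m ∧ p * (m - i) + m + e < N := by
    intro i
    rw [Finset.mem_filter, Finset.mem_range]
    unfold tri
    constructor
    · rintro ⟨h1, h2, h3⟩
      have h4 : i ≤ m := by
        by_contra hcon
        have h5 : m + 1 ≤ i := by omega
        have h6 : (p + 1) * (m + 1) ≤ (p + 1) * i := Nat.mul_le_mul_left _ h5
        have h7 : (p + 1) * (m + 1) = (p + 1) * m + (p + 1) := by ring
        omega
      obtain ⟨l, rfl⟩ : ∃ l, m = i + l := ⟨m - i, by omega⟩
      refine ⟨h4, ?_⟩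
      have h8 : (p + 1) * (i + l) = (p + 1) * i + (p * l + l) := by ring
      rw [Nat.add_sub_cancel_left]
      omega
    · rintro ⟨h4, h5⟩
      obtain ⟨l, rfl⟩ : ∃ l, m = i + l := ⟨m - i, by omega⟩
      rw [Nat.add_sub_cancel_left] at h5
      have h8 : (p + 1) * (i + l) = (p + 1) * i + (p * l + l) := by ring
      refine ⟨by omega, by omega, by omega⟩
  have hcond : (p + 1) * b + m + e < N + b ↔ p * b + m + e < N := by
    have h1 : (p + 1) * b = p * b + b := by ring
    omega
  rw [hcond]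
  unfold kk
  constructor
  · intro hb
    by_contra hcon
    have hsub : (Finset.range N).filter
        (fun i => (p + 1) * i ≤ (p + 1) * m + e ∧ (p + 1) * m + e < (p + 1) * i + tri N i) ⊆
        (Finset.range b).image (fun l => m - l) := by
      intro i hi
      rw [hmem] at hi
      obtain ⟨h1, h2⟩ := hi
      rw [Finset.mem_image]
      refine ⟨m - i, ?_, by omega⟩
      rw [Finset.mem_range]
      by_contra h3
      have h4 : p * b ≤ p * (m - i) := Nat.mul_le_mul_left _ (by omega)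
      exact hcon ⟨by omega, by omega⟩
    have h5 := Finset.card_le_card hsub
    have h6 : ((Finset.range b).image (fun l => m - l)).card ≤ b := by
      refine Finset.card_image_le.trans ?_
      rw [Finset.card_range]
    omega
  · rintro ⟨h1, h2⟩
    have hsub : (Finset.range (b + 1)).image (fun l => m - l) ⊆ (Finset.range N).filter
        (fun i => (p + 1) * i ≤ (p + 1) * m + e ∧ (p + 1) * m + e < (p + 1) * i + tri N i) := by
      intro i hi
      rw [Finset.mem_image] at hi
      obtain ⟨l, hl, rfl⟩ := hi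
      rw [Finset.mem_range] at hl
      rw [hmem]
      refine ⟨by omega, ?_⟩
      have h3 : m - (m - l) = l := by omega
      rw [h3]
      have h4 : p * l ≤ p * b := Nat.mul_le_mul_left _ (by omega)
      omega
    have h5 := Finset.card_le_card hsub
    rw [Finset.card_image_of_injOn, Finset.card_range] at h5
    · omega
    · intro l hl l' hl' h
      rw [Finset.coe_range, Set.mem_Iio] at hl hl'
      simp only at h
      omega

/-- HG7. The rows of the triangle after one step, exactly. With `T = N - q b`: for `q - 1 ≤ T` the row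
`b` is `∑_(i < q) (T - i) = q T - q (q - 1) / 2`; for `T < q` it is `T (T + 1) / 2`. (The `c` in the row
`b`: `kk q N (tri N) c = #{i : q i ≤ c < N + (q - 1) i}`; for `c = q (b + l) + e`, `e < q`, the indices are
`i ≤ b + l`, and `i` is counted iff `c < N + (q - 1) i`; `b < kk` iff the index `i = l` is counted iff
`q b + l + e < N`.) -/
theorem q_row {q N : ℕ} (hq : 1 ≤ q) (b : ℕ) :
    stp q N (tri N) b = ∑ i ∈ Finset.range q, (N - q * b - i) := by
  classical
  have hset : ((Finset.range (q * N + ∑ i ∈ Finset.range N, tri N i)).filter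
      fun c => b < kk q N (tri N) c) =
      ((Finset.range q).sigma (fun e => Finset.range (N - q * b - e))).image
        (fun x : (_ : ℕ) × ℕ => q * (b + x.2) + x.1) := by
    ext c
    rw [Finset.mem_filter, Finset.mem_image, Finset.mem_range]
    constructor
    · rintro ⟨-, h2⟩
      have he : c % q < q := Nat.mod_lt _ hq
      have hc : q * (c / q) + c % q = c := Nat.div_add_mod c q
      rw [← hc, qr_kk hq b (c / q) (c % q) he] at h2
      obtain ⟨h3, h4⟩ := h2
      refine ⟨⟨c % q, c / q - b⟩, ?_, ?_⟩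
      · rw [Finset.mem_sigma, Finset.mem_range, Finset.mem_range]
        refine ⟨he, ?_⟩
        simp only
        omega
      · simp only
        have h5 : b + (c / q - b) = c / q := by omega
        rw [h5, hc]
    · rintro ⟨⟨e, l⟩, hx, rfl⟩
      rw [Finset.mem_sigma, Finset.mem_range, Finset.mem_range] at hx
      simp only at hx ⊢
      obtain ⟨he, hl⟩ := hx
      refine ⟨?_, ?_⟩
      · have h1 : b ≤ q * b := Nat.le_mul_of_pos_left b hq
        have h2 : b + l + 1 ≤ N := by omega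
        have h3 : q * (b + l + 1) ≤ q * N := Nat.mul_le_mul_left _ h2
        have h4 : q * (b + l + 1) = q * (b + l) + q := by ring
        omega
      · rw [qr_kk hq b (b + l) e he]
        exact ⟨by omega, by omega⟩
  unfold stp
  rw [hset, Finset.card_image_of_injOn, Finset.card_sigma]
  · simp only [Finset.card_range]
  · rintro ⟨e, l⟩ hx ⟨e', l'⟩ hx' h
    rw [Finset.mem_coe, Finset.mem_sigma, Finset.mem_range] at hx hx'
    simp only at hx hx' h
    have h1 : (q * (b + l) + e) / q = b + l := by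
      rw [Nat.mul_add_div hq, Nat.div_eq_of_lt hx.1, add_zero]
    have h2 : (q * (b + l') + e') / q = b + l' := by
      rw [Nat.mul_add_div hq, Nat.div_eq_of_lt hx'.1, add_zero]
    rw [h] at h1
    have h3 : l = l' := by omega
    subst h3
    have h4 : e = e' := by omega
    subst h4
    rfl

private theorem qr_sum_ge {T : ℕ} (q : ℕ) (h : q ≤ T + 1) :
    2 * (∑ i ∈ Finset.range q, (T - i : ℕ) : ℕ) + q * (q - 1) = 2 * (q * T) := by
  induction q with
  | zero => simp
  | succ q ih =>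
    have ih' := ih (by omega)
    rw [Finset.sum_range_succ]
    obtain ⟨t, rfl⟩ : ∃ t, T = q + t := ⟨T - q, by omega⟩
    rw [Nat.add_sub_cancel_left, Nat.add_sub_cancel]
    rcases q with _ | q
    · simp
    · rw [Nat.add_sub_cancel] at ih'
      nlinarith

private theorem qr_sum_le {T : ℕ} (q : ℕ) (h : T ≤ q) :
    2 * (∑ i ∈ Finset.range q, (T - i : ℕ) : ℕ) = T * (T + 1) := by
  induction q, h using Nat.le_induction with
  | base =>
    have h1 := qr_sum_ge (T := T) T (by omega)
    rcases T with _ | T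
    · simp
    · rw [Nat.add_sub_cancel] at h1
      nlinarith
  | succ q hq ih =>
    rw [Finset.sum_range_succ, Nat.sub_eq_zero_of_le hq, add_zero, ih]

private theorem qr_LL {q N : ℕ} (hq : 1 ≤ q) (hN : q ≤ N) :
    2 * LL q N + q * (q - 1) = 2 * (q * N) := by
  unfold LL
  have h1 : q * (q - 1) / 2 * 2 = q * (q - 1) :=
    Nat.div_mul_cancel (Nat.even_mul_pred_self q).two_dvd
  have h2 : q * (q - 1) ≤ q * N := Nat.mul_le_mul_left _ (by omega)
  omega

/-- HG8. (`q_row`; `Bt = ⌈N / q⌉ - 1` is the last nonempty row) -/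
theorem q_rows {q N : ℕ} (hq : 1 ≤ q) (hN : q ≤ N) : ∃ Bt X : ℕ, Bt < N ∧ 2 * X ≤ q ^ 2 ∧
    (∀ b < Bt, (stp q N (tri N) b : ℤ) = (LL q N : ℤ) - q ^ 2 * b ∧
      0 < (LL q N : ℤ) - q ^ 2 * b) ∧
    (∀ b, Bt < b → stp q N (tri N) b = 0 ∧ (LL q N : ℤ) - q ^ 2 * b ≤ 0) ∧
    (stp q N (tri N) Bt : ℤ) = max ((LL q N : ℤ) - q ^ 2 * Bt) 0 + X ∧ q * Bt < N := by
  have hLL := qr_LL hq hN
  obtain ⟨p, rfl⟩ : ∃ p, q = p + 1 := ⟨q - 1, by omega⟩
  rw [Nat.add_sub_cancel] at hLL
  have hLLz : 2 * (LL (p + 1) N : ℤ) + (p + 1) * p = 2 * ((p + 1) * N) := by exact_mod_cast hLL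
  obtain ⟨Bt, hBt⟩ : ∃ Bt, Bt = (N - 1) / (p + 1) := ⟨_, rfl⟩
  have hB1 : (p + 1) * Bt ≤ N - 1 := by
    rw [hBt]
    exact Nat.mul_div_le _ _
  have hB2 : N - 1 < (p + 1) * (Bt + 1) := by
    rw [hBt]
    exact Nat.lt_mul_div_succ _ (by omega)
  have hB3 : (p + 1) * (Bt + 1) = (p + 1) * Bt + (p + 1) := by ring
  have hBN : Bt < N := by
    have : Bt ≤ (p + 1) * Bt := Nat.le_mul_of_pos_left _ (by omega)
    omega
  obtain ⟨T, hT⟩ : ∃ T, N = (p + 1) * Bt + T := ⟨N - (p + 1) * Bt, by omega⟩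
  have hT1 : 1 ≤ T := by omega
  have hT2 : T ≤ p + 1 := by omega
  have hV : 2 * stp (p + 1) N (tri N) Bt = T * (T + 1) := by
    rw [q_row hq]
    have h1 : N - (p + 1) * Bt = T := by omega
    rw [h1]
    exact qr_sum_le _ hT2
  have hVz : 2 * (stp (p + 1) N (tri N) Bt : ℤ) = T * (T + 1) := by exact_mod_cast hV
  have hTz : (N : ℤ) = (p + 1) * Bt + T := by exact_mod_cast hT
  have hT1z : (1 : ℤ) ≤ T := by exact_mod_cast hT1
  have hT2z : (T : ℤ) ≤ p + 1 := by exact_mod_cast hT2
  have hp0 : (0 : ℤ) ≤ p := by positivity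
  -- the difference at the last row
  have hY : 2 * ((LL (p + 1) N : ℤ) - (p + 1) ^ 2 * Bt) = 2 * ((p + 1) * T) - (p + 1) * p := by
    nlinarith
  have hXex : ∃ X : ℕ, (stp (p + 1) N (tri N) Bt : ℤ) =
      max ((LL (p + 1) N : ℤ) - (p + 1) ^ 2 * Bt) 0 + X ∧ 2 * X ≤ (p + 1) ^ 2 := by
    obtain ⟨V, hVd⟩ : ∃ V : ℤ, V = (stp (p + 1) N (tri N) Bt : ℤ) := ⟨_, rfl⟩
    obtain ⟨Y, hYd⟩ : ∃ Y : ℤ, Y = (LL (p + 1) N : ℤ) - (p + 1) ^ 2 * Bt := ⟨_, rfl⟩
    rw [← hYd, ← hVd]
    rw [← hYd] at hY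
    rw [← hVd] at hVz
    rcases le_total 0 Y with h0 | h0
    · have h1 : 2 * (V - Y) = ((p : ℤ) + 1 - T) * ((p : ℤ) + 1 - T - 1) := by nlinarith
      have h2 : 0 ≤ ((p : ℤ) + 1 - T) * ((p : ℤ) + 1 - T - 1) := by
        rcases eq_or_lt_of_le hT2z with h3 | h3
        · rw [h3]
          simp
        · exact mul_nonneg (by omega) (by omega)
      have h3 : 0 ≤ V - Y := by omega
      refine ⟨(V - Y).toNat, ?_, ?_⟩
      · rw [max_eq_left h0, Int.toNat_of_nonneg h3]
        ring
      · have h4 : (2 * ((V - Y).toNat : ℤ)) ≤ ((p : ℤ) + 1) ^ 2 := by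
          rw [Int.toNat_of_nonneg h3, h1]
          nlinarith
        exact_mod_cast h4
    · have h3 : 0 ≤ V := by nlinarith
      refine ⟨V.toNat, ?_, ?_⟩
      · rw [max_eq_right h0, Int.toNat_of_nonneg h3, zero_add]
      · have h5 : (T : ℤ) ≤ p := by
          by_contra hcon
          have h6 : (T : ℤ) = p + 1 := by omega
          rw [h6] at hY
          nlinarith
        have h4 : (2 * (V.toNat : ℤ)) ≤ ((p : ℤ) + 1) ^ 2 := by
          rw [Int.toNat_of_nonneg h3, hVz]
          nlinarith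
        exact_mod_cast h4
  obtain ⟨X, hX1, hX2⟩ := hXex
  refine ⟨Bt, X, hBN, hX2, ?_, ?_, ?_, by omega⟩
  · intro b hb
    have h1 : (p + 1) * (b + 1) ≤ (p + 1) * Bt := Nat.mul_le_mul_left _ hb
    have h2 : (p + 1) * (b + 1) = (p + 1) * b + (p + 1) := by ring
    obtain ⟨S, hS⟩ : ∃ S, N = (p + 1) * b + S := ⟨N - (p + 1) * b, by omega⟩
    have hS1 : p + 2 ≤ S := by omega
    have h3 : 2 * stp (p + 1) N (tri N) b + (p + 1) * p = 2 * ((p + 1) * S) := by
      rw [q_row hq]
      have h4 : N - (p + 1) * b = S := by omega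
      rw [h4]
      have h5 := qr_sum_ge (T := S) (p + 1) (by omega)
      rwa [Nat.add_sub_cancel] at h5
    have h3z : 2 * (stp (p + 1) N (tri N) b : ℤ) + (p + 1) * p = 2 * ((p + 1) * S) := by
      exact_mod_cast h3
    have hSz : (N : ℤ) = (p + 1) * b + S := by exact_mod_cast hS
    have hS1z : (p : ℤ) + 2 ≤ S := by exact_mod_cast hS1
    have h6 : 2 * ((LL (p + 1) N : ℤ) - (p + 1) ^ 2 * b) = 2 * ((p + 1) * S) - (p + 1) * p := by
      nlinarith
    push_cast
    constructor
    · linarith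
    · nlinarith
  · intro b hb
    have h1 : (p + 1) * (Bt + 1) ≤ (p + 1) * b := Nat.mul_le_mul_left _ hb
    have h2 : N ≤ (p + 1) * b := by omega
    refine ⟨?_, ?_⟩
    · rw [q_row hq]
      have h3 : N - (p + 1) * b = 0 := by omega
      rw [h3]
      simp
    · have h2z : (N : ℤ) ≤ (p + 1) * b := by exact_mod_cast h2
      push_cast
      nlinarith
  · push_cast
    exact hX1

end Pool.Agent.Lib.MP_6b2d39_agHg
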