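import Pool.Agent.Lib.MP_6b2d39_agHg.Defs

set_option autoImplicit false

namespace Pool.Agent.Lib.MP_6b2d39_agHg

/-- more than `b` cells of weight `c`: two of them are at least `b` rows apart -/
private theorem rega_two {P : Finset (ℕ × ℕ)} {s c b : ℕ} (h : b < kP s P c) :
    ∃ a i a' i' : ℕ, (a, i) ∈ P ∧ (a', i') ∈ P ∧ a + s * i = c ∧ a' + s * i' = c ∧ i + b ≤ i' := by
  unfold kP at h
  set S := P.filter fun p => p.1 + s * p.2 = c with hS
  have hmem : ∀ p ∈ S, p ∈ P ∧ p.1 + s * p.2 = c := by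
    intro p hp
    rw [hS] at hp
    exact Finset.mem_filter.1 hp
  have hinj : Set.InjOn Prod.snd (S : Set (ℕ × ℕ)) := by
    intro p hp q hq hpq
    have h1 := (hmem p hp).2
    have h2 := (hmem q hq).2
    have h3 : p.2 = q.2 := hpq
    rw [h3] at h1
    exact Prod.ext (by omega) h3
  set T := S.image Prod.snd with hT
  have hcard : T.card = S.card := Finset.card_image_of_injOn hinj
  have hne : T.Nonempty := Finset.card_pos.1 (by omega)
  have hsub : T ⊆ Finset.Icc (T.min' hne) (T.max' hne) := by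
    intro x hx
    exact Finset.mem_Icc.2 ⟨Finset.min'_le _ _ hx, Finset.le_max' _ _ hx⟩
  have h4 := Finset.card_le_card hsub
  rw [Nat.card_Icc] at h4
  obtain ⟨p, hp, hpi⟩ := Finset.mem_image.1 (Finset.min'_mem T hne)
  obtain ⟨q, hq, hqi⟩ := Finset.mem_image.1 (Finset.max'_mem T hne)
  refine ⟨p.1, p.2, q.1, q.2, (hmem p hp).1, (hmem q hq).1, (hmem p hp).2, (hmem q hq).2, ?_⟩
  rw [hpi, hqi]
  omega

/-- HG9. Upper bound for the rows of a piece between two lines. Let `κ = Q (t1 - t0)`,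
`σ = s - Q t0`, `w = s - Q t1 ∈ [0, 1)`, `σ = κ + w`. A cell `(a, i)` of weight `c` satisfies
`t0 L + σ i ≤ c < t1 L + w i`. If `b < kP s P c`, there are cells of weight `c` in at least `b + 1` rows
(the second coordinates are different), the lowest `i` and the highest `i' ≥ i + b`; so
`t0 L + σ (i + b) ≤ c < t1 L + w i`, hence `κ i < κ L / Q - σ b`, and `c` is an integer in
`[t0 L + σ b, t1 L + w i)`, an interval of length `κ L / Q + w i - σ b ≤ (σ / κ) (κ L / Q - σ b)`; the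
number of integers in it is at most its length plus `1`. -/
theorem reg_up {P : Finset (ℕ × ℕ)} {N L Q s : ℕ} {t0 t1 : ℝ} (hP : IsReg P N L Q t0 t1)
    (h0 : 0 ≤ t0) (hκ : 1 ≤ Q * (t1 - t0)) (hs : Q * t1 ≤ s) (hs' : (s : ℝ) < Q * t1 + 1)
    (b : ℕ) : (stP s P b : ℝ) ≤
      max ((s - Q * t0) * (L / Q) + 2 - (s - Q * t0) ^ 2 / (Q * (t1 - t0)) * b) 0 := by
  have hQ : 0 < (Q : ℝ) := by
    rcases Nat.eq_zero_or_pos Q with h | h
    · subst h
      simp at hκ
      linarith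
    · exact_mod_cast h
  obtain ⟨κ, hκe⟩ : ∃ κ : ℝ, κ = Q * (t1 - t0) := ⟨_, rfl⟩
  obtain ⟨σ, hσe⟩ : ∃ σ : ℝ, σ = s - Q * t0 := ⟨_, rfl⟩
  obtain ⟨w, hwe⟩ : ∃ w : ℝ, w = s - Q * t1 := ⟨_, rfl⟩
  rw [← hκe] at hκ ⊢
  rw [← hσe]
  have hw0 : 0 ≤ w := by rw [hwe]; linarith
  have hσ : σ = κ + w := by rw [hσe, hκe, hwe]; ring
  have hκ0 : 0 < κ := by linarith
  have hσ0 : 0 < σ := by linarith
  have hb0 : (0 : ℝ) ≤ b := Nat.cast_nonneg b
  have hL0 : (0 : ℝ) ≤ L := Nat.cast_nonneg L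
  have ht1 : t1 * L = t0 * L + κ * (L / Q) := by
    rw [hκe]
    field_simp
    ring
  -- the bounds for a weight `c` with more than `b` cells
  have key : ∀ c : ℕ, b < kP s P c →
      0 < κ * (L / Q) - σ * b ∧ t0 * L + σ * b ≤ (c : ℝ) ∧
      (c : ℝ) < t0 * L + σ * b + σ / κ * (κ * (L / Q) - σ * b) := by
    intro c hc
    obtain ⟨a, i, a', i', hm, hm', he, he', hii⟩ := rega_two hc
    obtain ⟨-, -, h2⟩ := (hP a i).1 hm
    obtain ⟨-, h1, -⟩ := (hP a' i').1 hm'
    have heR : (a : ℝ) + s * i = c := by exact_mod_cast he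
    have heR' : (a' : ℝ) + s * i' = c := by exact_mod_cast he'
    have hiiR : (i : ℝ) + b ≤ i' := by exact_mod_cast hii
    have hi0 : (0 : ℝ) ≤ i := Nat.cast_nonneg i
    have h3 : t0 * L + σ * i' ≤ (c : ℝ) := by
      have h4 : t0 * ln L Q i' = t0 * L - Q * t0 * i' := by unfold ln; ring
      rw [h4] at h1
      rw [hσe]
      linarith
    have h5 : (c : ℝ) < t1 * L + w * i := by
      have h4 : t1 * ln L Q i = t1 * L - Q * t1 * i := by unfold ln; ring
      rw [h4] at h2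
      rw [hwe]
      linarith
    have h6 : σ * (i + b) ≤ σ * i' := mul_le_mul_of_nonneg_left hiiR hσ0.le
    have h7 : κ * i < κ * (L / Q) - σ * b := by
      have h8 : σ * i = κ * i + w * i := by rw [hσ]; ring
      have h9 : σ * (i + b) = σ * i + σ * b := by ring
      linarith
    have h10 : 0 < κ * (L / Q) - σ * b := lt_of_le_of_lt (mul_nonneg hκ0.le hi0) h7
    refine ⟨h10, ?_, ?_⟩
    · have h9 : σ * (i + b) = σ * i + σ * b := by ring
      have h11 : 0 ≤ σ * i := mul_nonneg hσ0.le hi0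
      linarith
    · have h12 : (i : ℝ) ≤ (κ * (L / Q) - σ * b) / κ := by
        rw [le_div_iff₀ hκ0]
        linarith
      have h13 : w * i ≤ w * ((κ * (L / Q) - σ * b) / κ) := mul_le_mul_of_nonneg_left h12 hw0
      have h14 : σ / κ * (κ * (L / Q) - σ * b) =
          (κ * (L / Q) - σ * b) + w * ((κ * (L / Q) - σ * b) / κ) := by
        rw [hσ]
        field_simp
      linarith
  by_cases hR : 0 < κ * (L / Q) - σ * b
  · have hA : 0 ≤ t0 * L + σ * b := by positivity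
    have hle : stP s P b ≤ ⌈t0 * L + σ * b + σ / κ * (κ * (L / Q) - σ * b)⌉₊ -
        ⌈t0 * L + σ * b⌉₊ := by
      unfold stP
      rw [← Nat.card_Ico]
      refine Finset.card_le_card ?_
      intro c hc
      obtain ⟨-, h1, h2⟩ := key c (Finset.mem_filter.1 hc).2
      rw [Finset.mem_Ico]
      exact ⟨Nat.ceil_le.2 h1, Nat.lt_ceil.2 h2⟩
    have hpos : 0 ≤ σ / κ * (κ * (L / Q) - σ * b) := by positivity
    have h1 : (⌈t0 * L + σ * b + σ / κ * (κ * (L / Q) - σ * b)⌉₊ : ℝ) <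
        t0 * L + σ * b + σ / κ * (κ * (L / Q) - σ * b) + 1 :=
      Nat.ceil_lt_add_one (by linarith)
    have h2 : t0 * L + σ * b ≤ (⌈t0 * L + σ * b⌉₊ : ℝ) := Nat.le_ceil _
    have h3 : ⌈t0 * L + σ * b⌉₊ ≤ ⌈t0 * L + σ * b + σ / κ * (κ * (L / Q) - σ * b)⌉₊ :=
      Nat.ceil_mono (by linarith)
    have h4 : (stP s P b : ℝ) ≤
        (⌈t0 * L + σ * b + σ / κ * (κ * (L / Q) - σ * b)⌉₊ : ℝ) -
        (⌈t0 * L + σ * b⌉₊ : ℝ) := by
      rw [← Nat.cast_sub h3]
      exact_mod_cast hle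
    have h5 : σ / κ * (κ * (L / Q) - σ * b) = σ * (L / Q) - σ ^ 2 / κ * b := by
      field_simp
    refine le_trans ?_ (le_max_left _ _)
    linarith
  · have h1 : stP s P b = 0 := by
      unfold stP
      rw [Finset.card_eq_zero, Finset.filter_eq_empty_iff]
      intro c _ hc
      exact hR (key c hc).1
    rw [h1]
    exact_mod_cast le_max_right _ _

end Pool.Agent.Lib.MP_6b2d39_agHg
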