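import Pool.Agent.Lib.MP_6b2d39_agHg.LpIdeal

set_option autoImplicit false

namespace Pool.Agent.Lib.MP_6b2d39_agHg

private theorem rn_mono {c1 c2 u v : ℝ} (hc : c1 ≤ c2) (h : u ≤ v) :
    max (u - c1) 0 - max (u - c2) 0 ≤ max (v - c1) 0 - max (v - c2) 0 := by
  rcases max_cases (u - c1) 0 with h1 | h1 <;> rcases max_cases (u - c2) 0 with h2 | h2 <;>
    rcases max_cases (v - c1) 0 with h3 | h3 <;> rcases max_cases (v - c2) 0 with h4 | h4 <;>
    linarith

private theorem rn_lip {c1 c2 u y : ℝ} (hc : c1 ≤ c2) (hy : 0 ≤ y) :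
    max (u + y - c1) 0 - max (u + y - c2) 0 ≤ max (u - c1) 0 - max (u - c2) 0 + y := by
  rcases max_cases (u - c1) 0 with h1 | h1 <;> rcases max_cases (u - c2) 0 with h2 | h2 <;>
    rcases max_cases (u + y - c1) 0 with h3 | h3 <;>
    rcases max_cases (u + y - c2) 0 with h4 | h4 <;>
    linarith

private theorem rn_low {c1 c2 u : ℝ} (hc : c1 ≤ c2) (h : u ≤ c1) :
    max (u - c1) 0 - max (u - c2) 0 = 0 := by
  rw [max_eq_right (by linarith), max_eq_right (by linarith), sub_zero]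

private theorem rn_high {c1 c2 u : ℝ} (hc : c1 ≤ c2) (h : c2 ≤ u) :
    max (u - c1) 0 - max (u - c2) 0 = c2 - c1 := by
  rw [max_eq_left (by linarith), max_eq_left (by linarith)]
  ring

/-- one row, with an extra `x` above -/
private theorem rn_row {c1 c2 u v x : ℝ} (hc : c1 ≤ c2) (h0 : 0 ≤ c1) (hx : 0 ≤ x)
    (hlo : u - 3 ≤ v) (hup : v ≤ max (u + 3) 0 + x) :
    |(max (v - c1) 0 - max (v - c2) 0) - (max (u - c1) 0 - max (u - c2) 0)| ≤
      (if c1 - 3 < u ∧ u < c2 + 3 then 3 else 0) + x := by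
  have hv := rn_mono hc hup
  have hv' := rn_lip (u := max (u + 3) 0) hc hx
  have hge := rn_mono hc hlo
  have hge' := rn_lip (c1 := c1) (c2 := c2) (u := u - 3) (y := 3) hc (by norm_num)
  rw [show u - 3 + 3 = u by ring] at hge'
  have hu0 : 0 ≤ max (u - c1) 0 - max (u - c2) 0 := by
    rcases le_total u c1 with h | h
    · rw [rn_low hc h]
    · have := rn_mono hc h
      rw [rn_low hc le_rfl] at this
      exact this
  have hv0 : 0 ≤ max (v - c1) 0 - max (v - c2) 0 := by
    rcases le_total v c1 with h | h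
    · rw [rn_low hc h]
    · have := rn_mono hc h
      rw [rn_low hc le_rfl] at this
      exact this
  by_cases h1 : u ≤ c1 - 3
  · have h2 : max (u + 3) 0 ≤ c1 := max_le (by linarith) h0
    have h3 := rn_low hc h2
    have h4 := rn_low (u := u) hc (by linarith)
    rw [if_neg (fun h => absurd h.1 (not_lt.2 h1)), h4]
    rw [sub_zero, abs_of_nonneg hv0]
    linarith
  · by_cases h2 : c2 + 3 ≤ u
    · have h3 := rn_high (u := u) hc (by linarith)
      have h4 := rn_high (u := v) hc (by linarith)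
      rw [h3, h4, sub_self, abs_zero]
      split_ifs <;> linarith
    · rw [if_pos ⟨not_le.1 h1, not_le.1 h2⟩]
      have h5 : max (max (u + 3) 0 - c1) 0 - max (max (u + 3) 0 - c2) 0 ≤
          max (u - c1) 0 - max (u - c2) 0 + 3 := by
        rcases le_total (u + 3) 0 with h | h
        · rw [max_eq_right h, rn_low hc h0]
          linarith
        · rw [max_eq_left h]
          exact rn_lip hc (by norm_num)
      rw [abs_le]
      constructor <;> linarith

/-- HG13. `f u = max (u - c1) 0 - max (u - c2) 0` is nondecreasing, `1`-Lipschitz, constant outside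
`[c1, c2]`. For `b ≥ 1` the row `r b` and the ideal row `I - P b` satisfy
`|f (r b) - f (I - P b)| ≤ 3`, and `= 0` unless `c1 - 3 < I - P b < c2 + 3` (if `I - P b ≤ c1 - 3`
then `r b ≤ c1`: use `0 ≤ c1`); `b = 0` gives `X` more. (`count_near`) -/
theorem rows_near {n : ℕ} {r : ℕ → ℕ} {P I X c1 c2 : ℝ} (hP : 6 ≤ P) (hX : 0 ≤ X) (h0 : 0 ≤ c1)
    (hc : c1 ≤ c2) (hlo : ∀ b : ℕ, I - P * b - 3 ≤ (r b : ℝ))
    (hup : ∀ b : ℕ, 1 ≤ b → (r b : ℝ) ≤ max (I - P * b + 3) 0)
    (hup0 : (r 0 : ℝ) ≤ max (I + 3) 0 + X) :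
    |(∑ b ∈ Finset.range n, (max ((r b : ℝ) - c1) 0 - max ((r b : ℝ) - c2) 0)) -
      ∑ b ∈ Finset.range n, (max (I - P * b - c1) 0 - max (I - P * b - c2) 0)| ≤
      3 * ((c2 - c1 + 6) / P + 1) + X := by
  have hrow : ∀ b ∈ Finset.range n,
      |(max ((r b : ℝ) - c1) 0 - max ((r b : ℝ) - c2) 0) -
        (max (I - P * b - c1) 0 - max (I - P * b - c2) 0)| ≤
      (if c1 - 3 < I - P * b ∧ I - P * b < c2 + 3 then 3 else 0) + (if b = 0 then X else 0) := by
    intro b _
    by_cases hb : b = 0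
    · subst hb
      rw [if_pos rfl]
      refine rn_row hc h0 hX (hlo 0) ?_
      rw [Nat.cast_zero, mul_zero, sub_zero]
      exact hup0
    · rw [if_neg hb]
      refine rn_row hc h0 le_rfl (hlo b) ?_
      rw [add_zero]
      exact hup b (Nat.one_le_iff_ne_zero.2 hb)
  have hX' : ∑ b ∈ Finset.range n, (if b = 0 then X else 0) ≤ X := by
    rw [Finset.sum_ite_eq']
    split_ifs
    · exact le_rfl
    · exact hX
  have hcnt := count_near (P := P) (I := I) (c1 := c1 - 3) (c2 := c2 + 3) (by linarith)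
    (by linarith) n
  have hs : ∑ b ∈ Finset.range n, (if c1 - 3 < I - P * b ∧ I - P * b < c2 + 3 then (3 : ℝ) else 0) =
      3 * (((Finset.range n).filter
        fun b : ℕ => c1 - 3 < I - P * b ∧ I - P * b < c2 + 3).card : ℝ) := by
    rw [← Finset.sum_filter, Finset.sum_const, nsmul_eq_mul, mul_comm]
  rw [← Finset.sum_sub_distrib]
  refine (Finset.abs_sum_le_sum_abs _ _).trans ((Finset.sum_le_sum hrow).trans ?_)
  rw [Finset.sum_add_distrib, hs]
  have e : c2 + 3 - (c1 - 3) = c2 - c1 + 6 := by ring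
  rw [e] at hcnt
  linarith

end Pool.Agent.Lib.MP_6b2d39_agHg
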