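import Pool.Agent.Lib.MP_6b2d39_agHl.Defs
import Pool.Agent.Lib.MP_6b2d39_agWin.Lin

/-!
The split lemma: disjoint sets of monomials separated by a linear form and disjoint classes of
points.
-/

open Polynomial

set_option autoImplicit false

namespace Pool.Agent.Lib.MP_6b2d39_agHg

open Pool.Agent.Lib.MP_6b2d39_ag Pool.Agent.Lib.MP_6b2d39_ag.Rel
  Pool.Agent.Lib.MP_6b2d39_agWin Pool.Agent.Lib.MP_6b2d39_agNw Pool.Agent.Lib.MP_6b2d39_agHl

/-- scaling of both coordinates, with weights `u` and `v` -/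
private theorem sp_entry (s x y : ℂ) (u v a b i j : ℕ) :
    s ^ (u * a + v * b) * Transfer.entry (s ^ u * x) (s ^ v * y) a b i j =
      s ^ (u * i + v * j) * Transfer.entry x y a b i j := by
  unfold Transfer.entry
  by_cases h : a ≤ i
  · by_cases h' : b ≤ j
    · rw [mul_pow, mul_pow, ← pow_mul, ← pow_mul]
      have h1 : s ^ (u * i + v * j) =
          s ^ (u * a + v * b) * (s ^ (u * (i - a)) * s ^ (v * (j - b))) := by
        rw [← pow_add, ← pow_add]
        congr 1
        have h2 : u * i = u * a + u * (i - a) := by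
          rw [← mul_add]
          congr 1
          omega
        have h3 : v * j = v * b + v * (j - b) := by
          rw [← mul_add]
          congr 1
          omega
        omega
      rw [h1]
      ring
    · rw [Nat.choose_eq_zero_of_lt (show j < b by omega)]
      simp
  · rw [Nat.choose_eq_zero_of_lt (show i < a by omega)]
    simp

/-- a square matrix of polynomials, invertible at `0`, is invertible at some nonzero number -/
private theorem sp_det {n : Type*} [Fintype n] [DecidableEq n] (M : Matrix n n ℂ[X])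
    (hM : (M.map (Polynomial.eval 0)).det ≠ 0) :
    ∃ s : ℂ, s ≠ 0 ∧ (M.map (Polynomial.eval s)).det ≠ 0 := by
  have hdet : ∀ z : ℂ, (M.map (Polynomial.eval z)).det = Polynomial.eval z M.det := by
    intro z
    have := RingHom.map_det (Polynomial.evalRingHom z) M
    rw [Polynomial.coe_evalRingHom] at this
    rw [this]
    rfl
  have h0 : M.det ≠ 0 := by
    intro h
    have h1 := hdet 0
    rw [h, Polynomial.eval_zero] at h1
    exact hM h1
  have h1 : Polynomial.X * M.det ≠ 0 := mul_ne_zero Polynomial.X_ne_zero h0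
  obtain ⟨z, hz⟩ : ∃ z, Polynomial.eval z (Polynomial.X * M.det) ≠ 0 := by
    by_contra hcon
    push Not at hcon
    exact h1 (Polynomial.funext fun z => by simpa using hcon z)
  rw [Polynomial.eval_mul, Polynomial.eval_X] at hz
  refine ⟨z, left_ne_zero_of_mul hz, ?_⟩
  rw [hdet]
  exact right_ne_zero_of_mul hz

/-- the conditions that certify emptiness -/
private theorem sp_minor {ι : Type} {P : Finset (ℕ × ℕ)} {m : ι → ℕ} {J : Finset ι}
    [DecidableEq P] (x y : ι → ℂ) (H : ∀ f : ℂ[X][X], SuppP P f →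
      (∀ i ∈ J, Cond (Finset.Icc 1 (m i)) (x i) (y i) f) → f = 0) :
    ∃ σ : P → ι × ℕ × ℕ, (∀ p, (σ p).1 ∈ J ∧ (σ p).2.1 + (σ p).2.2 < m (σ p).1) ∧
      (Matrix.of fun p q : P => Transfer.entry (x (σ p).1) (y (σ p).1) (σ p).2.1 (σ p).2.2
        q.1.1 q.1.2).det ≠ 0 := by
  obtain ⟨σ, hσ⟩ := Transfer.exists_minor
    (J := {t : ι × ℕ × ℕ // t.1 ∈ J ∧ t.2.1 + t.2.2 < m t.1})
    (fun t (p : P) => Transfer.entry (x t.1.1) (y t.1.1) t.1.2.1 t.1.2.2 p.1.1 p.1.2)
    (fun c hc => by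
      have h0 : ofC c = 0 := by
        apply H _ (suppP_ofC _)
        intro i hi
        rw [cond_ofC_iff]
        intro a b hab
        exact hc ⟨(i, a, b), hi, hab⟩
      ext p
      have h3 := coeff_ofC_self c p
      rw [h0, coeff_zero, coeff_zero] at h3
      exact h3.symm)
  exact ⟨fun p => (σ p).1, fun p => (σ p).2, hσ⟩

/-- **Split lemma.** -/
theorem emp_split {ι : Type} [DecidableEq ι] {P Q : Finset (ℕ × ℕ)} {m : ι → ℕ} {J K : Finset ι} (u v : ℕ)
    (hw : ∀ p ∈ P, ∀ q ∈ Q, u * p.1 + v * p.2 < u * q.1 + v * q.2) (hJK : Disjoint J K)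
    (hP : EmpQ P m J) (hQ : EmpQ Q m K) : EmpQ (P ∪ Q) m (J ∪ K) := by
  classical
  obtain ⟨x, y, H⟩ := hP
  obtain ⟨x', y', H'⟩ := hQ
  have hd : Disjoint P Q := by
    rw [Finset.disjoint_left]
    intro p hp hq
    exact lt_irrefl _ (hw p hp p hq)
  obtain ⟨W, hWp, hWq⟩ : ∃ W : ℕ, (∀ p ∈ P, u * p.1 + v * p.2 < W) ∧
      (P.Nonempty → ∀ q ∈ Q, W ≤ u * q.1 + v * q.2) := by
    refine ⟨(P.sup fun p => u * p.1 + v * p.2) + 1, fun p hp => ?_, fun hne q hq => ?_⟩
    · exact Nat.lt_succ_of_le (Finset.le_sup (f := fun p : ℕ × ℕ => u * p.1 + v * p.2) hp)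
    · obtain ⟨p, hp, h⟩ := Finset.exists_mem_eq_sup P hne fun p : ℕ × ℕ => u * p.1 + v * p.2
      rw [h]
      exact hw p hp q hq
  obtain ⟨α, hα, hα'⟩ := sp_minor x y H
  obtain ⟨β, hβ, hβ'⟩ := sp_minor x' y' H'
  let A : Matrix P P ℂ[X] := Matrix.of fun p q =>
    C (Transfer.entry (x (α p).1) (y (α p).1) (α p).2.1 (α p).2.2 q.1.1 q.1.2)
  let B : Matrix P Q ℂ[X] := Matrix.of fun p q => X ^ (u * q.1.1 + v * q.1.2 - W) *
    C (Transfer.entry (x (α p).1) (y (α p).1) (α p).2.1 (α p).2.2 q.1.1 q.1.2)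
  let A' : Matrix Q P ℂ[X] := Matrix.of fun p q => X ^ (W - (u * q.1.1 + v * q.1.2)) *
    C (Transfer.entry (x' (β p).1) (y' (β p).1) (β p).2.1 (β p).2.2 q.1.1 q.1.2)
  let B' : Matrix Q Q ℂ[X] := Matrix.of fun p q =>
    C (Transfer.entry (x' (β p).1) (y' (β p).1) (β p).2.1 (β p).2.2 q.1.1 q.1.2)
  have h0 : ((Matrix.fromBlocks A B A' B').map (Polynomial.eval 0)).det ≠ 0 := by
    rw [Matrix.fromBlocks_map]
    have e1 : A'.map (Polynomial.eval 0) = 0 := by
      ext p q
      have h1 := hWp q.1 q.2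
      change (X ^ (W - (u * q.1.1 + v * q.1.2)) * C _ : ℂ[X]).eval 0 = 0
      rw [eval_mul, eval_pow, eval_X, zero_pow (by omega), zero_mul]
    rw [e1, Matrix.det_fromBlocks_zero₂₁]
    refine mul_ne_zero ?_ ?_
    · have e2 : A.map (Polynomial.eval 0) = Matrix.of fun p q : P => Transfer.entry (x (α p).1)
          (y (α p).1) (α p).2.1 (α p).2.2 q.1.1 q.1.2 := by
        ext p q
        exact eval_C
      rw [e2]
      exact hα'
    · have e2 : B'.map (Polynomial.eval 0) = Matrix.of fun p q : Q => Transfer.entry (x' (β p).1)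
          (y' (β p).1) (β p).2.1 (β p).2.2 q.1.1 q.1.2 := by
        ext p q
        exact eval_C
      rw [e2]
      exact hβ'
  obtain ⟨s, hs0, hs⟩ := sp_det _ h0
  refine ⟨fun i => if i ∈ J then s ^ u * x i else x' i,
    fun i => if i ∈ J then s ^ v * y i else y' i, fun f hf hc => ?_⟩
  have key : ∀ i ∈ J ∪ K, ∀ a b, a + b < m i →
      ∑ p ∈ P, Transfer.entry (if i ∈ J then s ^ u * x i else x' i)
        (if i ∈ J then s ^ v * y i else y' i) a b p.1 p.2 * (f.coeff p.1).coeff p.2 +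
      ∑ p ∈ Q, Transfer.entry (if i ∈ J then s ^ u * x i else x' i)
        (if i ∈ J then s ^ v * y i else y' i) a b p.1 p.2 * (f.coeff p.1).coeff p.2 = 0 := by
    intro i hi a b hab
    have h1 := (Pool.Agent.Lib.MP_6b2d39_agWin.cond_iff (m i) _ _).1 (hc i hi) a b hab
    rw [eq_ofC hf, coeff_taylor_ofC] at h1
    rw [← Finset.sum_union hd, ← Finset.sum_coe_sort (P ∪ Q)]
    exact h1
  have kJ : ∀ i ∈ J, ∀ a b, a + b < m i →
      ∑ p ∈ P, s ^ (u * p.1 + v * p.2) * Transfer.entry (x i) (y i) a b p.1 p.2 *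
        (f.coeff p.1).coeff p.2 +
      ∑ p ∈ Q, s ^ (u * p.1 + v * p.2) * Transfer.entry (x i) (y i) a b p.1 p.2 *
        (f.coeff p.1).coeff p.2 = 0 := by
    intro i hi a b hab
    have h1 := key i (Finset.mem_union_left _ hi) a b hab
    rw [if_pos hi, if_pos hi] at h1
    have h2 := congrArg (fun z => s ^ (u * a + v * b) * z) h1
    simp only [mul_zero] at h2
    rw [← h2, mul_add, Finset.mul_sum, Finset.mul_sum]
    refine congrArg₂ (· + ·) (Finset.sum_congr rfl fun p _ => ?_)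
      (Finset.sum_congr rfl fun p _ => ?_)
    · rw [← sp_entry, mul_assoc]
    · rw [← sp_entry, mul_assoc]
  have kK : ∀ i ∈ K, ∀ a b, a + b < m i →
      ∑ p ∈ P, Transfer.entry (x' i) (y' i) a b p.1 p.2 * (f.coeff p.1).coeff p.2 +
      ∑ p ∈ Q, Transfer.entry (x' i) (y' i) a b p.1 p.2 * (f.coeff p.1).coeff p.2 = 0 := by
    intro i hi a b hab
    have h1 := key i (Finset.mem_union_right _ hi) a b hab
    rw [if_neg (Finset.disjoint_right.1 hJK hi), if_neg (Finset.disjoint_right.1 hJK hi)] at h1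
    exact h1
  let c : P ⊕ Q → ℂ := Sum.elim (fun p => s ^ (u * p.1.1 + v * p.1.2) *
    (f.coeff p.1.1).coeff p.1.2) (fun p => s ^ W * (f.coeff p.1.1).coeff p.1.2)
  have hc0 : c = 0 := by
    apply Matrix.eq_zero_of_mulVec_eq_zero hs
    rw [Matrix.fromBlocks_map, Matrix.fromBlocks_mulVec]
    funext r
    rcases r with r | r
    · have hne : P.Nonempty := ⟨r.1, r.2⟩
      have h1 := kJ (α r).1 (hα r).1 (α r).2.1 (α r).2.2 (hα r).2
      rw [← Finset.sum_coe_sort P, ← Finset.sum_coe_sort Q] at h1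
      change (∑ p : P, (C (Transfer.entry (x (α r).1) (y (α r).1) (α r).2.1 (α r).2.2 p.1.1
          p.1.2) : ℂ[X]).eval s * (s ^ (u * p.1.1 + v * p.1.2) * (f.coeff p.1.1).coeff p.1.2)) +
        (∑ p : Q, (X ^ (u * p.1.1 + v * p.1.2 - W) * C (Transfer.entry (x (α r).1) (y (α r).1)
          (α r).2.1 (α r).2.2 p.1.1 p.1.2) : ℂ[X]).eval s *
            (s ^ W * (f.coeff p.1.1).coeff p.1.2)) = 0
      rw [← h1]
      refine congrArg₂ (· + ·) (Finset.sum_congr rfl fun p _ => ?_)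
        (Finset.sum_congr rfl fun p _ => ?_)
      · rw [eval_C]
        ring
      · have h2 : s ^ (u * p.1.1 + v * p.1.2) = s ^ (u * p.1.1 + v * p.1.2 - W) * s ^ W := by
          rw [← pow_add, Nat.sub_add_cancel (hWq hne p.1 p.2)]
        rw [eval_mul, eval_C, eval_pow, eval_X, h2]
        ring
    · have h1 := kK (β r).1 (hβ r).1 (β r).2.1 (β r).2.2 (hβ r).2
      rw [← Finset.sum_coe_sort P, ← Finset.sum_coe_sort Q] at h1
      have h3 := congrArg (fun z => s ^ W * z) h1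
      simp only [mul_zero] at h3
      change (∑ p : P, (X ^ (W - (u * p.1.1 + v * p.1.2)) * C (Transfer.entry (x' (β r).1)
          (y' (β r).1) (β r).2.1 (β r).2.2 p.1.1 p.1.2) : ℂ[X]).eval s *
            (s ^ (u * p.1.1 + v * p.1.2) * (f.coeff p.1.1).coeff p.1.2)) +
        (∑ p : Q, (C (Transfer.entry (x' (β r).1) (y' (β r).1) (β r).2.1 (β r).2.2 p.1.1
          p.1.2) : ℂ[X]).eval s * (s ^ W * (f.coeff p.1.1).coeff p.1.2)) = 0
      rw [← h3, mul_add, Finset.mul_sum, Finset.mul_sum]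
      refine congrArg₂ (· + ·) (Finset.sum_congr rfl fun p _ => ?_)
        (Finset.sum_congr rfl fun p _ => ?_)
      · have h2 : s ^ W = s ^ (W - (u * p.1.1 + v * p.1.2)) * s ^ (u * p.1.1 + v * p.1.2) := by
          rw [← pow_add, Nat.sub_add_cancel (hWp p.1 p.2).le]
        rw [eval_mul, eval_C, eval_pow, eval_X, h2]
        ring
      · rw [eval_C]
        ring
  ext a b
  rw [coeff_zero, coeff_zero]
  by_cases hP : (a, b) ∈ P
  · have h1 := congrFun hc0 (Sum.inl ⟨(a, b), hP⟩)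
    exact (mul_eq_zero.1 h1).resolve_left (pow_ne_zero _ hs0)
  · by_cases hQ : (a, b) ∈ Q
    · have h1 := congrFun hc0 (Sum.inr ⟨(a, b), hQ⟩)
      exact (mul_eq_zero.1 h1).resolve_left (pow_ne_zero _ hs0)
    · exact hf a b fun h => (Finset.mem_union.1 h).elim hP hQ

/-- **Split lemma**, real weights. -/
theorem emp_split_real {ι : Type} [DecidableEq ι] {P Q : Finset (ℕ × ℕ)} {m : ι → ℕ}
    {J K : Finset ι} (θ : ℝ) (hθ : 0 ≤ θ)
    (hw : ∀ p ∈ P, ∀ q ∈ Q, (p.1 : ℝ) + θ * p.2 < q.1 + θ * q.2) (hJK : Disjoint J K)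
    (hP : EmpQ P m J) (hQ : EmpQ Q m K) : EmpQ (P ∪ Q) m (J ∪ K) := by
  have h1 : ∀ᶠ t : ℝ in nhds θ, ∀ p ∈ P, ∀ q ∈ Q, (p.1 : ℝ) + t * p.2 < q.1 + t * q.2 := by
    rw [Filter.eventually_all_finset]
    intro p hp
    rw [Filter.eventually_all_finset]
    intro q hq
    have hc : ContinuousAt (fun t : ℝ => (q.1 : ℝ) + t * q.2 - (p.1 + t * p.2)) θ := by
      fun_prop
    have h2 := hc.eventually (lt_mem_nhds (sub_pos.2 (hw p hp q hq)))
    filter_upwards [h2] with t ht
    exact sub_pos.1 ht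
  obtain ⟨ε, hε, h2⟩ := Metric.eventually_nhds_iff.1 h1
  obtain ⟨r, hr1, hr2⟩ := exists_rat_btwn (lt_add_of_pos_right θ hε)
  have hr0 : 0 < r := by
    have h3 : (0 : ℝ) < r := lt_of_le_of_lt hθ hr1
    exact_mod_cast h3
  have h3 := h2 (y := (r : ℝ)) (by
    rw [Real.dist_eq, abs_of_pos (sub_pos.2 hr1)]
    linarith)
  have hd : (0 : ℝ) < r.den := by exact_mod_cast r.den_pos
  have hn : ((r.num.toNat : ℕ) : ℝ) = r * r.den := by
    have h4 : ((r.num.toNat : ℕ) : ℤ) = r.num := Int.toNat_of_nonneg (Rat.num_nonneg.2 hr0.le)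
    have h5 : ((r.num.toNat : ℕ) : ℚ) = r * r.den := by
      rw [Rat.mul_den_eq_num]
      exact_mod_cast h4
    exact_mod_cast h5
  refine emp_split r.den r.num.toNat (fun p hp q hq => ?_) hJK hP hQ
  have h4 := mul_lt_mul_of_pos_left (h3 p hp q hq) hd
  have h5 : ((r.den * p.1 + r.num.toNat * p.2 : ℕ) : ℝ) <
      ((r.den * q.1 + r.num.toNat * q.2 : ℕ) : ℝ) := by
    push_cast
    rw [hn]
    linarith
  exact_mod_cast h5

/-- the empty piece -/
theorem emp_empty {ι : Type} (m : ι → ℕ) (J : Finset ι) : EmpQ ∅ m J := by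
  refine ⟨0, 0, fun f hf _ => ?_⟩
  ext a b
  rw [coeff_zero, coeff_zero]
  exact hf a b (Finset.notMem_empty _)

/-- **Split lemma**, several pieces: piece `i` is separated from the pieces before it by a line
of direction `θ i`. -/
theorem emp_pieces {ι : Type} [DecidableEq ι] {m : ι → ℕ} (g : ℕ) (P : ℕ → Finset (ℕ × ℕ))
    (J : ℕ → Finset ι) (θ : ℕ → ℝ) (hθ : ∀ i < g, 0 ≤ θ i)
    (hw : ∀ i < g, ∀ i' < i, ∀ p ∈ P i', ∀ q ∈ P i,
      (p.1 : ℝ) + θ i * p.2 < q.1 + θ i * q.2)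
    (hJ : ∀ i < g, ∀ i' < i, Disjoint (J i') (J i)) (h : ∀ i < g, EmpQ (P i) m (J i)) :
    EmpQ ((Finset.range g).biUnion P) m ((Finset.range g).biUnion J) := by
  induction g with
  | zero =>
    rw [Finset.range_zero, Finset.biUnion_empty, Finset.biUnion_empty]
    exact emp_empty m ∅
  | succ g ih =>
    have h1 := ih (fun i hi => hθ i (by omega)) (fun i hi => hw i (by omega))
      (fun i hi => hJ i (by omega)) (fun i hi => h i (by omega))
    rw [Finset.range_add_one, Finset.biUnion_insert, Finset.biUnion_insert, Finset.union_comm,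
      Finset.union_comm (J g)]
    refine emp_split_real (θ g) (hθ g (by omega)) (fun p hp q hq => ?_) ?_ h1 (h g (by omega))
    · obtain ⟨i, hi, hp⟩ := Finset.mem_biUnion.1 hp
      exact hw g (by omega) i (Finset.mem_range.1 hi) p hp q hq
    · rw [Finset.disjoint_biUnion_left]
      exact fun i hi => hJ g (by omega) i (Finset.mem_range.1 hi)

end Pool.Agent.Lib.MP_6b2d39_agHg
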