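import Pool.Agent.Lib.MP_6b2d39_agHg.WordRx
import Pool.Agent.Lib.MP_6b2d39_agHl.RangeR
import Pool.Agent.Lib.MP_ed661f_ag.H.Num

set_option autoImplicit false

namespace Pool.Agent.Lib.MP_6b2d39_agHg

open Pool.Agent.Lib.MP_ed661f_ag.G Pool.Agent.Lib.MP_ed661f_ag.H Pool.Agent.Lib.MP_6b2d39_agHl

/-- HG33. As the main part of `chain_of_subsetR` (`Hl/SubR.lean`): start `x0` (`Rx y k x0`,
`x0 ^ 2 ≈ z0 + 1 / 2`) instead of `R1`, last step `q`; `target_rangeR` with `Y = q ^ 2 / t`, `word_rx`,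
`n8_log_prod`. (`x ^ 2 + 1 / 100 ≤ q` for the last step: `x ≤ q / √t`, `q ^ 2 / t + 1 / 100 ≤ q`.) -/
theorem chain_of_subsetY {y x0 t : ℝ} {k z0 nb q : ℕ} (h : Rx y k x0) (hx0 : 0 < x0)
    (ht : 0 < t) (hz : 1000000 ≤ z0) (hy1 : (z0 : ℝ) + 45 / 100 ≤ x0 ^ 2)
    (hy2 : x0 ^ 2 ≤ (z0 : ℝ) + 55 / 100) (hY1 : (z0 : ℝ) + 4 * nb + 45 / 100 ≤ (q : ℝ) ^ 2 / t)
    (hY2 : (q : ℝ) ^ 2 / t ≤ (z0 : ℝ) + 4 * nb + 55 / 100) (h7 : 16 * z0 ≤ 10 * (z0 + 4 * nb))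
    (h8 : 3 * (z0 + 4 * nb) ≤ 5 * z0) (hq : (q : ℝ) ^ 2 / t + 1 / 100 ≤ q) :
    ∃ τ : ℝ, 1 / 40 / (z0 : ℝ) ≤ τ ∧
      τ ≤ ∑ b ∈ Finset.range nb, gz (z0 + 4 * b) - 1 / 40 / (z0 : ℝ) ∧
      ∀ U ⊆ Finset.range nb, ∀ η : ℝ, 0 ≤ η → ∑ b ∈ U, gz (z0 + 4 * b) ≤ τ →
        τ - η ≤ ∑ b ∈ U, gz (z0 + 4 * b) →
        ∃ (k' : ℕ) (x : ℝ), Rx y k' x ∧ √t ≤ x ∧ x ≤ √t * Real.exp η := by
  have htgt : 0 < (q : ℝ) ^ 2 / t := by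
    have h1 : (1000000 : ℝ) ≤ z0 := by exact_mod_cast hz
    have h2 : (0 : ℝ) ≤ nb := Nat.cast_nonneg nb
    linarith
  have hqpos : (0 : ℝ) < q := by linarith
  have hsn : 0 < √t := Real.sqrt_pos.2 ht
  have htgt' : 0 < (q : ℝ) / √t := div_pos hqpos hsn
  have hlogY : Real.log ((q : ℝ) ^ 2 / t) / 2 = Real.log ((q : ℝ) / √t) := by
    have h1 : (q : ℝ) ^ 2 / t = ((q : ℝ) / √t) ^ 2 := by
      rw [div_pow, Real.sq_sqrt ht.le]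
    rw [h1, Real.log_pow]
    push_cast
    ring
  obtain ⟨τ, hτ⟩ : ∃ τ : ℝ, τ = Real.log ((q : ℝ) ^ 2 / t) / 2 - Real.log x0 -
      ∑ b ∈ Finset.range nb, Real.log (((z0 : ℝ) + 4 * b + 4) / (z0 + 4 * b + 2)) := ⟨_, rfl⟩
  obtain ⟨tr1, tr2⟩ := target_rangeR nb z0 x0 ((q : ℝ) ^ 2 / t) hz hx0 hy1 hy2 hY1 hY2 h7 h8 τ hτ
  refine ⟨τ, tr1, tr2, ?_⟩
  intro E hE η hη hE1 hE2
  -- the word
  obtain ⟨k', R2⟩ := word_rx h hx0 z0 nb (le_trans (by norm_num) hz) hy1 hy2 h8 E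
  set x := x0 *
    ∏ b ∈ Finset.range nb, (if b ∈ E then ((z0 : ℝ) + 4 * b + 3) / (z0 + 4 * b + 1)
        else ((z0 : ℝ) + 4 * b + 4) / (z0 + 4 * b + 2)) with hx
  have hPpos : 0 < ∏ b ∈ Finset.range nb, (if b ∈ E then ((z0 : ℝ) + 4 * b + 3) / (z0 + 4 * b + 1)
        else ((z0 : ℝ) + 4 * b + 4) / (z0 + 4 * b + 2)) := by
    apply Finset.prod_pos
    intro b _
    split_ifs <;> positivity
  have hxpos : 0 < x := mul_pos hx0 hPpos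
  have hlogx : Real.log x = Real.log x0 +
      (∑ b ∈ Finset.range nb, Real.log (((z0 : ℝ) + 4 * b + 4) / (z0 + 4 * b + 2)) +
        ∑ b ∈ E, gz (z0 + 4 * b)) := by
    rw [hx, Real.log_mul hx0.ne' hPpos.ne', n8_log_prod nb E hE z0]
  rw [hlogY] at hτ
  have hup : Real.log x ≤ Real.log ((q : ℝ) / √t) := by
    rw [hlogx]
    linarith
  have hdn : Real.log ((q : ℝ) / √t) - η ≤ Real.log x := by
    rw [hlogx]
    linarith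
  have hxle : x ≤ (q : ℝ) / √t := (Real.log_le_log_iff hxpos htgt').1 hup
  have hxge : (q : ℝ) / √t ≤ x * Real.exp η := by
    rw [← Real.log_le_log_iff htgt' (by positivity), Real.log_mul hxpos.ne' (Real.exp_pos _).ne',
      Real.log_exp]
    linarith
  -- the last step
  have hlast : x ^ 2 + 1 / 100 ≤ (q : ℝ) := by
    have h1 : x ^ 2 ≤ ((q : ℝ) / √t) ^ 2 := pow_le_pow_left₀ hxpos.le hxle 2
    rw [div_pow, Real.sq_sqrt ht.le] at h1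
    linarith
  refine ⟨k' + 1, (q : ℝ) / x, Rx.step q R2 hlast, ?_, ?_⟩
  · rw [le_div_iff₀ hxpos]
    rw [le_div_iff₀ hsn] at hxle
    linarith
  · rw [div_le_iff₀ hxpos]
    rw [div_le_iff₀ hsn] at hxge
    calc (q : ℝ) ≤ x * Real.exp η * √t := hxge
      _ = √t * Real.exp η * x := by ring

end Pool.Agent.Lib.MP_6b2d39_agHg
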